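import Pool.Agent.MP_c4844d_an.tr.One

/-! Expansion along the diagonal: the leading coefficient solves the fourth-order equation. -/

noncomputable section

namespace Pool.Agent.MP_c4844d_an.Tr

open Polynomial HahnSeries

variable {K : Type} [Field K]

/-- a quadratic vector field that acts on two points, in the local parameter of the diagonal -/
def DD (D : K →+ K) (M : ℤ) (l l1 l2 : K) : LS K →+ LS K :=
  cw (fun n => (AddMonoidHom.mulLeft l).comp D + AddMonoidHom.mulLeft (n / M * l1)) +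
    (AddMonoidHom.mulLeft (single M (l2 / M))).comp th

variable {D : K →+ K} {M : ℤ} {l l1 l2 : K}

theorem DD_apply (x : LS K) : DD D M l l1 l2 x =
    cw (fun n => (AddMonoidHom.mulLeft l).comp D + AddMonoidHom.mulLeft (n / M * l1)) x +
      single M (l2 / M) * th x := rfl

theorem DD_lb (hD : Lb D) : Lb (DD D M l l1 l2) := fun x y => by
  rw [DD_apply, DD_apply, DD_apply, th_lb, cw_lb fun i j a b => by simp [hD a b]; ring]
  ring

theorem DD_const (c : K) : DD D M l l1 l2 (single 0 c) = single 0 (l * D c) := by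
  rw [DD_apply, cw_single, th_single]; simp

theorem DD_par (hD : Lb D) (hM : (M : K) ≠ 0) :
    DD D M l l1 l2 (single M 1) = single 0 l1 * single M 1 + single 0 l2 * single M 1 ^ 2 := by
  rw [DD_apply, cw_single, th_single, sq]
  simp [LbO.one (g := RingHom.id K) hD, hM, single_mul_single]

theorem Ld.dd (hM : 0 < M) {s : LS K} {n : ℤ} {c : K} (h : Ld s n c) :
    Ld (DD D M l l1 l2 s) n (l * D c + n / M * l1 * c) := by
  rw [DD_apply]
  exact ((h.cw _).add (((ld_single M _).mul (h.cw _)).weak (by omega))).cast rfl (by simp)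

theorem den_ge {ρ : ℚ} (h1 : 81 / 16 < (ρ - 1) ^ 2) (h2 : (ρ - 1) ^ 2 < 49 / 9) : 7 ≤ ρ.den := by
  by_contra q
  have d0 : (0 : ℚ) < ρ.den := by exact_mod_cast ρ.den_pos
  have e : ((ρ.num - ρ.den).natAbs : ℚ) ^ 2 = (ρ - 1) ^ 2 * ρ.den ^ 2 := by
    rw [Nat.cast_natAbs, Int.cast_abs, sq_abs]
    push_cast
    rw [← Rat.den_mul_eq_num]; ring
  have a : 81 * ρ.den ^ 2 < 16 * (ρ.num - ρ.den).natAbs ^ 2 := by
    have : (81 * ρ.den ^ 2 : ℚ) < 16 * (ρ.num - ρ.den).natAbs ^ 2 := by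
      rw [e]; nlinarith [pow_pos d0 2]
    exact_mod_cast this
  have b : 9 * (ρ.num - ρ.den).natAbs ^ 2 < 49 * ρ.den ^ 2 := by
    have : (9 * (ρ.num - ρ.den).natAbs ^ 2 : ℚ) < 49 * ρ.den ^ 2 := by
      rw [e]; nlinarith [pow_pos d0 2]
    exact_mod_cast this
  have := ρ.den_pos
  generalize (ρ.num - ρ.den).natAbs = m at *
  generalize ρ.den = d at *
  have : m < 14 := by nlinarith
  have : d < 7 := by omega
  interval_cases d <;> interval_cases m <;> omega

/-- the three rotation fields -/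
def DL (D : K1 →+ K1) (M : ℤ) : Fin 3 → LS K1 →+ LS K1 :=
  ![DD D M (tp K1 X) 1 0, DD D M (1 - tp K1 X ^ 2) (-2 * tp K1 X) (-1),
    DD D M (1 + tp K1 X ^ 2) (2 * tp K1 X) 1]

theorem cone_zero {D : K1 →+ K1} (hD : Dt D) (hM : 0 < M) {lam : ℝ} {η : ℂ} (l1 : 77 / 16 < lam)
    (l2 : lam < 187 / 36) {y : LS K1} (L : Fin 3 → LS K1 →+ LS K1) (hL : L = DL D M)
    (h2 : 4 * L 0 (L 0 y) + L 1 (L 1 y) - L 2 (L 2 y) =
      single 0 (tp K1 (Polynomial.C (4 * lam))) * y)
    (h4 : 16 * L 0 (L 0 (L 0 (L 0 y))) + L 1 (L 1 (L 1 (L 1 y))) + L 2 (L 2 (L 2 (L 2 y))) =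
      single 0 (tp K1 (Polynomial.C (16 * η))) * y) : y = 0 := by
  by_contra h0
  obtain ⟨n, φ, φ0, hl⟩ := exists_ld h0
  set t := tp K1 X with ht
  let al : ℂ →+* K1 := (tp K1).comp Polynomial.C
  have ea : ∀ c, tp K1 (Polynomial.C c) = al c := fun _ => rfl
  set κ : ℂ := n / M with hκ
  have ek : (n : K1) / M = al κ := by rw [hκ, map_div₀, map_intCast, map_intCast]
  have d0 : ∀ {s c}, Ld s n c → Ld (L 0 s) n (t * D c + al κ * 1 * c) := fun h => by
    rw [hL, ← ek]; exact h.dd hM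
  have d1 : ∀ {s c}, Ld s n c → Ld (L 1 s) n ((1 - t * t) * D c + al κ * (-(t + t)) * c) :=
    fun h => by rw [hL, ← ek]; exact (h.dd hM).cast rfl (by ring)
  have d2 : ∀ {s c}, Ld s n c → Ld (L 2 s) n ((1 + t * t) * D c + al κ * (t + t) * c) :=
    fun h => by rw [hL, ← ek]; exact (h.dd hM).cast rfl (by ring)
  have Dt : D t = 1 := by rw [ht, hD.pol]; simp
  have Dk : D (al κ) = 0 := by rw [← ea, hD.pol]; simp
  have D1 : D 1 = 0 := LbO.one (g := RingHom.id _) hD.lb
  have n4 : (4 : LS K1) = single 0 4 := (map_ofNat HahnSeries.C 4).symm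
  have n16 : (16 : LS K1) = single 0 16 := (map_ofNat HahnSeries.C 16).symm
  have lb : ∀ a b, D (a * b) = D a * b + a * D b := hD.lb
  have e2 := congrArg (fun s : LS K1 => s.coeff n) h2
  have e4 := congrArg (fun s : LS K1 => s.coeff n) h4
  simp only [n4, n16, HahnSeries.coeff_add, HahnSeries.coeff_sub, coeff_single_zero_mul, hl.2,
    (d0 (d0 hl)).2, (d1 (d1 hl)).2, (d2 (d2 hl)).2, (d0 (d0 (d0 (d0 hl)))).2,
    (d1 (d1 (d1 (d1 hl)))).2, (d2 (d2 (d2 (d2 hl)))).2, ea, map_add, map_sub, map_neg, lb, Dt, Dk,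
    D1, map_zero, map_mul al, map_ofNat al, zero_mul, mul_zero, add_zero, zero_add, one_mul,
    mul_one] at e2 e4
  have k1 : κ * (κ - 1) = lam := al.injective (by
    rw [map_mul, map_sub, map_one]
    exact mul_right_cancel₀ φ0 (by linear_combination e2 / 4))
  have k2 : ((n : ℝ) / M) * (n / M - 1) = lam := by
    rw [hκ] at k1; exact_mod_cast k1
  have k3 : κ = 3 / 2 - ((3 / 2 - n / M : ℚ) : ℂ) := by rw [hκ]; push_cast; ring
  refine φ0 (no_sol' (ρ := 3 / 2 - n / M) (η := η) hD (den_ge ?_ ?_) ?_)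
  · have : (81 / 16 : ℝ) < (3 / 2 - n / M - 1) ^ 2 := by nlinarith
    exact_mod_cast (Rat.cast_lt (K := ℝ)).1 (by push_cast; exact this)
  · have : (3 / 2 - n / M - 1) ^ 2 < (49 / 9 : ℝ) := by nlinarith
    exact_mod_cast (Rat.cast_lt (K := ℝ)).1 (by push_cast; exact this)
  · rw [← k3]
    simp only [ode, pW, p3, p2, p1, p0, map_add, map_sub, map_mul, map_pow, map_one, ea, ← ht,
      map_ofNat al]
    linear_combination e4 / 2

end Pool.Agent.MP_c4844d_an.Tr

end
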