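import Pool.Agent.MP_c4844d_an.tr.NP

/-! Derivations, leading terms of Laurent series, polynomials evaluated at a local parameter. -/

noncomputable section

namespace Pool.Agent.MP_c4844d_an.Tr

open Polynomial HahnSeries

/-! ### derivations -/

section Der

variable {K S R : Type} [CommRing K] [CommRing S] [CommRing R]

/-- Leibniz rule over a ring map -/
def LbO (g : K →+* S) (δ : K →+ S) : Prop := ∀ a b, δ (a * b) = δ a * g b + g a * δ b

/-- Leibniz rule -/
def Lb (δ : K →+ K) : Prop := ∀ a b, δ (a * b) = δ a * b + a * δ b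

theorem LbO.one {g : K →+* S} {δ : K →+ S} (h : LbO g δ) : δ 1 = 0 := by
  have := h 1 1
  rw [mul_one, g.map_one, mul_one, one_mul] at this
  linear_combination -this

theorem LbO.pow {g : K →+* S} {δ : K →+ S} (h : LbO g δ) (a : K) (n : ℕ) :
    δ (a ^ n) = n * g a ^ (n - 1) * δ a := by
  induction n with
  | zero => simp [h.one]
  | succ n ih =>
    rw [pow_succ, h, ih, map_pow]
    cases n with
    | zero => simp
    | succ n => simp only [Nat.add_sub_cancel]; push_cast; ring

/-- an additive map applied to the coefficients -/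
def cm (d : R →+ R) : R[X] →+ R[X] where
  toFun Q := Q.sum fun n a => monomial n (d a)
  map_zero' := by simp
  map_add' p q := sum_add_index p q _ (by simp) (by simp)

theorem cm_monomial (d : R →+ R) (n : ℕ) (a : R) : cm d (monomial n a) = monomial n (d a) :=
  sum_monomial_index a (fun n a => monomial n (d a)) (by simp)

theorem cm_zero (Q : R[X]) : cm 0 Q = 0 := by
  induction Q using Polynomial.induction_on' with
  | add p q hp hq => rw [map_add, hp, hq, add_zero]
  | monomial n a => simp [cm_monomial]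

theorem chain {g : K →+* S} {δ : K →+ S} (h : LbO g δ) (e : R →+* K) (d : R →+ R)
    (hd : ∀ r, δ (e r) = g (e (d r))) (f : K) (Q : R[X]) :
    δ (eval₂ e f Q) = g (eval₂ e f (cm d Q)) + g (eval₂ e f (derivative Q)) * δ f := by
  induction Q using Polynomial.induction_on' with
  | add p q hp hq => simp only [eval₂_add, map_add, hp, hq]; ring
  | monomial n a =>
    rw [cm_monomial, derivative_monomial, eval₂_monomial, eval₂_monomial, eval₂_monomial, h, h.pow,
      hd]
    simp only [map_mul, map_pow, map_natCast]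
    ring

theorem chain0 {g : K →+* S} {δ : K →+ S} (h : LbO g δ) (e : R →+* K) (hd : ∀ r, δ (e r) = 0)
    (f : K) (Q : R[X]) : δ (eval₂ e f Q) = g (eval₂ e f (derivative Q)) * δ f := by
  rw [chain h e 0 (by simpa using hd), cm_zero]; simp

/-- a derivation detects transcendence -/
theorem inj_of_der [IsDomain R] [CharZero R] {δ : K →+ K} (h : Lb δ) (e : R →+* K)
    (he : Function.Injective e) (hd : ∀ r, δ (e r) = 0) (f : K) (hf : ∀ r, r * δ f = 0 → r = 0) :
    Function.Injective (eval₂RingHom e f) := by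
  refine (injective_iff_map_eq_zero _).2 fun Q => ?_
  induction hn : Q.natDegree using Nat.strong_induction_on generalizing Q with
  | _ n ih =>
    intro hQ
    rw [coe_eval₂RingHom] at hQ
    by_cases h0 : Q.natDegree = 0
    · rw [eq_C_of_natDegree_eq_zero h0] at hQ ⊢
      rw [eval₂_C] at hQ
      rw [he (hQ.trans e.map_zero.symm), map_zero]
    · have h1 := chain0 (g := RingHom.id K) h e hd f Q
      rw [hQ, map_zero] at h1
      exact absurd (derivative_eq_zero.1
        (ih _ (hn ▸ natDegree_derivative_lt h0) _ rfl (hf _ h1.symm))) h0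

end Der

/-- a derivation that vanishes on the base vanishes on an algebraic extension -/
theorem der_alg {F K S : Type} [Field F] [CharZero F] [Field K] [Algebra F K]
    [Algebra.IsAlgebraic F K] [CommRing S] [IsDomain S] {g : K →+* S} {δ : K →+ S} (h : LbO g δ)
    (h0 : ∀ r, δ (algebraMap F K r) = 0) (z : K) : δ z = 0 := by
  have hz : IsIntegral F z := (Algebra.IsAlgebraic.isAlgebraic z).isIntegral
  have h1 := chain0 h _ h0 z (minpoly F z)
  rw [← aeval_def, ← aeval_def, minpoly.aeval, map_zero] at h1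
  exact (mul_eq_zero.1 h1.symm).resolve_left ((_root_.map_ne_zero g).2
    ((minpoly.irreducible hz).separable.aeval_derivative_ne_zero (minpoly.aeval F z)))

/-! ### Laurent series -/

section Lau

variable {k : Type} [Field k]

/-- Laurent series -/
abbrev LS (k : Type) [Field k] : Type := HahnSeries ℤ k

/-- operators that act on each coefficient -/
def cw (τ : ℤ → k →+ k) : LS k →+ LS k where
  toFun x := ⟨fun n => τ n (x.coeff n), x.isPWO_support.mono fun n hn h => hn (by simp [h])⟩
  map_zero' := by ext; simp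
  map_add' x y := by ext; simp

theorem cw_coeff (τ : ℤ → k →+ k) (x : LS k) (n : ℤ) : (cw τ x).coeff n = τ n (x.coeff n) := rfl

theorem cw_supp (τ : ℤ → k →+ k) (x : LS k) : (cw τ x).support ⊆ x.support :=
  fun n hn h => hn (by simp [cw_coeff, h])

theorem cw_single (τ : ℤ → k →+ k) (n : ℤ) (c : k) : cw τ (single n c) = single n (τ n c) := by
  ext m
  by_cases h : m = n
  · simp [cw_coeff, h]
  · simp [cw_coeff, coeff_single_of_ne h]

theorem cw_lb {τ : ℤ → k →+ k} (h : ∀ i j a b, τ (i + j) (a * b) = τ i a * b + a * τ j b) :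
    Lb (cw τ) := by
  intro x y
  ext n
  rw [HahnSeries.coeff_add, coeff_mul_left' x.isPWO_support (cw_supp τ x),
    coeff_mul_right' y.isPWO_support (cw_supp τ y), cw_coeff, HahnSeries.coeff_mul, map_sum,
    ← Finset.sum_add_distrib]
  refine Finset.sum_congr rfl fun ij hij => ?_
  rw [cw_coeff, cw_coeff, ← (Finset.mem_antidiagonal.1 hij).2.2, h]

/-- the operator `X d/dX` -/
def th : LS k →+ LS k := cw fun n => AddMonoidHom.mulLeft (n : k)

theorem th_coeff (x : LS k) (n : ℤ) : (th x).coeff n = n * x.coeff n := rfl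

theorem th_lb : Lb (th : LS k →+ LS k) := cw_lb fun i j a b => by simp; ring

theorem th_single (n : ℤ) (c : k) : th (single n c) = single n (n * c) := cw_single _ n c

/-- the substitution `X -> z X` -/
def tw (z : k) (hz : z ≠ 0) : LS k →+* LS k where
  toFun := cw fun n => AddMonoidHom.mulLeft (z ^ n)
  map_zero' := map_zero _
  map_add' := map_add _
  map_one' := by rw [← single_zero_one, cw_single]; simp
  map_mul' x y := by
    ext n
    rw [coeff_mul_left' x.isPWO_support (cw_supp _ x), cw_coeff, HahnSeries.coeff_mul, map_sum,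
      ← coeff_mul_left' x.isPWO_support (cw_supp _ x),
      coeff_mul_right' y.isPWO_support (cw_supp _ y)]
    symm
    refine (Finset.sum_subset (s₂ := Finset.antidiagonal x.isPWO_support y.isPWO_support n)
      (Finset.antidiagonal_mono_left (cw_supp _ x)) fun ij hij h => ?_).trans
      (Finset.sum_congr rfl fun ij hij => ?_)
    · obtain ⟨-, b, c⟩ := Finset.mem_antidiagonal.1 hij
      by_contra hc
      exact h (Finset.mem_antidiagonal.2 ⟨left_ne_zero_of_mul hc, b, c⟩)
    · rw [cw_coeff, cw_coeff, ← (Finset.mem_antidiagonal.1 hij).2.2]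
      simp [zpow_add₀ hz]; ring

theorem tw_coeff (z : k) (hz : z ≠ 0) (x : LS k) (n : ℤ) :
    (tw z hz x).coeff n = z ^ n * x.coeff n := rfl

theorem tw_single (z : k) (hz : z ≠ 0) (n : ℤ) (c : k) :
    tw z hz (single n c) = single n (z ^ n * c) := cw_single _ n c

/-- no terms below `n`, and the coefficient `c` at `n` -/
def Ld (s : LS k) (n : ℤ) (c : k) : Prop := (∀ m < n, s.coeff m = 0) ∧ s.coeff n = c

variable {s s' : LS k} {n n' : ℤ} {c c' : k}

theorem Ld.add (h : Ld s n c) (h' : Ld s' n c') : Ld (s + s') n (c + c') :=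
  ⟨fun m hm => by simp [h.1 m hm, h'.1 m hm], by simp [h.2, h'.2]⟩

theorem Ld.weak (h : Ld s n c) (hn : n' < n) : Ld s n' 0 :=
  ⟨fun m hm => h.1 m (hm.trans hn), h.1 _ hn⟩

theorem Ld.cast (h : Ld s n c) (hn : n = n') (hc : c = c') : Ld s n' c' := hn ▸ hc ▸ h

theorem Ld.mul (h : Ld s n c) (h' : Ld s' n' c') : Ld (s * s') (n + n') (c * c') := by
  have key : ∀ {m} {ij : ℤ × ℤ}, ij ∈ Finset.antidiagonal s.isPWO_support s'.isPWO_support m →
      n ≤ ij.1 ∧ n' ≤ ij.2 ∧ ij.1 + ij.2 = m := fun hij => by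
    obtain ⟨a, b, e⟩ := Finset.mem_antidiagonal.1 hij
    exact ⟨not_lt.1 fun q => a (h.1 _ q), not_lt.1 fun q => b (h'.1 _ q), e⟩
  refine ⟨fun m hm => ?_, ?_⟩
  · rw [HahnSeries.coeff_mul]
    exact Finset.sum_eq_zero fun ij hij => by have := key hij; omega
  · rw [HahnSeries.coeff_mul, Finset.sum_eq_single (n, n'), h.2, h'.2]
    · intro ij hij hne
      have := key hij
      exact absurd (Prod.ext (by simp only; omega) (by simp only; omega)) hne
    · intro hh
      by_contra hc
      exact hh (Finset.mem_antidiagonal.2 ⟨left_ne_zero_of_mul hc, right_ne_zero_of_mul hc, rfl⟩)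

theorem ld_single (n : ℤ) (c : k) : Ld (single n c) n c :=
  ⟨fun _ hm => coeff_single_of_ne hm.ne, coeff_single_same _ _⟩

theorem Ld.pow (h : Ld s n c) (j : ℕ) : Ld (s ^ j) (j * n) (c ^ j) := by
  induction j with
  | zero => simpa using ld_single (0 : ℤ) (1 : k)
  | succ j ih => rw [pow_succ]; exact (ih.mul h).cast (by push_cast; ring) (pow_succ _ _).symm

theorem Ld.cw (h : Ld s n c) (τ : ℤ → k →+ k) : Ld (cw τ s) n (τ n c) :=
  ⟨fun m hm => by rw [cw_coeff, h.1 m hm, map_zero], by rw [cw_coeff, h.2]⟩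

theorem ld_order (s : LS k) : Ld s s.order (s.coeff s.order) :=
  ⟨fun _ hm => coeff_eq_zero_of_lt_order hm, rfl⟩

theorem exists_ld (hs : s ≠ 0) : ∃ n c, c ≠ 0 ∧ Ld s n c :=
  ⟨_, _, fun h => hs (coeff_order_eq_zero.1 h), ld_order s⟩

theorem Ld.le (h : Ld s n c) (h' : Ld s n' c') (hc : c ≠ 0) : n' ≤ n :=
  not_lt.1 fun q => hc (h.2 ▸ h'.1 n q)

theorem Ld.uniq (h : Ld s n c) (h' : Ld s n' c') (hc : c ≠ 0) (hc' : c' ≠ 0) : n = n' :=
  le_antisymm (h'.le h hc') (h.le h' hc)

theorem Ld.zero (h : Ld (0 : LS k) n c) : c = 0 := h.2.symm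

theorem Ld.prod {ι : Type} (T : Finset ι) {f : ι → LS k} (h : ∀ i, ∃ c, Ld (f i) n c) :
    ∃ c, Ld (∏ i ∈ T, f i) (T.card * n) c := by
  classical
  induction T using Finset.induction_on with
  | empty => exact ⟨1, by simpa using ld_single (0 : ℤ) (1 : k)⟩
  | insert a T ha ih =>
    obtain ⟨c, hc⟩ := ih
    obtain ⟨c', hc'⟩ := h a
    rw [Finset.prod_insert ha, Finset.card_insert_of_notMem ha]
    exact ⟨_, (hc'.mul hc).cast (by push_cast; ring) rfl⟩

/-- evaluation of polynomials at `a + X ^ M` -/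
def pe (a : k) (M : ℤ) : k[X] →+* LS k := eval₂RingHom HahnSeries.C (HahnSeries.C a + single M 1)

variable {a : k} {M : ℤ}

theorem pe_C (c : k) : pe a M (Polynomial.C c) = single 0 c := eval₂_C _ _

theorem pe_X : pe a M X = single 0 a + single M 1 := eval₂_X _ _

theorem pe_sub : pe a M (X - Polynomial.C a) = single M 1 := by rw [map_sub, pe_X, pe_C]; ring

theorem ld_pe (hM : 0 < M) (p : k[X]) : Ld (pe a M p) 0 (p.eval a) := by
  induction p using Polynomial.induction_on with
  | C c => rw [pe_C, eval_C]; exact ld_single 0 c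
  | add p q hp hq => rw [map_add, eval_add]; exact hp.add hq
  | monomial n c h =>
    rw [pow_succ, ← mul_assoc, map_mul, eval_mul, eval_X, pe_X]
    exact (h.mul ((ld_single 0 a).add ((ld_single M 1).weak hM))).cast (by simp) (by simp)

theorem ld_pe_root (hM : 0 < M) {p : k[X]} (hp : p.eval a = 0) :
    Ld (pe a M p) M ((derivative p).eval a) := by
  obtain ⟨q, rfl⟩ := dvd_iff_isRoot.2 hp
  rw [map_mul, pe_sub]
  exact ((ld_single M 1).mul (ld_pe hM q)).cast (by simp) (by simp [derivative_mul])

theorem ld_pe_mult (hM : 0 < M) {p : k[X]} (hp : p ≠ 0) :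
    ∃ c, c ≠ 0 ∧ Ld (pe a M p) (rootMultiplicity a p * M) c := by
  obtain ⟨q, h1, h2⟩ := exists_eq_pow_rootMultiplicity_mul_and_not_dvd p hp a
  refine ⟨q.eval a, fun h => h2 (dvd_iff_isRoot.2 h), ?_⟩
  have := ((ld_single M (1 : k)).pow (rootMultiplicity a p)).mul (ld_pe (a := a) hM q)
  rw [← pe_sub (a := a), ← map_pow, ← map_mul, ← h1] at this
  exact this.cast (by simp) (by simp)

theorem ld_pe_inf (hM : M < 0) {p : k[X]} {N : ℕ} (hp : p.natDegree ≤ N) :
    Ld (pe 0 M p) (N * M) (p.coeff N) := by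
  have e : pe 0 M p = ∑ i ∈ Finset.range (N + 1), single (i * M) (p.coeff i) := by
    rw [pe, coe_eval₂RingHom, eval₂_eq_sum_range' _ (Nat.lt_succ_of_le hp)]
    refine Finset.sum_congr rfl fun i _ => ?_
    simp [HahnSeries.C_apply, single_pow, single_mul_single]
  rw [e, Finset.sum_range_succ]
  have : ∀ j ≤ N, Ld (∑ i ∈ Finset.range j, single ((i : ℤ) * M) (p.coeff i)) (N * M) 0 := by
    intro j
    induction j with
    | zero => exact fun _ => ⟨fun _ _ => rfl, rfl⟩
    | succ j ih =>
      intro hj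
      rw [Finset.sum_range_succ]
      have : (j : ℤ) < N := by exact_mod_cast hj
      exact ((ih (by omega)).add ((ld_single _ _).weak (by nlinarith))).cast rfl (add_zero _)
  exact ((this N le_rfl).add (ld_single _ _)).cast rfl (zero_add _)

theorem pe_inj (h : 0 < M ∨ (a = 0 ∧ M < 0)) : Function.Injective (pe a M) := by
  refine (injective_iff_map_eq_zero _).2 fun p hp => by_contra fun h0 => ?_
  rcases h with h | ⟨rfl, h⟩
  · obtain ⟨c, h1, h2⟩ := ld_pe_mult (a := a) h h0
    exact h1 (hp ▸ h2).zero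
  · exact leadingCoeff_ne_zero.2 h0 (hp ▸ ld_pe_inf h (le_refl p.natDegree)).zero

end Lau

end Pool.Agent.MP_c4844d_an.Tr

end
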