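import Mathlib.FieldTheory.RatFunc.AsPolynomial
import Mathlib.FieldTheory.Galois.Basic
import Mathlib.Analysis.Complex.Polynomial.Basic
import Mathlib.RingTheory.RootsOfUnity.Complex
import Pool.Agent.MP_c4844d_an.tr.Lau

/-! Local expansions of algebraic functions of one variable; the fourth-order equation. -/

noncomputable section

namespace Pool.Agent.MP_c4844d_an.Tr

open Polynomial HahnSeries

/-- rational functions -/
abbrev F0 : Type := RatFunc ℂ

/-- polynomials in an extension of the rational functions -/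
def tp (K : Type) [Field K] [Algebra F0 K] : ℂ[X] →+* K :=
  (algebraMap F0 K).comp (algebraMap ℂ[X] F0)

variable {K : Type} [Field K] [Algebra F0 K]

theorem tp_inj : Function.Injective (tp K) :=
  (algebraMap F0 K).injective.comp (IsFractionRing.injective ℂ[X] F0)

theorem tp_ne {p : ℂ[X]} (hp : p ≠ 0) : tp K p ≠ 0 := (map_ne_zero_iff _ tp_inj).2 hp

theorem tp_frac (r : F0) : algebraMap F0 K r * tp K r.denom = tp K r.num := by
  have h : algebraMap ℂ[X] F0 r.denom ≠ 0 := RatFunc.algebraMap_ne_zero r.denom_ne_zero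
  simp only [tp, RingHom.comp_apply]
  rw [← map_mul, ← (div_eq_iff h).1 r.num_div_denom]

theorem der_rat [Algebra.IsAlgebraic F0 K] {S : Type} [Field S] {g : K →+* S} {δ : K →+ S}
    (h : LbO g δ) (h0 : ∀ p, δ (tp K p) = 0) (z : K) : δ z = 0 := by
  refine der_alg (F := F0) h (fun r => ?_) z
  have := h (algebraMap F0 K r) (tp K r.denom)
  rw [tp_frac, h0, h0, mul_zero, add_zero] at this
  exact (mul_eq_zero.1 this.symm).resolve_right ((_root_.map_ne_zero g).2 (tp_ne r.denom_ne_zero))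

/-- the derivative with respect to the variable -/
structure Dt (D : K →+ K) : Prop where
  lb : Lb D
  pol : ∀ p, D (tp K p) = tp K (derivative p)

theorem tp_eq (p : ℂ[X]) : tp K p = eval₂ ((tp K).comp Polynomial.C) (tp K X) p := by
  rw [← hom_eval₂, eval₂_C_X]

theorem algebraMap_tp [Algebra ℂ K] [IsScalarTower ℂ F0 K] (c : ℂ) :
    algebraMap ℂ K c = tp K (Polynomial.C c) := by
  rw [IsScalarTower.algebraMap_apply ℂ F0 K, IsScalarTower.algebraMap_apply ℂ ℂ[X] F0]; rfl

theorem exists_Dt [Algebra ℂ K] [IsScalarTower ℂ F0 K] : ∃ D : K →+ K, Dt D := by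
  have ht : Transcendental ℂ (tp K X) := by
    rw [transcendental_iff]
    intro p hp
    refine tp_inj (K := K) ?_
    rw [map_zero, ← hp, tp_eq, aeval_def]
    congr 1
    ext c; simp [algebraMap_tp]
  obtain ⟨δ, h⟩ := derext_one _ ht 1
  have lb : Lb δ.toLinearMap.toAddMonoidHom := fun a b => by
    change δ (a * b) = δ a * b + a * δ b
    rw [δ.leibniz, smul_eq_mul, smul_eq_mul]; ring
  refine ⟨_, lb, fun p => ?_⟩
  rw [tp_eq, chain0 (g := RingHom.id K) lb _ (fun c => by
    rw [RingHom.comp_apply, ← algebraMap_tp]; exact δ.map_algebraMap c), ← tp_eq]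
  change _ * δ _ = _
  rw [h, mul_one]; rfl

/-- an expansion at the point `a`, or at infinity if `M` is negative -/
structure Emb (a : ℂ) (M : ℤ) (ι : K →+* LS ℂ) : Prop where
  loc : 0 < M ∨ (a = 0 ∧ M < 0)
  pol : ∀ p, ι (tp K p) = pe a M p

variable {D : K →+ K} {a : ℂ} {M : ℤ} {ι : K →+* LS ℂ}

theorem Emb.ne (h : Emb a M ι) : (M : ℂ) ≠ 0 := by
  have := h.loc
  exact_mod_cast (by omega : M ≠ 0)

theorem Emb.comp (h : Emb a M ι) (g : K ≃ₐ[F0] K) : Emb a M (ι.comp (g : K →+* K)) :=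
  ⟨h.loc, fun p => by rw [← h.pol]; exact congrArg ι (g.commutes _)⟩

theorem exists_emb [FiniteDimensional F0 K] (a : ℂ) {ε : ℤ} (h : ε = 1 ∨ (a = 0 ∧ ε = -1)) :
    ∃ (n : ℕ) (ι : K →+* LS ℂ), 0 < n ∧ Emb a (n * ε) ι := by
  have hl : 0 < ε ∨ (a = 0 ∧ ε < 0) := h.imp (by omega) fun h => ⟨h.1, by omega⟩
  obtain ⟨n, hn, ι, hι⟩ := exists_extension (L := K) (IsFractionRing.lift (K := F0) (pe_inj hl))
  have n0 : (0 : ℤ) < n := by omega
  refine ⟨n, ι, by omega, hl.imp (mul_pos n0) fun h => ⟨h.1, mul_neg_of_pos_of_neg n0 h.2⟩,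
    fun p => ?_⟩
  rw [tp, RingHom.comp_apply, hι, IsFractionRing.lift_algebraMap]
  refine RingHom.congr_fun (f := (expandL n hn).comp (pe a ε)) (Polynomial.ringHom_ext
    (fun c => ?_) ?_) p
  · rw [RingHom.comp_apply, pe_C, pe_C]; exact expandL_C n hn c
  · rw [RingHom.comp_apply, pe_X, pe_X, map_add]
    congr 1
    · exact expandL_C n hn a
    rcases h with rfl | ⟨-, rfl⟩
    · rw [expandL_single_one, mul_one]
    · have e : ∀ m : ℤ, (single (-m) 1 : LS ℂ) = (single m 1)⁻¹ := fun m =>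
        eq_inv_of_mul_eq_one_left (by rw [single_mul_single]; simp)
      rw [e 1, map_inv₀, expandL_single_one, ← e, mul_neg_one]

variable [Algebra.IsAlgebraic F0 K]

theorem Emb.der (h : Emb a M ι) (hD : Dt D) (x : K) :
    ι (D x) = single (-M) (M : ℂ)⁻¹ * th (ι x) := by
  refine sub_eq_zero.1 (der_rat (g := ι) (δ := ι.toAddMonoidHom.comp D -
    (AddMonoidHom.mulLeft (single (-M) (M : ℂ)⁻¹)).comp (th.comp ι.toAddMonoidHom))
    (fun u v => ?_) (fun p => ?_) x)
  · simp only [AddMonoidHom.sub_apply, AddMonoidHom.comp_apply, RingHom.toAddMonoidHom_eq_coe,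
      AddMonoidHom.coe_coe, AddMonoidHom.coe_mulLeft, hD.lb u v, map_mul, map_add, th_lb (ι u)]
    ring
  · have e := chain0 (g := RingHom.id _) th_lb (HahnSeries.C : ℂ →+* LS ℂ)
      (fun c => by rw [HahnSeries.C_apply, th_single]; simp) (HahnSeries.C a + single M 1) p
    simp only [AddMonoidHom.sub_apply, AddMonoidHom.comp_apply, RingHom.toAddMonoidHom_eq_coe,
      AddMonoidHom.coe_coe, AddMonoidHom.coe_mulLeft, hD.pol, h.pol]
    rw [pe, coe_eval₂RingHom, e, map_add, HahnSeries.C_apply, th_single, th_single, mul_left_comm,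
      mul_add, single_mul_single, single_mul_single]
    simp [h.ne]

theorem Dt.gal (hD : Dt D) (g : K ≃ₐ[F0] K) (x : K) : g (D x) = D (g x) := by
  refine sub_eq_zero.1 (der_rat (g := (g : K →+* K)) (δ := (g : K →+* K).toAddMonoidHom.comp D -
    D.comp (g : K →+* K).toAddMonoidHom) (fun u v => ?_) (fun p => ?_) x)
  · simp only [AddMonoidHom.sub_apply, AddMonoidHom.comp_apply, RingHom.toAddMonoidHom_eq_coe,
      AddMonoidHom.coe_coe, hD.lb u v, map_mul, map_add, hD.lb ((g : K →+* K) u)]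
    ring
  · have e : ∀ p, (g : K →+* K) (tp K p) = tp K p := fun p => g.commutes _
    simp only [AddMonoidHom.sub_apply, AddMonoidHom.comp_apply, RingHom.toAddMonoidHom_eq_coe,
      AddMonoidHom.coe_coe, hD.pol, e, sub_self]

theorem Emb.coeff_der (h : Emb a M ι) (hD : Dt D) (x : K) (n : ℤ) :
    (ι (D x)).coeff (n - M) = n / M * (ι x).coeff n := by
  rw [h.der hD, coeff_single_mul, th_coeff, sub_neg_eq_add, sub_add_cancel]; ring

theorem Emb.ld_der (h : Emb a M ι) (hD : Dt D) {x : K} {n : ℤ} {c : ℂ} (hx : Ld (ι x) n c) :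
    Ld (ι (D x)) (n - M) (n / M * c) :=
  ⟨fun m hm => by rw [← add_sub_cancel_right m M, h.coeff_der hD, hx.1 _ (by omega), mul_zero],
    by rw [h.coeff_der hD, hx.2]⟩

omit [Algebra.IsAlgebraic F0 K] in
theorem Emb.exists_tw [Normal F0 K] (h : Emb a M ι) {z : ℂ} (hz : z ≠ 0) (h1 : z ^ M = 1) :
    ∃ g : K ≃ₐ[F0] K, ∀ x, ι (g x) = tw z hz (ι x) := by
  have e : ((tw z hz).comp ι).comp (algebraMap F0 K) = ι.comp (algebraMap F0 K) := by
    refine IsLocalization.ringHom_ext (nonZeroDivisors ℂ[X]) (RingHom.ext fun p => ?_)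
    change tw z hz (ι (tp K p)) = ι (tp K p)
    rw [h.pol]
    refine RingHom.congr_fun (f := (tw z hz).comp (pe a M)) (Polynomial.ringHom_ext
      (fun c => ?_) ?_) p
    · rw [RingHom.comp_apply, pe_C, tw_single]; simp
    · rw [RingHom.comp_apply, pe_X, map_add, tw_single, tw_single, h1]; simp
  let _ : Algebra K (LS ℂ) := ι.toAlgebra
  let _ : Algebra F0 (LS ℂ) := (ι.comp (algebraMap F0 K)).toAlgebra
  have : IsScalarTower F0 K (LS ℂ) := IsScalarTower.of_algebraMap_eq fun _ => rfl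
  let φ : K →ₐ[F0] LS ℂ := { (tw z hz).comp ι with commutes' := fun r => RingHom.congr_fun e r }
  exact ⟨φ.restrictNormal' K, fun x => φ.restrictNormal_commutes K x⟩

/-! ### the equation -/

/-- the form whose zeros are the vertices of the cube -/
def pW : ℂ[X] := X ^ 8 + Polynomial.C 14 * X ^ 4 + 1
/-- coefficient of the third derivative -/
def p3 (κ : ℂ) : ℂ[X] := Polynomial.C (12 + 8 * κ) * X ^ 7 + Polynomial.C (84 + 56 * κ) * X ^ 3
/-- coefficient of the second derivative -/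
def p2 (κ : ℂ) : ℂ[X] := Polynomial.C (36 + 60 * κ + 24 * κ ^ 2) * X ^ 6 +
  Polynomial.C (108 + 180 * κ + 72 * κ ^ 2) * X ^ 2
/-- coefficient of the first derivative -/
def p1 (κ : ℂ) : ℂ[X] := Polynomial.C (24 + 88 * κ + 96 * κ ^ 2 + 32 * κ ^ 3) * X ^ 5 +
  Polynomial.C (24 + 88 * κ + 96 * κ ^ 2 + 32 * κ ^ 3) * X
/-- coefficient of the function -/
def p0 (κ η : ℂ) : ℂ[X] := Polynomial.C (12 * κ + 44 * κ ^ 2 + 48 * κ ^ 3 + 16 * κ ^ 4) * X ^ 4 +
  Polynomial.C (4 * κ + 12 * κ ^ 2 + 8 * κ ^ 4 - 8 * η)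

/-- the fourth-order operator -/
def ode (D : K →+ K) (κ η : ℂ) (x : K) : K :=
  tp K pW * D (D (D (D x))) + tp K (p3 κ) * D (D (D x)) + tp K (p2 κ) * D (D x) +
    tp K (p1 κ) * D x + tp K (p0 κ η) * x

theorem pW_deg : pW.natDegree = 8 := by unfold pW; compute_degree!

theorem pW_ne : pW ≠ 0 := fun h => by simpa [h] using pW_deg

theorem pW_simple (h : pW.eval a = 0) : (derivative pW).eval a ≠ 0 := by
  intro h'
  simp [pW] at h h'
  have : (1 : ℂ) = 0 := by
    linear_combination (1 + 7 / 48 * a ^ 4) * h - (7 / 384 * a ^ 5 + 97 / 384 * a) * h'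
  exact one_ne_zero this

variable {ρ : ℚ} {η : ℂ} {x : K} {n : ℤ} {c : ℂ}

theorem Emb.ind_fin (h : Emb a M ι) (hD : Dt D) (hM : 0 < M) (hx : ode D (3 / 2 - ρ) η x = 0)
    (hl : Ld (ι x) n c) (hc : c ≠ 0) :
    (∃ j : ℕ, j < 4 ∧ n = j * M) ∨ (pW.eval a = 0 ∧ (n : ℚ) = ρ * M) := by
  have l1 := h.ld_der hD hl
  have l2 := h.ld_der hD l1
  have l3 := h.ld_der hD l2
  have l4 := h.ld_der hD l3
  have e := congrArg ι hx
  have M0 := h.ne
  simp only [ode, map_add, map_mul, h.pol, map_zero] at e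
  have t2 := (ld_pe (a := a) hM (p2 (3 / 2 - ρ))).mul l2
  have t1 := (ld_pe (a := a) hM (p1 (3 / 2 - ρ))).mul l1
  have t0 := (ld_pe (a := a) hM (p0 (3 / 2 - ρ) η)).mul hl
  have t3 := (ld_pe (a := a) hM (p3 (3 / 2 - ρ))).mul l3
  have key : ∀ j : ℕ, j < 4 → (n : ℂ) - j * M = 0 → ∃ j : ℕ, j < 4 ∧ n = j * M := fun j hj q =>
    ⟨j, hj, by exact_mod_cast sub_eq_zero.1 q⟩
  by_cases hW : pW.eval a = 0
  · have t4 := ((ld_pe_root hM hW).mul l4).cast (n' := 0 + (n - M - M - M)) (by ring) rfl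
    have z := (e ▸ (((t4.add t3).add (t2.weak (by omega))).add (t1.weak (by omega))).add
      (t0.weak (by omega))).zero
    have z' : (derivative pW).eval a * c * ((n - 0 * M) * ((n - 1 * M) * ((n - 2 * M) *
        (n - ρ * M)))) = 0 := by
      have : (p3 (3 / 2 - ρ)).eval a = (3 - ρ) * (derivative pW).eval a := by
        simp [p3, pW]; ring
      rw [this] at z
      push_cast at z
      field_simp at z
      linear_combination z
    simp only [mul_eq_zero, pW_simple hW, hc, or_self, false_or] at z'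
    rcases z' with q | q | q | q
    · exact Or.inl (key 0 (by norm_num) (by simpa using q))
    · exact Or.inl (key 1 (by norm_num) (by simpa using q))
    · exact Or.inl (key 2 (by norm_num) (by simpa using q))
    · exact Or.inr ⟨hW, by exact_mod_cast sub_eq_zero.1 q⟩
  · have t4 := (ld_pe (a := a) hM pW).mul l4
    have z := (e ▸ (((t4.add (t3.weak (by omega))).add (t2.weak (by omega))).add
      (t1.weak (by omega))).add (t0.weak (by omega))).zero
    have z' : pW.eval a * c * ((n - 0 * M) * ((n - 1 * M) * ((n - 2 * M) * (n - 3 * M)))) = 0 := by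
      push_cast at z
      field_simp at z
      linear_combination z
    simp only [mul_eq_zero, hW, hc, or_self, false_or] at z'
    rcases z' with q | q | q | q
    · exact Or.inl (key 0 (by norm_num) (by simpa using q))
    · exact Or.inl (key 1 (by norm_num) (by simpa using q))
    · exact Or.inl (key 2 (by norm_num) (by simpa using q))
    · exact Or.inl (key 3 (by norm_num) (by simpa using q))

theorem Emb.ind_inf (h : Emb 0 M ι) (hD : Dt D) (hM : M < 0) (hx : ode D (3 / 2 - ρ) η x = 0)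
    (hl : Ld (ι x) n c) (hc : c ≠ 0) : ∃ j : ℕ, (n : ℚ) = (2 * ρ - 3 - j) * M := by
  have l1 := h.ld_der hD hl
  have l2 := h.ld_der hD l1
  have l3 := h.ld_der hD l2
  have l4 := h.ld_der hD l3
  have e := congrArg ι hx
  have M0 := h.ne
  simp only [ode, map_add, map_mul, h.pol, map_zero] at e
  have t4 := ((ld_pe_inf hM pW_deg.le).mul l4).cast (n' := n + 4 * M) (by push_cast; ring) rfl
  have t3 := ((ld_pe_inf (p := p3 (3 / 2 - ρ)) (N := 7) hM (by unfold p3; compute_degree)).mul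
    l3).cast (n' := n + 4 * M) (by push_cast; ring) rfl
  have t2 := ((ld_pe_inf (p := p2 (3 / 2 - ρ)) (N := 6) hM (by unfold p2; compute_degree)).mul
    l2).cast (n' := n + 4 * M) (by push_cast; ring) rfl
  have t1 := ((ld_pe_inf (p := p1 (3 / 2 - ρ)) (N := 5) hM (by unfold p1; compute_degree)).mul
    l1).cast (n' := n + 4 * M) (by push_cast; ring) rfl
  have t0 := ((ld_pe_inf (p := p0 (3 / 2 - ρ) η) (N := 4) hM (by unfold p0; compute_degree)).mul
    hl).cast (n' := n + 4 * M) (by push_cast; ring) rfl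
  have z := (e ▸ (((t4.add t3).add t2).add t1).add t0).zero
  have z' : c * ((n - (2 * ρ - 3 - 0) * M) * ((n - (2 * ρ - 3 - 1) * M) *
      ((n - (2 * ρ - 3 - 2) * M) * (n - (2 * ρ - 3 - 3) * M)))) = 0 := by
    simp only [pW, p3, p2, p1, p0, Polynomial.coeff_add, coeff_C_mul, coeff_X_pow, coeff_X,
      Polynomial.coeff_one, Polynomial.coeff_C] at z
    norm_num at z
    field_simp at z
    linear_combination z / 16
  simp only [mul_eq_zero, hc, false_or] at z'
  rcases z' with q | q | q | q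
  · exact ⟨0, by exact_mod_cast sub_eq_zero.1 q⟩
  · exact ⟨1, by exact_mod_cast sub_eq_zero.1 q⟩
  · exact ⟨2, by exact_mod_cast sub_eq_zero.1 q⟩
  · exact ⟨3, by exact_mod_cast sub_eq_zero.1 q⟩

end Pool.Agent.MP_c4844d_an.Tr

end
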