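import Pool.Agent.MP_c4844d_an.Weak

/-! Lower bound `77/16 < lam1` by a vector field form of Barta's inequality. -/

noncomputable section

open Filter Topology Real MeasureTheory Set

namespace Pool.Agent.MP_c4844d_an.Tr

namespace Low

/-- Barta's inequality for a vector field -/
lemma barta {V : Fin 3 → E3 → ℝ} (hV : ∀ i, ContDiffOn ℝ 1 (V i) cone) {μ : ℝ}
    (h : ∀ x ∈ Ts, rotD (axis 0) (V 0) x + V 0 x ^ 2 + (rotD (axis 1) (V 1) x + V 1 x ^ 2) +
      (rotD (axis 2) (V 2) x + V 2 x ^ 2) + μ ≤ 0) : μ ≤ lam1 := by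
  rw [lam1_eq]
  refine le_csInf RS_nonempty ?_
  rintro r ⟨f, hf, hN, rfl⟩
  rw [le_div_iff₀ hN]
  have hK : IsCompact (tsupport f ∩ Metric.closedBall (0 : E3) 1) :=
    (isCompact_closedBall 0 1).inter_left (isClosed_tsupport f)
  have df : ∀ x, DifferentiableAt ℝ f x := fun x => hf.1.differentiable one_ne_zero x
  have key : ∀ i, ∃ g, Cb g ∧ II g = 0 ∧ ∀ x ∈ Ts, g x =
      2 * f x * rotD (axis i) f x * V i x + f x * f x * rotD (axis i) (V i) x := by
    intro i
    obtain ⟨g, hg, -, g2⟩ := exists_ext (g := fun x => f x * f x * V i x)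
      ((hf.1.contDiffOn.mul hf.1.contDiffOn).mul (hV i)) hK (inter_subset_left.trans hf.2)
      fun x hx h => by
        have : x ∉ tsupport f := fun h1 => h ⟨h1, by simpa using hx.2.le⟩
        rw [image_eq_zero_of_notMem_tsupport this, zero_mul, zero_mul]
    refine ⟨rotD (axis i) g, Cb.of_continuous (continuous_rotD hg.1 _), II_rotD hg.1 hg.2 i,
      fun x hx => ?_⟩
    rw [g2 x hx, rotD_mul (f := fun y => f y * f y) ((df x).mul (df x))
      (((hV i).contDiffAt (isOpen_cone.mem_nhds hx.1)).differentiableAt one_ne_zero),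
      rotD_mul (df x) (df x)]
    ring
  obtain ⟨a, a1, a2, a3⟩ := key 0
  obtain ⟨b, b1, b2, b3⟩ := key 1
  obtain ⟨c, c1, c2, c3⟩ := key 2
  have e : II (fun x => a x + b x + c x) = 0 := by
    rw [II_add (a1.add b1) c1, II_add a1 b1, a2, b2, c2]; simp
  have cg := Cb.of_continuous (continuous_gg hf.1 hf.1)
  have cn := (hf.cb.mul hf.cb).const_mul μ
  have m := II_mono ((a1.add b1).add c1) (cg.sub cn) fun x hx => by
    have h1 := mul_nonneg (mul_self_nonneg (f x)) (neg_nonneg.2 (h x hx))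
    have h2 := sq_nonneg (rotD (axis 0) f x - f x * V 0 x)
    have h3 := sq_nonneg (rotD (axis 1) f x - f x * V 1 x)
    have h4 := sq_nonneg (rotD (axis 2) f x - f x * V 2 x)
    rw [a3 x hx, b3 x hx, c3 x hx, gg]
    linarith
  rw [e, II_sub cg cn, II_const_mul] at m
  rw [QQ, NN]
  linarith

/-- polynomial expressions in three variables -/
inductive Ex : Type
  | c : ℝ → Ex
  | X : Ex
  | Y : Ex
  | Z : Ex
  | add : Ex → Ex → Ex
  | mul : Ex → Ex → Ex

/-- evaluation -/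
def ev (x y z : ℝ) : Ex → ℝ
  | .c r => r
  | .X => x
  | .Y => y
  | .Z => z
  | .add p q => ev x y z p + ev x y z q
  | .mul p q => ev x y z p * ev x y z q

/-- the derivation with given values at the variables -/
def D (k l m : Ex) : Ex → Ex
  | .c _ => .c 0
  | .X => k
  | .Y => l
  | .Z => m
  | .add p q => .add (D k l m p) (D k l m q)
  | .mul p q => .add (.mul (D k l m p) q) (.mul p (D k l m q))

/-- the function on the space -/
def fn (p : Ex) (x : E3) : ℝ := ev (x 0) (x 1) (x 2) p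

lemma contDiff_co (i : Fin 3) : ContDiff ℝ 1 fun x : E3 => x i := by fun_prop

lemma contDiff_fn (p : Ex) : ContDiff ℝ 1 (fn p) := by
  induction p with
  | c r => exact contDiff_const
  | X => exact contDiff_co 0
  | Y => exact contDiff_co 1
  | Z => exact contDiff_co 2
  | add p q hp hq => exact hp.add hq
  | mul p q hp hq => exact hp.mul hq

lemma diff_fn (p : Ex) (x : E3) : DifferentiableAt ℝ (fn p) x :=
  (contDiff_fn p).differentiable one_ne_zero x

lemma rotD_co (n x : E3) (i : Fin 3) : rotD n (fun y : E3 => y i) x = cross n x i := by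
  have := (EuclideanSpace.proj i : E3 →L[ℝ] ℝ).fderiv (x := x)
  rw [rotD, show (fun y : E3 => y i) = (EuclideanSpace.proj i : E3 →L[ℝ] ℝ) from rfl, this]
  rfl

lemma rotD_fn {n x : E3} {k l m : Ex} (hk : fn k x = cross n x 0) (hl : fn l x = cross n x 1)
    (hm : fn m x = cross n x 2) (p : Ex) : rotD n (fn p) x = fn (D k l m p) x := by
  induction p with
  | c r =>
    rw [show fn (.c r) = fun _ => r from rfl, rotD, fderiv_fun_const]; rfl
  | X => exact (rotD_co n x 0).trans hk.symm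
  | Y => exact (rotD_co n x 1).trans hl.symm
  | Z => exact (rotD_co n x 2).trans hm.symm
  | add p q hp hq =>
    have := rotD_comb (diff_fn p x) (diff_fn q x) 1 n
    simp only [one_mul] at this
    rw [show fn (.add p q) = fun y => fn p y + fn q y from rfl, this, hp, hq]; rfl
  | mul p q hp hq =>
    rw [show fn (.mul p q) = fun y => fn p y * fn q y from rfl,
      rotD_mul (diff_fn p x) (diff_fn q x), hp, hq]; rfl

lemma rotD_q {n x : E3} {k l m : Ex} (hk : fn k x = cross n x 0) (hl : fn l x = cross n x 1)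
    (hm : fn m x = cross n x 2) (p q : Ex) (hq : fn q x ≠ 0) :
    rotD n (fun y => fn p y * (fn q y)⁻¹) x =
      fn (D k l m p) x * (fn q x)⁻¹ - fn p x * fn (D k l m q) x * ((fn q x) ^ 2)⁻¹ := by
  rw [rotD_mul (g := fun y => (fn q y)⁻¹) (diff_fn p x) ((diff_fn q x).inv hq),
    rotD_comp (P := fun t => t⁻¹) (hasDerivAt_inv hq) (diff_fn q x), rotD_fn hk hl hm,
    rotD_fn hk hl hm]
  ring

/-- the vector field component -/
def VV (k l m M S : Ex) (e : ℝ) (x : E3) : ℝ :=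
  e * (fn (D k l m S) x * (fn S x)⁻¹) + fn (D k l m M) x * (fn M x)⁻¹

lemma contDiffOn_VV (k l m : Ex) {M S : Ex} (e : ℝ) (hM : ∀ x ∈ cone, fn M x ≠ 0)
    (hS : ∀ x ∈ cone, fn S x ≠ 0) : ContDiffOn ℝ 1 (VV k l m M S e) cone :=
  (contDiffOn_const.mul ((contDiff_fn _).contDiffOn.mul ((contDiff_fn S).contDiffOn.inv hS))).add
    ((contDiff_fn _).contDiffOn.mul ((contDiff_fn M).contDiffOn.inv hM))

/-- the numerator -/
def nu (k l m M S : Ex) (e : ℝ) (x : E3) : ℝ :=
  fn S x ^ 2 * fn (D k l m (D k l m M)) x + e * fn M x * fn S x * fn (D k l m (D k l m S)) x +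
    2 * e * fn S x * fn (D k l m M) x * fn (D k l m S) x +
      (e ^ 2 - e) * fn M x * fn (D k l m S) x ^ 2

lemma rotD_VV {n x : E3} {k l m : Ex} (hk : fn k x = cross n x 0) (hl : fn l x = cross n x 1)
    (hm : fn m x = cross n x 2) {M S : Ex} (e : ℝ) (hM : fn M x ≠ 0) (hS : fn S x ≠ 0) :
    rotD n (VV k l m M S e) x + VV k l m M S e x ^ 2 =
      nu k l m M S e x / (fn M x * fn S x ^ 2) := by
  rw [show VV k l m M S e = fun y => e * (fn (D k l m S) y * (fn S y)⁻¹) +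
      fn (D k l m M) y * (fn M y)⁻¹ from rfl,
    rotD_comb (f := fun y => fn (D k l m S) y * (fn S y)⁻¹)
      (g := fun y => fn (D k l m M) y * (fn M y)⁻¹)
      ((diff_fn _ x).mul ((diff_fn S x).inv hS)) ((diff_fn _ x).mul ((diff_fn M x).inv hM)),
    rotD_q hk hl hm _ _ hS, rotD_q hk hl hm _ _ hM, nu]
  field_simp
  ring

/-- elementary symmetric expressions -/
def s1 : Ex := .add (.add .X .Y) .Z
/-- second -/
def s2 : Ex := .add (.add (.mul .X .Y) (.mul .Y .Z)) (.mul .Z .X)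
/-- third -/
def s3 : Ex := .mul (.mul .X .Y) .Z
/-- negation -/
def ng (p : Ex) : Ex := .mul (.c (-1)) p
/-- the polynomial part of the supersolution -/
def MM : Ex :=
  .add (.mul (.mul (.c 8) (.mul s2 s2)) (.add (.mul s1 s1) s2))
    (.mul (.add (.mul s1 s2) (ng s3))
      (.add (.mul s1 (.add (.mul (.c 71) (.mul s1 s1)) (.mul (.c 7) s2))) (.mul (.c (-120)) s3)))

/-- the sign polynomial in the elementary symmetric functions -/
def NP (p q r : ℝ) : ℝ :=
  1150 * p ^ 6 + 169568 * p ^ 4 * q - 19944 * p ^ 2 * q ^ 2 - 4619472 * p ^ 3 * r -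
    2666112 * q ^ 3 + 21818616 * p * q * r - 39991680 * r ^ 2

lemma NP_ord {a b c : ℝ} (h1 : b ≤ a) (h2 : c ≤ b) (h3 : 0 ≤ c) :
    0 ≤ NP (a + b + c) (a * b + b * c + c * a) (a * b * c) := by
  obtain ⟨v, hv, rfl⟩ : ∃ v, 0 ≤ v ∧ b = c + v := ⟨b - c, by linarith, by ring⟩
  obtain ⟨u, hu, rfl⟩ : ∃ u, 0 ≤ u ∧ a = c + v + u := ⟨a - (c + v), by linarith, by ring⟩
  have : NP (c + v + u + (c + v) + c) ((c + v + u) * (c + v) + (c + v) * c + c * (c + v + u))
      ((c + v + u) * (c + v) * c) =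
      93006 * c ^ 6 + 372024 * v * c ^ 5 + 1357608 * v ^ 2 * c ^ 4 + 3135888 * v ^ 3 * c ^ 3 +
      3621504 * v ^ 4 * c ^ 2 + 1603856 * v ^ 5 * c + 40800 * v ^ 6 + 186012 * u * c ^ 5 +
      1357608 * u * v * c ^ 4 + 4703832 * u * v ^ 2 * c ^ 3 + 7243008 * u * v ^ 3 * c ^ 2 +
      4009640 * u * v ^ 4 * c + 122400 * u * v ^ 5 + 892578 * u ^ 2 * c ^ 4 +
      2436792 * u ^ 2 * v * c ^ 3 + 4341816 * u ^ 2 * v ^ 2 * c ^ 2 +
      3636224 * u ^ 2 * v ^ 3 * c + 1514200 * u ^ 2 * v ^ 4 + 434424 * u ^ 3 * c ^ 3 +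
      720312 * u ^ 3 * v * c ^ 2 + 1444696 * u ^ 3 * v ^ 2 * c + 2824400 * u ^ 3 * v ^ 3 +
      34338 * u ^ 4 * c ^ 2 + 933928 * u ^ 4 * v * c + 1575168 * u ^ 4 * v ^ 2 +
      359836 * u ^ 5 * c + 183368 * u ^ 5 * v + 1150 * u ^ 6 := by
    unfold NP; ring
  rw [this]; positivity

lemma NP_nonneg {a b c : ℝ} (ha : 0 ≤ a) (hb : 0 ≤ b) (hc : 0 ≤ c) :
    0 ≤ NP (a + b + c) (a * b + b * c + c * a) (a * b * c) := by
  have sw : ∀ x y z : ℝ, NP (x + y + z) (x * y + y * z + z * x) (x * y * z) =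
      NP (y + x + z) (y * x + x * z + z * y) (y * x * z) := fun x y z => by
    congr 1 <;> ring
  have cy : ∀ x y z : ℝ, NP (x + y + z) (x * y + y * z + z * x) (x * y * z) =
      NP (y + z + x) (y * z + z * x + x * y) (y * z * x) := fun x y z => by
    congr 1 <;> ring
  rcases le_total a b with h1 | h1 <;> rcases le_total b c with h2 | h2 <;>
    rcases le_total a c with h3 | h3
  · rw [cy, sw]; exact NP_ord h2 h1 ha
  · rw [cy, sw]; exact NP_ord h2 h1 ha
  · rw [cy]; exact NP_ord h2 h3 ha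
  · rw [sw]; exact NP_ord h1 h3 hc
  · rw [cy, cy]; exact NP_ord h3 h1 hb
  · rw [sw, cy]; exact NP_ord h3 h2 hb
  · exact NP_ord h1 h2 hc
  · exact NP_ord h1 h2 hc

lemma S_pos {x : E3} (hx : x ∈ cone) : 0 < fn s1 x := by
  obtain ⟨a, b, c⟩ := hx
  simp only [fn, s1, ev]; linarith

lemma M_pos {x : E3} (hx : x ∈ cone) : 0 < fn MM x := by
  obtain ⟨ha, hb, hc⟩ := hx
  have e : ∀ a b c : ℝ, a = x 0 + x 1 → b = x 1 + x 2 → c = x 2 + x 0 → 2 * fn MM x =
      (a * b + b * c + c * a) * ((a + b + c) ^ 2 - 4 * (a * b + b * c + c * a)) ^ 2 +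
        a * b * c * ((a + b + c) * (46 * (a ^ 2 + b ^ 2 + c ^ 2) - 21 * (a * b + b * c + c * a)) +
          240 * (a * b * c)) := by
    rintro a b c rfl rfl rfl
    simp only [fn, MM, s1, s2, s3, ng, ev]; ring
  have h := e _ _ _ rfl rfl rfl
  set a := x 0 + x 1
  set b := x 1 + x 2
  set c := x 2 + x 0
  have h1 : 0 < 46 * (a ^ 2 + b ^ 2 + c ^ 2) - 21 * (a * b + b * c + c * a) := by
    nlinarith [sq_nonneg (a - b), sq_nonneg (b - c), sq_nonneg (c - a), mul_pos ha ha]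
  have h2 : 0 < (a * b + b * c + c * a) * ((a + b + c) ^ 2 - 4 * (a * b + b * c + c * a)) ^ 2 +
      a * b * c * ((a + b + c) * (46 * (a ^ 2 + b ^ 2 + c ^ 2) - 21 * (a * b + b * c + c * a)) +
        240 * (a * b * c)) := by positivity
  linarith

lemma ident (x : E3) :
    nu (.c 0) (ng .Z) .Y MM s1 (-106 / 25) x + nu .Z (.c 0) (ng .X) MM s1 (-106 / 25) x +
      nu (ng .Y) .X (.c 0) MM s1 (-106 / 25) x + 3036 / 625 * (fn MM x * fn s1 x ^ 2) =
    -((x 0 ^ 2 + x 1 ^ 2 + x 2 ^ 2) / 5000 * NP (x 0 + x 1 + (x 1 + x 2) + (x 2 + x 0))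
      ((x 0 + x 1) * (x 1 + x 2) + (x 1 + x 2) * (x 2 + x 0) + (x 2 + x 0) * (x 0 + x 1))
      ((x 0 + x 1) * (x 1 + x 2) * (x 2 + x 0))) := by
  simp only [nu, fn, NP]
  generalize x 0 = a
  generalize x 1 = b
  generalize x 2 = c
  simp only [MM, s1, s2, s3, ng, D, ev, mul_zero, zero_mul, add_zero, zero_add]
  ring

end Low

open Low in
theorem lam1_gt : (77 / 16 : ℝ) < lam1 := by
  have hM : ∀ x ∈ cone, fn MM x ≠ 0 := fun x hx => (M_pos hx).ne'
  have hS : ∀ x ∈ cone, fn s1 x ≠ 0 := fun x hx => (S_pos hx).ne'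
  have := barta (V := ![VV (.c 0) (ng .Z) .Y MM s1 (-106 / 25),
    VV .Z (.c 0) (ng .X) MM s1 (-106 / 25), VV (ng .Y) .X (.c 0) MM s1 (-106 / 25)])
    (μ := 3036 / 625) (fun i => by fin_cases i <;> exact contDiffOn_VV _ _ _ _ hM hS)
    fun x hx => by
      have m := hM x hx.1
      have s := hS x hx.1
      have p : 0 < fn MM x * fn s1 x ^ 2 := mul_pos (M_pos hx.1) (pow_pos (S_pos hx.1) 2)
      have a := rotD_VV (n := axis 0) (k := .c 0) (l := ng .Z) (m := .Y)
        (by simp [fn, Low.ev, axis]) (by simp [fn, Low.ev, ng, axis]) (by simp [fn, Low.ev, axis])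
        (-106 / 25) m s
      have b := rotD_VV (n := axis 1) (k := .Z) (l := .c 0) (m := ng .X)
        (by simp [fn, Low.ev, axis]) (by simp [fn, Low.ev, axis]) (by simp [fn, Low.ev, ng, axis])
        (-106 / 25) m s
      have c := rotD_VV (n := axis 2) (k := ng .Y) (l := .X) (m := .c 0)
        (by simp [fn, Low.ev, ng, axis]) (by simp [fn, Low.ev, axis]) (by simp [fn, Low.ev, axis])
        (-106 / 25) m s
      have d := ident x
      have f := mul_nonneg (show 0 ≤ (x 0 ^ 2 + x 1 ^ 2 + x 2 ^ 2) / 5000 by positivity)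
        (NP_nonneg hx.1.1.le hx.1.2.1.le hx.1.2.2.le)
      show rotD (axis 0) (VV (.c 0) (ng .Z) .Y MM s1 (-106 / 25)) x +
        VV (.c 0) (ng .Z) .Y MM s1 (-106 / 25) x ^ 2 +
        (rotD (axis 1) (VV .Z (.c 0) (ng .X) MM s1 (-106 / 25)) x +
          VV .Z (.c 0) (ng .X) MM s1 (-106 / 25) x ^ 2) +
        (rotD (axis 2) (VV (ng .Y) .X (.c 0) MM s1 (-106 / 25)) x +
          VV (ng .Y) .X (.c 0) MM s1 (-106 / 25) x ^ 2) + 3036 / 625 ≤ 0
      rw [a, b, c, ← add_div, ← add_div, div_add' _ _ _ p.ne']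
      exact div_nonpos_of_nonpos_of_nonneg (by linarith) p.le
  linarith

end Pool.Agent.MP_c4844d_an.Tr
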