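import Pool.Agent.MP_c4844d_an.Weak

/-! An upper bound for the first eigenvalue from an explicit subsolution. -/

noncomputable section

open Filter Topology Real MeasureTheory Set

namespace Pool.Agent.MP_c4844d_an.Tr

namespace Up

/-- classical subsolutions whose positive part vanishes on the boundary -/
structure Sub (μ : ℝ) (w : E3 → ℝ) : Prop where
  smooth : ContDiffOn ℝ 2 w cone
  sub : ∀ x ∈ Ts, -μ * w x ≤ lap w x
  bdry : ∀ ε > 0, ∃ K, IsCompact K ∧ K ⊆ cone ∧ ∀ x ∈ Ts, x ∉ K → w x < ε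
  cb : Cb w

lemma Sub.trunc {μ : ℝ} {w : E3 → ℝ} (hw : Sub μ w) {ε : ℝ} (hε : 0 < ε) {k : ℝ → ℝ}
    (hk : Step ε k) : ∃ F, Adm F ∧ (∀ x ∈ Ts, F x = PI k (w x)) ∧
      QQ F F ≤ μ * II fun x => PI (fun t => k t * k t) (w x) * w x := by
  obtain ⟨K, hK, hKc, hK0⟩ := hw.bdry ε hε
  have w1 : ContDiffOn ℝ 1 w cone := hw.smooth.of_le (by norm_num)
  have dw : ∀ x ∈ Ts, DifferentiableAt ℝ w x := fun x hx =>
    (w1.contDiffAt (isOpen_cone.mem_nhds hx.1)).differentiableAt one_ne_zero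
  obtain ⟨F, hF, F1, F2⟩ := exists_ext ((contDiff_PI hk.cont).comp_contDiffOn w1) hK hKc
    fun x hx h => hk.PI_zero hε (hK0 x hx h).le
  set H := PI fun t => k t * k t with hH
  have key : ∀ i, ∃ f, Cb f ∧ II f = 0 ∧ ∀ x ∈ Ts, f x =
      rotD (axis i) F x * rotD (axis i) F x + H (w x) * (rotD (axis i))^[2] w x := by
    intro i
    have r1 := contDiffOn_rotD hw.smooth (axis i)
    obtain ⟨f, hf, -, f2⟩ := exists_ext (g := fun x => H (w x) * rotD (axis i) w x)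
      (((contDiff_PI hk.sq.cont).comp_contDiffOn w1).mul r1) hK hKc
      fun x hx h => by rw [hH, hk.sq.PI_zero hε (hK0 x hx h).le, zero_mul]
    refine ⟨rotD (axis i) f, Cb.of_continuous (continuous_rotD hf.1 _), II_rotD hf.1 hf.2 i,
      fun x hx => ?_⟩
    have d1 := hasDerivAt_PI hk.sq.cont (w x)
    rw [f2 x hx, rotD_mul (f := fun y => H (w y)) (d1.differentiableAt.comp x (dw x hx))
      ((r1.contDiffAt (isOpen_cone.mem_nhds hx.1)).differentiableAt one_ne_zero),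
      rotD_comp d1 (dw x hx), F2 x hx,
      show (PI k ∘ w) = fun y => PI k (w y) from rfl, rotD_comp (hasDerivAt_PI hk.cont _) (dw x hx)]
    simp only [Function.iterate_succ, Function.iterate_zero, Function.comp, id]
    ring
  obtain ⟨a, a1, a2, a3⟩ := key 0
  obtain ⟨b, b1, b2, b3⟩ := key 1
  obtain ⟨c, c1, c2, c3⟩ := key 2
  refine ⟨F, hF, F1, ?_⟩
  have hc : Cb fun x => H (w x) * w x := (hw.cb.comp (contDiff_PI hk.sq.cont).continuous).mul hw.cb
  have hg := Cb.of_continuous (continuous_gg hF.1 hF.1)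
  have e : II (fun x => a x + b x + c x) = 0 := by
    rw [II_add (a1.add b1) c1, II_add a1 b1, a2, b2, c2]; simp
  have m := II_mono (hg.sub (hc.const_mul μ)) ((a1.add b1).add c1) fun x hx => by
    have := mul_le_mul_of_nonneg_left (hw.sub x hx) (hk.sq.PI_bounds hε (w x)).1
    rw [lap, Fin.sum_univ_three] at this
    rw [a3 x hx, b3 x hx, c3 x hx, gg]
    linarith
  rw [e, II_sub hg (hc.const_mul μ), II_const_mul] at m
  rw [QQ]
  linarith

lemma Sub.lam1_le {μ : ℝ} {w : E3 → ℝ} (hw : Sub μ w) (hμ : 0 ≤ μ) {x : E3} (hx : x ∈ Ts)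
    (h : 0 < w x) : lam1 ≤ μ := by
  obtain ⟨M, hM⟩ := hw.cb.2
  have cp : Cb fun x => max (w x) 0 := hw.cb.comp (P := fun t => max t 0) (by fun_prop)
  have hA : 0 < II fun x => max (w x) 0 * max (w x) 0 :=
    II_pos (cp.mul cp) (fun y _ => mul_self_nonneg _) hx (by simp [h.le, h])
  refine le_of_mul_le_mul_right (le_of_forall_pos_le_add fun δ hδ => ?_) hA
  have hl := lam1_nonneg
  set C := |lam1 * (4 * M * aT)| + 1 with hC
  have C0 : 0 < C := by positivity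
  have hε : 0 < δ / C := by positivity
  obtain ⟨k, hk⟩ := exists_step hε
  obtain ⟨F, hF, F1, F2⟩ := hw.trunc hε hk
  have q : II (fun x => PI (fun t => k t * k t) (w x) * w x) ≤
      II fun x => max (w x) 0 * max (w x) 0 :=
    II_mono ((hw.cb.comp (contDiff_PI hk.sq.cont).continuous).mul hw.cb) (cp.mul cp) fun y _ => by
      obtain ⟨a, b, -⟩ := hk.sq.PI_bounds hε (w y)
      exact (mul_le_mul_of_nonneg_left (le_max_left _ 0) a).trans
        (mul_le_mul_of_nonneg_right b (le_max_right _ _))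
  have n := II_mono ((cp.mul cp).sub (Cb.const (4 * M * (δ / C)))) (hF.cb.mul hF.cb) fun y hy => by
    obtain ⟨a, b, c⟩ := hk.PI_bounds hε (w y)
    have d : max (w y) 0 ≤ M := max_le (le_of_abs_le (hM y hy)) ((abs_nonneg _).trans (hM y hy))
    rw [F1 y hy]
    nlinarith
  rw [II_sub (cp.mul cp) (Cb.const _), II_const] at n
  have c := BB_nonneg hF
  rw [BB, NN] at c
  have e : C * (δ / C) = δ := by field_simp
  have f := mul_le_mul_of_nonneg_right (le_abs_self (lam1 * (4 * M * aT))) hε.le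
  nlinarith [mul_le_mul_of_nonneg_left n hl, mul_le_mul_of_nonneg_left q hμ]

/-- `g` is the derivative of `f` along the rotation field -/
def R (n : E3) (f g : E3 → ℝ) : Prop := ∀ x ∈ cone, DifferentiableAt ℝ f x ∧ rotD n f x = g x

variable {n : E3} {f g f' g' u v w u' v' w' u'' v'' w'' : E3 → ℝ}

lemma R.congr (h : R n f f') (e : ∀ x ∈ cone, f' x = g' x) : R n f g' :=
  fun x hx => ⟨(h x hx).1, (h x hx).2.trans (e x hx)⟩

lemma R.const (c : ℝ) : R n (fun _ => c) fun _ => 0 :=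
  fun _ _ => ⟨differentiableAt_const c, by simp [rotD]⟩

lemma R.add (hf : R n f f') (hg : R n g g') : R n (fun x => f x + g x) fun x => f' x + g' x :=
  fun x hx => ⟨(hf x hx).1.add (hg x hx).1, by
    simpa [(hf x hx).2, (hg x hx).2] using rotD_comb (hf x hx).1 (hg x hx).1 1 n⟩

lemma R.mul (hf : R n f f') (hg : R n g g') :
    R n (fun x => f x * g x) fun x => f' x * g x + f x * g' x :=
  fun x hx => ⟨(hf x hx).1.mul (hg x hx).1, by
    rw [rotD_mul (hf x hx).1 (hg x hx).1, (hf x hx).2, (hg x hx).2]⟩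

lemma R.comp {P p : ℝ → ℝ} (hf : R n f f') (hP : ∀ x ∈ cone, HasDerivAt P (p (f x)) (f x)) :
    R n (fun x => P (f x)) fun x => p (f x) * f' x :=
  fun x hx => ⟨(hP x hx).differentiableAt.comp x (hf x hx).1, by
    rw [rotD_comp (hP x hx) (hf x hx).1, (hf x hx).2]⟩

lemma R.pow (hf : R n f f') (k : ℕ) :
    R n (fun x => f x ^ k) fun x => k * f x ^ (k - 1) * f' x :=
  hf.comp (P := fun t => t ^ k) (p := fun t => k * t ^ (k - 1)) fun _ _ => hasDerivAt_pow k _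

lemma R.rpow (hf : R n f f') (h : ∀ x ∈ cone, 0 < f x) (e : ℝ) :
    R n (fun x => f x ^ e) fun x => e * f x ^ (e - 1) * f' x :=
  hf.comp (P := fun t => t ^ e) (p := fun t => e * t ^ (e - 1)) fun x hx =>
    hasDerivAt_rpow_const (Or.inl (h x hx).ne')

lemma R.two (h1 : R n f f') (h2 : R n f' g) {x : E3} (hx : x ∈ cone) :
    (rotD n)^[2] f x = g x := by
  have e : rotD n f =ᶠ[𝓝 x] f' := by
    filter_upwards [isOpen_cone.mem_nhds hx] with y hy using (h1 y hy).2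
  exact ((rotD_congr e).self_of_nhds).trans (h2 x hx).2

/-- linear forms -/
def lin (p q r : ℝ) (x : E3) : ℝ := p * x 0 + q * x 1 + r * x 2

lemma R.lin (p q r : ℝ) :
    R n (lin p q r) (lin (q * n 2 - r * n 1) (r * n 0 - p * n 2) (p * n 1 - q * n 0)) := by
  have c : ∀ i, R n (fun x => x i) fun x => cross n x i := fun i x _ =>
    ⟨by fun_prop, by
      rw [rotD, show (fun x : E3 => x i) = (EuclideanSpace.proj i : E3 →L[ℝ] ℝ) from rfl,
        ContinuousLinearMap.fderiv]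
      rfl⟩
  refine ((((R.const p).mul (c 0)).add ((R.const q).mul (c 1))).add
    ((R.const r).mul (c 2))).congr fun x _ => ?_
  simp [Up.lin, cross]
  ring

abbrev PL : Type := List (ℝ × ℕ × ℕ × ℕ)

/-- polynomials in three variables -/
def ev : PL → ℝ → ℝ → ℝ → ℝ
  | [], _, _, _ => 0
  | (c, i, j, k) :: l, a, b, d => c * (a ^ i * b ^ j * d ^ k) + ev l a b d

def d1 : PL → PL
  | [] => []
  | (c, i, j, k) :: l => (c * i, i - 1, j, k) :: d1 l

def d2 : PL → PL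
  | [] => []
  | (c, i, j, k) :: l => (c * j, i, j - 1, k) :: d2 l

def d3 : PL → PL
  | [] => []
  | (c, i, j, k) :: l => (c * k, i, j, k - 1) :: d3 l

lemma R.ev (hu : R n u u') (hv : R n v v') (hw : R n w w') (l : PL) :
    R n (fun x => ev l (u x) (v x) (w x)) fun x => ev (d1 l) (u x) (v x) (w x) * u' x +
      ev (d2 l) (u x) (v x) (w x) * v' x + ev (d3 l) (u x) (v x) (w x) * w' x := by
  induction l with
  | nil => exact (R.const 0).congr fun x _ => by simp [Up.ev, d1, d2, d3]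
  | cons t l ih =>
    obtain ⟨c, i, j, k⟩ := t
    refine (((R.const c).mul (((hu.pow i).mul (hv.pow j)).mul (hw.pow k))).add ih).congr
      fun x _ => ?_
    simp only [Up.ev, d1, d2, d3]
    ring

lemma contDiff_ev (hu : ContDiff ℝ 2 u) (hv : ContDiff ℝ 2 v) (hw : ContDiff ℝ 2 w) (l : PL) :
    ContDiff ℝ 2 fun x => ev l (u x) (v x) (w x) := by
  induction l with
  | nil => exact contDiff_const
  | cons t l ih =>
    exact (contDiff_const.mul (((hu.pow _).mul (hv.pow _)).mul (hw.pow _))).add ih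

/-- the second order expression -/
def F3 (l : PL) (e a b d g11 g12 g13 g22 g23 g33 l1 l2 l3 : ℝ) : ℝ :=
  e * (e - 1) * g11 * ev l a b d + e * a * l1 * ev l a b d +
    2 * e * a * (ev (d1 l) a b d * g11 + ev (d2 l) a b d * g12 + ev (d3 l) a b d * g13) +
    a ^ 2 * (ev (d1 l) a b d * l1 + ev (d2 l) a b d * l2 + ev (d3 l) a b d * l3 +
      ev (d1 (d1 l)) a b d * g11 + (ev (d2 (d1 l)) a b d + ev (d1 (d2 l)) a b d) * g12 +
      (ev (d3 (d1 l)) a b d + ev (d1 (d3 l)) a b d) * g13 + ev (d2 (d2 l)) a b d * g22 +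
      (ev (d3 (d2 l)) a b d + ev (d2 (d3 l)) a b d) * g23 + ev (d3 (d3 l)) a b d * g33)

lemma F3_add (l : PL) (e a b d g1 g2 g3 g4 g5 g6 g7 g8 g9 k1 k2 k3 k4 k5 k6 k7 k8 k9 : ℝ) :
    F3 l e a b d g1 g2 g3 g4 g5 g6 g7 g8 g9 + F3 l e a b d k1 k2 k3 k4 k5 k6 k7 k8 k9 =
      F3 l e a b d (g1 + k1) (g2 + k2) (g3 + k3) (g4 + k4) (g5 + k5) (g6 + k6) (g7 + k7)
        (g8 + k8) (g9 + k9) := by
  simp only [F3]
  ring

lemma ax (i j : Fin 3) : axis i j = if j = i then 1 else 0 := by simp [axis]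

lemma second (hu : R n u u') (hv : R n v v') (hw : R n w w') (ku : R n u' u'') (kv : R n v' v'')
    (kw : R n w' w'') (h : ∀ x ∈ cone, 0 < u x) (l : PL) (e : ℝ) {x : E3} (hx : x ∈ cone) :
    (rotD n)^[2] (fun x => u x ^ e * ev l (u x) (v x) (w x)) x = u x ^ (e - 1 - 1) *
      F3 l e (u x) (v x) (w x) (u' x * u' x) (u' x * v' x) (u' x * w' x) (v' x * v' x)
        (v' x * w' x) (w' x * w' x) (u'' x) (v'' x) (w'' x) := by
  have E := hu.ev hv hw
  rw [((hu.rpow h e).mul (E l)).two (((((R.const e).mul (hu.rpow h (e - 1))).mul ku).mul (E l)).add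
    ((hu.rpow h e).mul ((((E _).mul ku).add ((E _).mul kv)).add ((E _).mul kw)))) hx]
  have e1 : u x ^ (e - 1) = u x ^ (e - 1 - 1) * u x := by
    rw [← rpow_add_one (h x hx).ne', sub_add_cancel]
  have e0 : u x ^ e = u x ^ (e - 1) * u x := by
    rw [← rpow_add_one (h x hx).ne', sub_add_cancel]
  simp only [F3, e0, e1]
  ring

/-- the coefficients of the subsolution -/
def LL : PL := [(100, 9, 0, 1), (-129, 7, 1, 1), (-345, 5, 2, 1), (883, 3, 3, 1), (517, 1, 4, 1),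
  (933, 6, 0, 2), (-1295, 4, 1, 2), (-4368, 2, 2, 2), (-2823, 0, 3, 2), (9610, 3, 0, 3),
  (-11676, 1, 1, 3), (66463, 0, 0, 4)]

def GG (a b d : ℝ) : ℝ :=
  3125000 * a ^ 12 - 30725000 * a ^ 10 * b + 84959700 * a ^ 9 * d + 33927750 * a ^ 8 * b ^ 2
    - 124645668 * a ^ 7 * b * d + 417870000 * a ^ 6 * b ^ 3 + 4166551686 * a ^ 6 * d ^ 2
    - 4232173740 * a ^ 5 * b ^ 2 * d - 854136750 * a ^ 4 * b ^ 4
    - 21413236140 * a ^ 4 * b * d ^ 2 + 9901927836 * a ^ 3 * b ^ 3 * d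
    + 117831473120 * a ^ 3 * d ^ 3 - 768919500 * a ^ 2 * b ^ 5
    + 26587012794 * a ^ 2 * b ^ 2 * d ^ 2 + 16212601464 * a * b ^ 4 * d
    - 541980267392 * a * b * d ^ 3 - 60106728816 * b ^ 3 * d ^ 2 + 1415116371696 * d ^ 4

lemma F3_eq (a b d : ℝ) :
    F3 LL (229 / 125 - 12) a b d (12 - a * a) (8 * a - 2 * a * b) (4 * b - 3 * a * d)
      (6 * a ^ 2 - 2 * b - 4 * b * b) (3 * a * b - 3 * d - 6 * b * d)
      (2 * b ^ 2 - 2 * a * d - 9 * d * d) (-2 * a) (6 - 6 * b) (2 * a - 12 * d) =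
    GG a b d / 15625 - 229 / 125 * (229 / 125 + 1) * (a ^ 2 * ev LL a b d) := by
  simp only [F3, GG, LL, ev, d1, d2, d3, Nat.reduceSub]
  push_cast
  ring

lemma GG_ord {a b c : ℝ} (h1 : 0 ≤ c) (h2 : c ≤ b) (h3 : b ≤ a) :
    0 ≤ GG (a + b + c) (a * b + b * c + c * a) (a * b * c) := by
  obtain ⟨y, hy, rfl⟩ : ∃ y, 0 ≤ y ∧ b = y + c := ⟨b - c, by linarith, by ring⟩
  obtain ⟨z, hz, rfl⟩ : ∃ z, 0 ≤ z ∧ a = z + y + c := ⟨a - y - c, by linarith, by ring⟩
  unfold GG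
  ring_nf
  positivity

lemma GG_nonneg {a b c : ℝ} (ha : 0 ≤ a) (hb : 0 ≤ b) (hc : 0 ≤ c) :
    0 ≤ GG (a + b + c) (a * b + b * c + c * a) (a * b * c) := by
  rcases le_total a b with h1 | h1 <;> rcases le_total b c with h2 | h2 <;>
    rcases le_total a c with h3 | h3
  · convert GG_ord ha h1 h2 using 2 <;> ring
  · convert GG_ord ha h1 h2 using 2 <;> ring
  · convert GG_ord ha h3 h2 using 2 <;> ring
  · convert GG_ord hc h3 h1 using 2 <;> ring
  · convert GG_ord hb h1 h3 using 2 <;> ring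
  · convert GG_ord hb h2 h3 using 2 <;> ring
  · exact GG_ord hc h2 h1
  · exact GG_ord hc h2 h1

def e1 (x : E3) : ℝ := lin 1 1 0 x + lin 0 1 1 x + lin 1 0 1 x
def e2 (x : E3) : ℝ :=
  lin 1 1 0 x * lin 0 1 1 x + lin 0 1 1 x * lin 1 0 1 x + lin 1 0 1 x * lin 1 1 0 x
def e3 (x : E3) : ℝ := lin 1 1 0 x * lin 0 1 1 x * lin 1 0 1 x

lemma lin_pos {x : E3} (hx : x ∈ cone) : 0 < lin 1 1 0 x ∧ 0 < lin 0 1 1 x ∧ 0 < lin 1 0 1 x := by
  obtain ⟨h1, h2, h3⟩ := hx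
  simp only [lin]
  exact ⟨by linarith, by linarith, by linarith⟩

lemma e1_pos (x : E3) (hx : x ∈ cone) : 0 < e1 x := by
  obtain ⟨h1, h2, h3⟩ := lin_pos hx
  unfold e1
  positivity

/-- the subsolution -/
def ww (x : E3) : ℝ := e1 x ^ (229 / 125 - 12 : ℝ) * ev LL (e1 x) (e2 x) (e3 x)

lemma ww_sub (x : E3) (hx : x ∈ Ts) : -(229 / 125 * (229 / 125 + 1)) * ww x ≤ lap ww x := by
  have key := fun n : E3 => second (n := n) (u := e1) (v := e2) (w := e3)
    (((R.lin _ _ _).add (R.lin _ _ _)).add (R.lin _ _ _))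
    ((((R.lin _ _ _).mul (R.lin _ _ _)).add ((R.lin _ _ _).mul (R.lin _ _ _))).add
      ((R.lin _ _ _).mul (R.lin _ _ _)))
    (((R.lin _ _ _).mul (R.lin _ _ _)).mul (R.lin _ _ _))
    (((R.lin _ _ _).add (R.lin _ _ _)).add (R.lin _ _ _))
    (((((R.lin _ _ _).mul (R.lin _ _ _)).add ((R.lin _ _ _).mul (R.lin _ _ _))).add
      (((R.lin _ _ _).mul (R.lin _ _ _)).add ((R.lin _ _ _).mul (R.lin _ _ _)))).add
      (((R.lin _ _ _).mul (R.lin _ _ _)).add ((R.lin _ _ _).mul (R.lin _ _ _))))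
    (((((R.lin _ _ _).mul (R.lin _ _ _)).add ((R.lin _ _ _).mul (R.lin _ _ _))).mul
      (R.lin _ _ _)).add (((R.lin _ _ _).mul (R.lin _ _ _)).mul (R.lin _ _ _)))
    e1_pos LL (229 / 125 - 12) hx.1
  have hq := norm_sq3 x
  rw [hx.2] at hq
  obtain ⟨h1, h2, h3⟩ := lin_pos hx.1
  have hG : 0 ≤ GG (e1 x) (e2 x) (e3 x) := GG_nonneg h1.le h2.le h3.le
  have hp := rpow_pos_of_pos (e1_pos x hx.1) (229 / 125 - 12 - 1 - 1)
  have e0 : e1 x ^ (229 / 125 - 12 : ℝ) = e1 x ^ (229 / 125 - 12 - 1 - 1 : ℝ) * e1 x ^ 2 := by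
    rw [← rpow_natCast, ← rpow_add (e1_pos x hx.1)]
    norm_num
  have k : lap ww x = e1 x ^ (229 / 125 - 12 - 1 - 1 : ℝ) * (GG (e1 x) (e2 x) (e3 x) / 15625 -
      229 / 125 * (229 / 125 + 1) * (e1 x ^ 2 * ev LL (e1 x) (e2 x) (e3 x))) := by
    rw [lap, Fin.sum_univ_three, ← F3_eq]
    refine (congrArg₂ _ (congrArg₂ _ (key _) (key _)) (key _)).trans ?_
    rw [← mul_add, ← mul_add, F3_add, F3_add]
    congr 2 <;> simp only [lin, e1, e2, e3, ax, Fin.reduceEq, ↓reduceIte]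
    · linear_combination (-12) * hq
    · linear_combination (-16 * (x 0 + x 1 + x 2)) * hq
    · linear_combination (-4 * ((x 0 + x 1) * (x 1 + x 2) + (x 1 + x 2) * (x 0 + x 2) +
        (x 0 + x 2) * (x 0 + x 1))) * hq
    · linear_combination (-24 * (x 0 + x 1 + x 2) ^ 2 + 2 * ((x 0 + x 1) * (x 1 + x 2) +
        (x 1 + x 2) * (x 0 + x 2) + (x 0 + x 2) * (x 0 + x 1))) * hq
    · linear_combination (-6 * (x 0 + x 1 + x 2) * ((x 0 + x 1) * (x 1 + x 2) +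
        (x 1 + x 2) * (x 0 + x 2) + (x 0 + x 2) * (x 0 + x 1)) +
        3 * ((x 0 + x 1) * (x 1 + x 2) * (x 0 + x 2))) * hq
    · linear_combination (-2 * ((x 0 + x 1) * (x 1 + x 2) + (x 1 + x 2) * (x 0 + x 2) +
        (x 0 + x 2) * (x 0 + x 1)) ^ 2 +
        4 * (x 0 + x 1 + x 2) * ((x 0 + x 1) * (x 1 + x 2) * (x 0 + x 2))) * hq
    · ring
    · linear_combination (-6) * hq
    · linear_combination (-4 * (x 0 + x 1 + x 2)) * hq
  rw [k, ww, e0]
  nlinarith [mul_nonneg hp.le hG]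

lemma one_le_e1 {x : E3} (hx : x ∈ Ts) : 1 ≤ e1 x := by
  have hq := norm_sq3 x
  rw [hx.2] at hq
  obtain ⟨h1, h2, h3⟩ := hx.1
  have h0 := e1_pos x hx.1
  simp only [e1, lin] at h0 ⊢
  nlinarith [mul_pos h1 h2, mul_pos h2 h3, mul_pos h3 h1]

lemma cd_lin (p q r : ℝ) : ContDiff ℝ 2 (lin p q r) := by
  unfold lin
  fun_prop

lemma sub_ww : Sub (229 / 125 * (229 / 125 + 1)) ww := by
  have c1 : ContDiff ℝ 2 e1 := ((cd_lin _ _ _).add (cd_lin _ _ _)).add (cd_lin _ _ _)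
  have c2 : ContDiff ℝ 2 e2 := (((cd_lin _ _ _).mul (cd_lin _ _ _)).add
    ((cd_lin _ _ _).mul (cd_lin _ _ _))).add ((cd_lin _ _ _).mul (cd_lin _ _ _))
  have c3 : ContDiff ℝ 2 e3 := ((cd_lin _ _ _).mul (cd_lin _ _ _)).mul (cd_lin _ _ _)
  have cE := contDiff_ev c1 c2 c3 LL
  let W : E3 → ℝ := fun x => max (e1 x) 1 ^ (229 / 125 - 12 : ℝ) * ev LL (e1 x) (e2 x) (e3 x)
  have cW : Continuous W :=
    ((c1.continuous.max continuous_const).rpow_const fun x =>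
      Or.inl (lt_max_of_lt_right one_pos).ne').mul cE.continuous
  have eW : ∀ x ∈ Ts, ww x = W x := fun x hx => by
    simp only [ww, W, max_eq_left (one_le_e1 hx)]
  refine ⟨(c1.contDiffOn.rpow_const_of_ne fun x hx => (e1_pos x hx).ne').mul cE.contDiffOn,
    ww_sub, fun ε hε => ?_, (Cb.of_continuous cW).congr eW⟩
  refine ⟨Metric.sphere 0 1 ∩ {x | (0 ≤ lin 1 1 0 x ∧ 0 ≤ lin 0 1 1 x ∧ 0 ≤ lin 1 0 1 x) ∧
    ε ≤ W x}, (isCompact_sphere 0 1).inter_right
      (((isClosed_le continuous_const (cd_lin _ _ _).continuous).and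
        ((isClosed_le continuous_const (cd_lin _ _ _).continuous).and
          (isClosed_le continuous_const (cd_lin _ _ _).continuous))).and
        (isClosed_le continuous_const cW)), fun x hx => ?_, fun x hx h => ?_⟩
  · obtain ⟨-, ⟨h1, h2, h3⟩, h4⟩ := hx
    have h5 : e3 x ≠ 0 := fun h => by
      simp [W, h, LL, ev] at h4
      linarith
    obtain ⟨h6, h7⟩ := mul_ne_zero_iff.1 h5
    obtain ⟨h8, h9⟩ := mul_ne_zero_iff.1 h6
    have k1 := h1.lt_of_ne' h8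
    have k2 := h2.lt_of_ne' h9
    have k3 := h3.lt_of_ne' h7
    simp only [lin] at k1 k2 k3
    exact ⟨by linarith, by linarith, by linarith⟩
  · obtain ⟨h1, h2, h3⟩ := lin_pos hx.1
    rw [eW x hx]
    exact lt_of_not_ge fun h4 => h ⟨by simpa using hx.2, ⟨h1.le, h2.le, h3.le⟩, h4⟩

lemma exists_pos : ∃ x ∈ Ts, 0 < ww x := by
  obtain ⟨t, ht, e⟩ : ∃ t : ℝ, 0 < t ∧ t ^ 2 = 1 / 3 :=
    ⟨√(1 / 3), sqrt_pos.2 (by norm_num), sq_sqrt (by norm_num)⟩
  have hc : (!₂[t, t, t] : E3) ∈ cone := ⟨by simpa, by simpa, by simpa⟩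
  refine ⟨!₂[t, t, t], ⟨hc, ?_⟩, mul_pos (rpow_pos_of_pos (e1_pos _ hc) _) ?_⟩
  · rw [← sq_eq_sq₀ (norm_nonneg _) zero_le_one, norm_sq3]
    simp
    linarith
  · have h : ev LL (e1 !₂[t, t, t]) (e2 !₂[t, t, t]) (e3 !₂[t, t, t]) =
        1293046 * (2 * t) ^ 12 := by
      simp [LL, ev, e1, e2, e3, lin]
      ring
    rw [h]
    positivity

end Up

theorem lam1_lt : lam1 < (187 / 36 : ℝ) := by
  obtain ⟨x, hx, h⟩ := Up.exists_pos
  exact (Up.sub_ww.lam1_le (by norm_num) hx h).trans_lt (by norm_num)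

end Pool.Agent.MP_c4844d_an.Tr
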