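import Pool.Agent.MP_c4844d_an.tr.Spec
import Pool.Agent.MP_c4844d_an.Weak

/-! From the algebraic statement to functions on the cone. -/

noncomputable section

namespace Pool.Agent.MP_c4844d_an.Tr

open Polynomial Set Filter Topology Complex
open scoped ContDiff

namespace Fn

variable {V : Set E3}

/-- restrictions of smooth functions -/
def Sm (V : Set E3) : Subalgebra ℂ (V → ℂ) where
  carrier := {f | ∃ F : E3 → ℂ, ContDiffOn ℝ ∞ F V ∧ ∀ x : V, f x = F x}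
  mul_mem' := fun ⟨F, hF, e⟩ ⟨G, hG, e'⟩ =>
    ⟨fun x => F x * G x, hF.mul hG, fun x => congrArg₂ (· * ·) (e x) (e' x)⟩
  add_mem' := fun ⟨F, hF, e⟩ ⟨G, hG, e'⟩ =>
    ⟨fun x => F x + G x, hF.add hG, fun x => congrArg₂ (· + ·) (e x) (e' x)⟩
  algebraMap_mem' := fun c => ⟨fun _ => c, contDiffOn_const, fun _ => rfl⟩

def mk (F : E3 → ℂ) (hF : ContDiffOn ℝ ∞ F V) : Sm V := ⟨fun x => F x, F, hF, fun _ => rfl⟩

def rep (f : Sm V) : E3 → ℂ := f.2.choose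

lemma rep_sm (f : Sm V) : ContDiffOn ℝ ∞ (rep f) V := f.2.choose_spec.1

lemma rep_eq (f : Sm V) (x : V) : f.1 x = rep f x := f.2.choose_spec.2 x

lemma sm_der {Y : Type} [NormedAddCommGroup Y] [NormedSpace ℝ Y] (hV : IsOpen V) (n : E3)
    {F : E3 → Y} (hF : ContDiffOn ℝ ∞ F V) :
    ContDiffOn ℝ ∞ (fun x => fderiv ℝ F x (cross n x)) V :=
  (hF.fderiv_of_isOpen hV (by simp)).clm_apply (contDiff_cross n).contDiffOn

lemma dif {Y : Type} [NormedAddCommGroup Y] [NormedSpace ℝ Y] (hV : IsOpen V) {F : E3 → Y}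
    (hF : ContDiffOn ℝ ∞ F V) (x : V) : DifferentiableAt ℝ F x :=
  (hF.contDiffAt (hV.mem_nhds x.2)).differentiableAt (by simp)

def D0 (hV : IsOpen V) (c : ℂ) (n : E3) (f : Sm V) : Sm V :=
  mk (fun x => c * fderiv ℝ (rep f) x (cross n x)) (contDiffOn_const.mul (sm_der hV n (rep_sm f)))

lemma key0 (hV : IsOpen V) (c : ℂ) (n : E3) (f : Sm V) (F : E3 → ℂ) (h : ∀ x : V, f.1 x = F x)
    (x : V) : (D0 hV c n f).1 x = c * fderiv ℝ F x (cross n x) := by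
  have e : rep f =ᶠ[𝓝 (x : E3)] F := by
    filter_upwards [hV.mem_nhds x.2] with y hy using (rep_eq f ⟨y, hy⟩).symm.trans (h ⟨y, hy⟩)
  rw [← e.fderiv_eq]
  rfl

def D (hV : IsOpen V) (c : ℂ) (n : E3) : Sm V →+ Sm V :=
  AddMonoidHom.mk' (D0 hV c n) fun f g => Subtype.ext <| funext fun x => by
    rw [key0 hV c n (f + g) (fun x => rep f x + rep g x) fun x =>
      congrArg₂ (· + ·) (rep_eq f x) (rep_eq g x),
      fderiv_fun_add (dif hV (rep_sm f) x) (dif hV (rep_sm g) x), add_apply,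
      mul_add]
    rfl

lemma key (hV : IsOpen V) (c : ℂ) (n : E3) (f : Sm V) (F : E3 → ℂ) (h : ∀ x : V, f.1 x = F x)
    (x : V) : (D hV c n f).1 x = c * fderiv ℝ F x (cross n x) := key0 hV c n f F h x

lemma lb (hV : IsOpen V) (c : ℂ) (n : E3) : Lb (D hV c n) := fun f g =>
  Subtype.ext <| funext fun x => by
    change _ = (D hV c n f).1 x * g.1 x + f.1 x * (D hV c n g).1 x
    rw [key hV c n (f * g) (fun x => rep f x * rep g x) fun x =>
      congrArg₂ (· * ·) (rep_eq f x) (rep_eq g x), key hV c n f _ (rep_eq f),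
      key hV c n g _ (rep_eq g), rep_eq, rep_eq,
      fderiv_fun_mul (dif hV (rep_sm f) x) (dif hV (rep_sm g) x)]
    simp only [add_apply, smul_apply, smul_eq_mul]
    ring

lemma iter (hV : IsOpen V) (c : ℂ) (n : E3) {v : E3 → ℝ} (hv : ContDiffOn ℝ ∞ v V) (f : Sm V)
    (h : ∀ x : V, f.1 x = v x) (k : ℕ) : ContDiffOn ℝ ∞ ((rotD n)^[k] v) V ∧
      ∀ x : V, ((D hV c n)^[k] f).1 x = c ^ k * ((rotD n)^[k] v x : ℝ) := by
  induction k with
  | zero => exact ⟨hv, by simpa using h⟩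
  | succ k ih =>
    simp only [Function.iterate_succ_apply']
    refine ⟨sm_der hV n ih.1, fun x => ?_⟩
    have h1 := (ofRealCLM.hasFDerivAt.comp x.1 (dif hV ih.1 x).hasFDerivAt).const_mul (c ^ k)
    rw [key hV c n _ (fun x => c ^ k * ((rotD n)^[k] v x : ℝ)) ih.2]
    erw [h1.fderiv]
    simp [rotD, pow_succ', mul_assoc]

/-- the two stereographic coordinates -/
def st (σ : ℝ) (x : E3) : ℂ := (x 1 + I * x 2) * ((x 0 + σ * ‖x‖ : ℝ) : ℂ)⁻¹

lemma den_ne {σ : ℝ} (hσ : σ ^ 2 = 1) {x : E3} (hx : x ∈ cone) : x 0 + σ * ‖x‖ ≠ 0 := fun h => by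
  have h1 := norm_sq3 x
  have h2 : x 0 ^ 2 = ‖x‖ ^ 2 := by rw [eq_neg_of_add_eq_zero_left h, neg_sq, mul_pow, hσ, one_mul]
  nlinarith [hx.2.1, sq_nonneg (x 1 - x 2)]

lemma st_sm {σ : ℝ} (hσ : σ ^ 2 = 1) : ContDiffOn ℝ ∞ (st σ) cone := fun x hx => by
  have c : ∀ i, ContDiff ℝ ∞ fun x : E3 => x i := fun i => by fun_prop
  have r := fun i => ofRealCLM.contDiff.comp (c i)
  exact (((r 1).add (contDiff_const.mul (r 2))).contDiffAt.mul
    ((ofRealCLM.contDiff.contDiffAt.comp x ((c 0).contDiffAt.add (contDiffAt_const.mul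
      (contDiffAt_norm ℝ (ne_zero_of_cone hx))))).inv
      (ofReal_ne_zero.2 (den_ne hσ hx)))).contDiffWithinAt

lemma st_der {σ : ℝ} (hσ : σ ^ 2 = 1) {x : E3} (hx : x ∈ cone) (n : E3) :
    fderiv ℝ (st σ) x (cross n x) = (cross n x 1 + I * cross n x 2 - st σ x * cross n x 0) *
      ((x 0 + σ * ‖x‖ : ℝ) : ℂ)⁻¹ := by
  have x0 := ne_zero_of_cone hx
  have c : ∀ i, HasFDerivAt (fun x : E3 => x i) (EuclideanSpace.proj (𝕜 := ℝ) i) x := fun i =>
    (EuclideanSpace.proj (𝕜 := ℝ) i).hasFDerivAt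
  have r := fun i => ofRealCLM.hasFDerivAt.comp x (c i)
  have h1 := ((contDiffAt_norm (n := 1) ℝ x0).differentiableAt one_ne_zero).hasFDerivAt
  have h2 : fderiv ℝ (fun x : E3 => ‖x‖) x (cross n x) = 0 := by
    have h3 := congrArg (fun L : E3 →L[ℝ] ℝ => L (cross n x))
      ((h1.pow 2).unique (hasStrictFDerivAt_norm_sq x).hasFDerivAt)
    have h4 : inner ℝ x (cross n x) = 0 := by
      simp only [inner3, cross0, cross1, cross2]
      ring
    simpa [h4, x0] using h3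
  have h5 := ((r 1).add ((r 2).const_mul I)).mul
    ((hasDerivAt_inv (ofReal_ne_zero.2 (den_ne hσ hx))).comp_hasFDerivAt x
      (ofRealCLM.hasFDerivAt.comp x ((c 0).add (h1.const_mul σ))))
  have h6 := ofReal_ne_zero.2 (den_ne hσ hx)
  erw [h5.fderiv]
  simp [h2, st] at h6 ⊢
  field_simp
  ring

lemma st_rot {σ : ℝ} (hσ : σ ^ 2 = 1) {x : E3} (hx : x ∈ cone) :
    -I * fderiv ℝ (st σ) x (cross (axis 0) x) = st σ x ∧
    2 * I * fderiv ℝ (st σ) x (cross (axis 1) x) = 1 - st σ x ^ 2 ∧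
    2 * fderiv ℝ (st σ) x (cross (axis 2) x) = 1 + st σ x ^ 2 := by
  have h1 := ofReal_ne_zero.2 (den_ne hσ hx)
  have h2 := congrArg ofReal (norm_sq3 x)
  have h3 : (σ : ℂ) ^ 2 = 1 := by exact_mod_cast hσ
  simp only [st_der hσ hx, st]
  simp [axis] at h1 h2 ⊢
  refine ⟨?_, ?_, ?_⟩ <;> field_simp <;> grind [I_sq]

lemma st_rel {x : E3} (hx : x ∈ cone) : st (-1) x - st 1 x ≠ 0 ∧
    (st (-1) x - st 1 x) * nrm x 0 = st 1 x + st (-1) x ∧
    (st (-1) x - st 1 x) * nrm x 1 = st 1 x * st (-1) x - 1 ∧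
    (st (-1) x - st 1 x) * nrm x 2 = -I * (st 1 x * st (-1) x + 1) := by
  have h1 := ofReal_ne_zero.2 (den_ne (σ := 1) (by simp) hx)
  have h1' := ofReal_ne_zero.2 (den_ne (σ := -1) (by simp) hx)
  have h2 := congrArg ofReal (norm_sq3 x)
  have h3 := ofReal_ne_zero.2 (norm_ne_zero_iff.2 (ne_zero_of_cone hx))
  have h4 : (x 1 : ℂ) + I * x 2 ≠ 0 := fun h => by
    have a := congrArg re h
    have b := congrArg im h
    simp at a b
    linarith [hx.2.1]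
  simp only [st, nrm, PiLp.smul_apply, smul_eq_mul]
  push_cast at h1 h1' h2 ⊢
  rw [one_mul] at h1 ⊢
  rw [neg_one_mul, ← sub_eq_add_neg] at h1' ⊢
  refine ⟨?_, ?_, ?_, ?_⟩
  · rw [← mul_sub]
    refine mul_ne_zero h4 (sub_ne_zero.2 fun h => h3 ?_)
    linear_combination (-1 / 2 : ℂ) * inv_injective h
  all_goals
    field_simp
    grind [I_sq]

lemma ev3_map {R S : Type} [CommRing R] [Algebra ℂ R] [CommRing S] [Algebra ℂ S]
    (φ : R →ₐ[ℂ] S) (z w u : R) (Q : ℂ[X][X][X]) :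
    φ (ev3 z w u Q) = ev3 (φ z) (φ w) (φ u) Q := by
  have h : (φ : R →+* S).comp (ev3 z w u) = ev3 (φ z) (φ w) (φ u) := by
    ext <;> simp [ev3]
  exact RingHom.congr_fun h Q

lemma clear (P : MvPolynomial (Fin 4) ℝ) : ∃ (N : ℕ) (Q : ℂ[X][X][X]), ∀ (z w : ℂ)
    (a : Fin 4 → ℝ), (w - z) * a 0 = z + w → (w - z) * a 1 = z * w - 1 →
    (w - z) * a 2 = -I * (z * w + 1) →
    ev3 z w (a 3 : ℂ) Q = (w - z) ^ N * MvPolynomial.eval a P := by
  induction P using MvPolynomial.induction_on with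
  | C c => exact ⟨0, C (C (C (c : ℂ))), fun z w a _ _ _ => by simp [ev3]⟩
  | add P P' h h' =>
    obtain ⟨N, Q, h⟩ := h
    obtain ⟨N', Q', h'⟩ := h'
    refine ⟨N + N', (C X - C (C X)) ^ N' * Q + (C X - C (C X)) ^ N * Q', fun z w a a0 a1 a2 => ?_⟩
    rw [map_add, map_mul, map_mul, map_pow, map_pow, h z w a a0 a1 a2, h' z w a a0 a1 a2]
    simp [ev3]
    ring
  | mul_X P i h =>
    obtain ⟨N, Q, h⟩ := h
    refine ⟨N + 1, Q * ![C (C X) + C X, C (C X) * C X - 1,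
      C (C (C (-I))) * (C (C X) * C X + 1), (C X - C (C X)) * X] i, fun z w a a0 a1 a2 => ?_⟩
    rw [map_mul, h z w a a0 a1 a2, map_mul, MvPolynomial.eval_X, ofReal_mul, pow_succ,
      mul_mul_mul_comm]
    congr 1
    fin_cases i <;> simp [ev3, a0, a1, a2]

end Fn

open Fn in
theorem fin (H : AbsS) {lam h : ℝ} (l1 : 77/16 < lam) (l2 : lam < 187/36) {u : E3 → ℝ}
    (hs : ContDiffOn ℝ ∞ u cone) (hom : ∀ x ∈ cone, ∀ t : ℝ, 0 < t → u (t • x) = u x)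
    (pos : ∃ x ∈ cone, 0 < u x)
    (e2 : ∀ x ∈ cone, ∑ i : Fin 3, (rotD (axis i))^[2] u x = -lam * u x)
    (e4 : ∀ x ∈ cone, ∑ i : Fin 3, (rotD (axis i))^[4] u x = h * u x)
    (P : MvPolynomial (Fin 4) ℝ)
    (hP : ∀ x ∈ cone, ‖x‖ = 1 → MvPolynomial.eval ![x 0, x 1, x 2, u x] P = 0) :
    ∀ x ∈ cone, ‖x‖ = 1 → ∀ y : ℝ, MvPolynomial.eval ![x 0, x 1, x 2, y] P = 0 := by
  let J : Set E3 → Ideal ℂ[X][X][X] := fun V =>
    ⨅ x ∈ V, RingHom.ker (ev3 (st 1 x) (st (-1) x) (u x : ℂ))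
  have mJ : ∀ V Q, Q ∈ J V ↔ ∀ x ∈ V, ev3 (st 1 x) (st (-1) x) (u x : ℂ) Q = 0 := fun V Q => by
    simp [J]
  obtain ⟨_, ⟨V, ⟨hV, ⟨x0, hx0⟩, hc⟩, rfl⟩, hm⟩ := (wellFounded_gt (α := Ideal ℂ[X][X][X])).has_min
    (J '' {V | IsOpen V ∧ V.Nonempty ∧ V ⊆ cone ∩ u ⁻¹' Ioi 0})
    ⟨_, _, ⟨hs.continuousOn.isOpen_inter_preimage isOpen_cone isOpen_Ioi, pos, subset_rfl⟩, rfl⟩
  have hc' : V ⊆ cone := fun x hx => (hc hx).1
  let z : Sm V := mk _ ((st_sm (σ := 1) (by simp)).mono hc')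
  let w : Sm V := mk _ ((st_sm (σ := -1) (by simp)).mono hc')
  let U : Sm V := mk (fun x => (u x : ℂ)) (ofRealCLM.contDiff.comp_contDiffOn (hs.mono hc'))
  have ev : ∀ Q (x : V), (ev3 z w U Q).1 x = ev3 (st 1 x) (st (-1) x) (u x : ℂ) Q := fun Q x =>
    ev3_map ((Pi.evalAlgHom ℂ (fun _ : V => ℂ) x).comp (Sm V).val) z w U Q
  have ev0 : ∀ Q, ev3 z w U Q = 0 ↔ Q ∈ J V := fun Q => by
    rw [mJ, Subtype.ext_iff, funext_iff]
    simp only [ev]
    exact Subtype.forall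
  have rot : ∀ (σ : ℝ) (hσ : σ ^ 2 = 1) (f : Sm V), (∀ x : V, f.1 x = st σ x) →
      D hV (-I) (axis 0) f = f ∧ D hV (2 * I) (axis 1) f = 1 - f ^ 2 ∧
        D hV 2 (axis 2) f = 1 + f ^ 2 := fun σ hσ f hf => by
    refine ⟨Subtype.ext (funext fun x => ?_), Subtype.ext (funext fun x => ?_),
      Subtype.ext (funext fun x => ?_)⟩ <;> rw [key hV _ _ f _ hf] <;>
      simp [hf, st_rot hσ (hc' x.2), -neg_mul]
  have it := fun c n k => (iter hV c n (hs.mono hc') U (fun _ => rfl) k).2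
  have inj := H (Sm V) ![D hV (-I) (axis 0), D hV (2 * I) (axis 1), D hV 2 (axis 2)] z w U lam h
    l1 l2 (fun i => by fin_cases i <;> exact lb hV _ _) (fun i c => by
      fin_cases i <;> exact Subtype.ext (funext fun x =>
        (key hV _ _ _ (fun _ => c) (fun _ => rfl) x).trans (by simp)))
    (rot 1 (by simp) z fun _ => rfl) (rot (-1) (by simp) w fun _ => rfl)
    (fun r hr => Subtype.ext (funext fun x => by
      have h1 : r.1 x * (st 1 x - st (-1) x) = 0 := congrFun (congrArg Subtype.val hr) x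
      exact (mul_eq_zero.1 h1).resolve_right (sub_ne_zero.2 (sub_ne_zero.1 (st_rel (hc' x.2)).1).symm)))
    (fun e => by
      have h1 : (u x0 : ℂ) = 0 := congrFun (congrArg Subtype.val e) ⟨x0, hx0⟩
      exact (hc hx0).2.ne' (ofReal_eq_zero.1 h1))
    (Subtype.ext (funext fun x => by
      have h1 := congrArg ofReal (e2 x (hc' x.2))
      change 4 * ((D hV _ _)^[2] U).1 x + ((D hV _ _)^[2] U).1 x - ((D hV _ _)^[2] U).1 x =
        4 * lam * u x
      rw [Fin.sum_univ_three] at h1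
      rw [it, it, it]
      push_cast at h1
      grind [I_sq]))
    (Subtype.ext (funext fun x => by
      have h1 := congrArg ofReal (e4 x (hc' x.2))
      change 16 * ((D hV _ _)^[4] U).1 x + ((D hV _ _)^[4] U).1 x + ((D hV _ _)^[4] U).1 x =
        16 * h * u x
      rw [Fin.sum_univ_three] at h1
      rw [it, it, it]
      push_cast at h1
      grind [I_sq]))
    fun A B hAB => by
      by_contra hn
      obtain ⟨hA, hB⟩ := not_or.1 hn
      obtain ⟨x, hx⟩ := Function.ne_iff.1 fun e => hA (Subtype.ext e)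
      refine hm _ ⟨V ∩ rep (ev3 z w U A) ⁻¹' {0}ᶜ, ⟨(rep_sm _).continuousOn.isOpen_inter_preimage hV
        isOpen_compl_singleton, ⟨x, x.2, fun e => hx ((rep_eq _ x).trans e)⟩,
        inter_subset_left.trans hc⟩, rfl⟩ (SetLike.lt_iff_le_and_exists.2
          ⟨fun Q hQ => (mJ _ _).2 fun y hy => (mJ _ _).1 hQ y hy.1, B, (mJ _ _).2 fun y hy => ?_,
            fun e => hB ((ev0 B).2 e)⟩)
      have h1 : (ev3 z w U A).1 ⟨y, hy.1⟩ * (ev3 z w U B).1 ⟨y, hy.1⟩ = 0 :=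
        congrFun (congrArg Subtype.val hAB) ⟨y, hy.1⟩
      rw [rep_eq, ev B] at h1
      exact (mul_eq_zero.1 h1).resolve_left hy.2
  obtain ⟨N, Q, hQ⟩ := clear P
  have h0 : Q = 0 := inj (((ev0 Q).2 ((mJ _ _).2 fun x hx => by
    obtain ⟨-, a0, a1, a2⟩ := st_rel (hc' hx)
    have h1 := hP _ (nrm_mem_cone (hc' hx)) (norm_nrm (ne_zero_of_cone (hc' hx)))
    have h2 : u (nrm x) = u x :=
      hom x (hc' hx) _ (inv_pos.2 (norm_pos_iff.2 (ne_zero_of_cone (hc' hx))))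
    rw [h2] at h1
    simpa [h1] using hQ _ _ ![nrm x 0, nrm x 1, nrm x 2, u x] a0 a1 a2)).trans (map_zero _).symm)
  intro x hx h1 y
  obtain ⟨ne, a0, a1, a2⟩ := st_rel hx
  rw [nrm_of_norm h1] at a0 a1 a2
  have h2 := hQ _ _ ![x 0, x 1, x 2, y] a0 a1 a2
  rw [h0, map_zero] at h2
  exact ofReal_eq_zero.1 ((mul_eq_zero.1 h2.symm).resolve_left (pow_ne_zero _ ne))

end Pool.Agent.MP_c4844d_an.Tr

end
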