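import Mathlib.RingTheory.AdicCompletion.Completeness
import Mathlib.RingTheory.PowerSeries.Expand
import Mathlib.RingTheory.PowerSeries.WeierstrassPreparation
import Mathlib.RingTheory.LaurentSeries
import Mathlib.RingTheory.Etale.Kaehler
import Mathlib.RingTheory.Etale.Field
import Mathlib.RingTheory.AlgebraicIndependent.TranscendenceBasis
import Mathlib.RingTheory.AlgebraicIndependent.AlgebraicClosure
import Mathlib.FieldTheory.PrimitiveElement
import Mathlib.Algebra.MvPolynomial.Derivation

/-! Newton-Puiseux and extension of derivations (classical; copied from the files of another row). -/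

namespace Pool.Agent.MP_c4844d_an.Tr

open Polynomial

section NP0

theorem coeff_taylor_pred {R : Type*} [CommRing R] (f : R[X]) (r : R) (m : ℕ)
    (hm : f.natDegree = m + 1) :
    (taylor r f).coeff m = f.coeff m + (m + 1 : R) * f.coeff (m + 1) * r := by
  rw [taylor_coeff]
  have h : hasseDeriv m f = C (f.coeff m) + C ((m + 1 : R) * f.coeff (m + 1)) * X := by
    ext j
    rw [hasseDeriv_coeff]
    rcases j with _ | _ | j
    · simp
    · simp [add_comm 1 m, Nat.choose_succ_self_right, coeff_C]
    · have : f.coeff (j + 1 + 1 + m) = 0 := coeff_eq_zero_of_natDegree_lt (by omega)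
      simp [this, coeff_one]
  rw [h]
  simp

variable {k : Type*} [Field k]

def HasRoot (f : (PowerSeries k)[X]) : Prop :=
  ∃ (n : ℕ) (hn : n ≠ 0) (y : PowerSeries k),
    eval₂ (PowerSeries.expand n hn : PowerSeries k →ₐ[k] PowerSeries k).toRingHom y f = 0

theorem HasRoot.of_taylor {f : (PowerSeries k)[X]} (r : PowerSeries k)
    (h : HasRoot (taylor r f)) : HasRoot f := by
  obtain ⟨n, hn, y, hy⟩ := h
  refine ⟨n, hn, y + PowerSeries.expand n hn r, ?_⟩
  rw [eval₂_eq_eval_map] at hy ⊢
  rw [map_taylor, taylor_eval] at hy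
  exact hy

theorem HasRoot.of_dvd {f g : (PowerSeries k)[X]} (hd : g ∣ f) (h : HasRoot g) : HasRoot f := by
  obtain ⟨n, hn, y, hy⟩ := h
  obtain ⟨q, rfl⟩ := hd
  exact ⟨n, hn, y, by rw [eval₂_mul, hy, zero_mul]⟩

theorem HasRoot.of_scale {f g : (PowerSeries k)[X]} (n : ℕ) (hn : n ≠ 0) (s : PowerSeries k)
    (hfg : f.map (PowerSeries.expand n hn : PowerSeries k →ₐ[k] PowerSeries k).toRingHom =
      g.scaleRoots s) (h : HasRoot g) : HasRoot f := by
  obtain ⟨n', hn', y, hy⟩ := h
  refine ⟨n' * n, Nat.mul_ne_zero hn' hn, PowerSeries.expand n' hn' s * y, ?_⟩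
  have h1 := scaleRoots_eval₂_eq_zero (s := s) _ hy
  rw [← hfg, eval₂_map] at h1
  have h2 : (PowerSeries.expand (n' * n) (Nat.mul_ne_zero hn' hn) :
      PowerSeries k →ₐ[k] PowerSeries k).toRingHom = ((PowerSeries.expand n' hn' :
      PowerSeries k →ₐ[k] PowerSeries k).toRingHom).comp (PowerSeries.expand n hn :
      PowerSeries k →ₐ[k] PowerSeries k).toRingHom :=
    RingHom.ext fun φ => PowerSeries.expand_mul n' hn' n hn φ
  rw [h2]
  exact h1

instance adicC : IsAdicComplete (IsLocalRing.maximalIdeal (PowerSeries k)) (PowerSeries k) := by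
  rw [PowerSeries.maximalIdeal_eq_span_X]
  infer_instance

theorem mem_max_iff (a : PowerSeries k) :
    a ∈ IsLocalRing.maximalIdeal (PowerSeries k) ↔ PowerSeries.constantCoeff a = 0 := by
  rw [PowerSeries.maximalIdeal_eq_span_X, Ideal.mem_span_singleton, PowerSeries.X_dvd_iff]

theorem exists_factor (g : (PowerSeries k)[X]) (hg : g.Monic)
    (h0 : PowerSeries.constantCoeff (g.coeff 0) = 0)
    (h1 : ∃ i < g.natDegree, PowerSeries.constantCoeff (g.coeff i) ≠ 0) :
    ∃ P : (PowerSeries k)[X], P.Monic ∧ P ∣ g ∧ 0 < P.natDegree ∧ P.natDegree < g.natDegree := by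
  have hne : (g : PowerSeries (PowerSeries k)).map (IsLocalRing.residue (PowerSeries k)) ≠ 0 := by
    rw [← Polynomial.polynomial_map_coe]
    exact_mod_cast g.map_monic_ne_zero (f := IsLocalRing.residue (PowerSeries k)) hg
  obtain ⟨P, h, H⟩ := PowerSeries.exists_isWeierstrassFactorization hne
  have hP := H.isDistinguishedAt
  have hdvd : P ∣ g := by
    have hW := hP.isWeierstrassDivisorAt' (A := PowerSeries k)
    have hdeg : (P.natDegree : ℕ) = ((P : PowerSeries (PowerSeries k)).map
        (Ideal.Quotient.mk (IsLocalRing.maximalIdeal (PowerSeries k)))).order.toNat := by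
      have := hP.coe_natDegree_eq_order_map (P : PowerSeries (PowerSeries k)) 1
        (by simp) (by simp)
      exact congr(ENat.toNat $this)
    have hr : (g %ₘ P).degree < (((P : PowerSeries (PowerSeries k)).map
        (Ideal.Quotient.mk (IsLocalRing.maximalIdeal (PowerSeries k)))).order.toNat : ℕ) := by
      rw [← hdeg, ← degree_eq_natDegree hP.monic.ne_zero]
      exact degree_modByMonic_lt g hP.monic
    have hz : (0 : (PowerSeries k)[X]).degree < (((P : PowerSeries (PowerSeries k)).map
        (Ideal.Quotient.mk (IsLocalRing.maximalIdeal (PowerSeries k)))).order.toNat : ℕ) := by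
      rw [degree_zero]
      exact WithBot.bot_lt_coe _
    have he : (P : PowerSeries (PowerSeries k)) * ((g /ₘ P : (PowerSeries k)[X]) :
        PowerSeries (PowerSeries k)) + ((g %ₘ P : (PowerSeries k)[X]) :
        PowerSeries (PowerSeries k)) = (P : PowerSeries (PowerSeries k)) * h +
          ((0 : (PowerSeries k)[X]) : PowerSeries (PowerSeries k)) := by
      rw [← Polynomial.coe_mul, ← Polynomial.coe_add, add_comm, modByMonic_add_div,
        Polynomial.coe_zero, add_zero]
      exact H.eq_mul
    have := (hW.eq_of_mul_add_eq_mul_add hr hz he).2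
    exact (modByMonic_eq_zero_iff_dvd hP.monic).1 this
  refine ⟨P, hP.monic, hdvd, ?_, ?_⟩
  · rcases Nat.eq_zero_or_pos P.natDegree with h2 | h2
    · exfalso
      have h3 : P = 1 := hP.monic.natDegree_eq_zero.1 h2
      have h4 : IsUnit (g : PowerSeries (PowerSeries k)) := by
        rw [H.eq_mul, h3]
        simpa using H.isUnit
      have h5 := PowerSeries.isUnit_iff_constantCoeff.1 h4
      rw [Polynomial.constantCoeff_coe] at h5
      have h6 := PowerSeries.isUnit_iff_constantCoeff.1 h5
      rw [h0] at h6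
      exact not_isUnit_zero h6
    · exact h2
  · by_contra h2
    have h3 : g = P := eq_of_monic_of_dvd_of_natDegree_le hP.monic hg hdvd (by omega)
    obtain ⟨i, hi, hi'⟩ := h1
    apply hi'
    rw [← mem_max_iff, h3]
    exact hP.mem (h3 ▸ hi)

theorem hasRoot_of_monic [IsAlgClosed k] [CharZero k] :
    ∀ (m : ℕ) (f : (PowerSeries k)[X]), f.Monic → f.natDegree = m + 1 → HasRoot f := by
  classical
  intro m
  induction m using Nat.strong_induction_on with
  | _ m ih =>
  intro f0 hf0 hd0
  have hm : ((m : k) + 1) ≠ 0 := by exact_mod_cast Nat.succ_ne_zero m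
  set r : PowerSeries k := -(PowerSeries.C ((m : k) + 1)⁻¹ * f0.coeff m) with hr
  apply HasRoot.of_taylor r
  set f := taylor r f0 with hf
  have hfm : f.Monic := by rw [Monic, hf, leadingCoeff_taylor]; exact hf0
  have hd : f.natDegree = m + 1 := by rw [hf, natDegree_taylor, hd0]
  have hc : f.coeff m = 0 := by
    rw [hf, coeff_taylor_pred f0 r m hd0, ← hd0, hf0.coeff_natDegree, hr]
    have : ((m : PowerSeries k) + 1) * PowerSeries.C ((m : k) + 1)⁻¹ = 1 := by
      have h1 : ((m : PowerSeries k) + 1) = PowerSeries.C ((m : k) + 1) := by simp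
      rw [h1, ← map_mul, mul_inv_cancel₀ hm, map_one]
    linear_combination (-(f0.coeff m)) * this
  clear_value f
  by_cases h0 : f.coeff 0 = 0
  · exact ⟨1, one_ne_zero, 0, by rw [eval₂_at_zero, h0, map_zero]⟩
  obtain ⟨i0, hi0, hmin⟩ := ((Finset.range (m + 1)).filter fun i => f.coeff i ≠ 0).exists_min_image
    (fun i => ((f.coeff i).order.toNat : ℚ) / ((m + 1 - i : ℕ) : ℚ)) ⟨0, by simp [h0]⟩
  simp only [Finset.mem_filter, Finset.mem_range] at hi0 hmin
  set n := m + 1 - i0 with hn
  have hn0 : n ≠ 0 := by omega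
  set u := (f.coeff i0).order.toNat with hu
  have hdiv : ∀ i, (PowerSeries.X : PowerSeries k) ^ (u * (m + 1 - i)) ∣
      PowerSeries.expand n hn0 (f.coeff i) := by
    intro i
    by_cases hi : i < m + 1
    · by_cases hz : f.coeff i = 0
      · simp [hz]
      · have h1 := hmin i ⟨hi, hz⟩
        have h2 : (0 : ℚ) < ((m + 1 - i : ℕ) : ℚ) := by exact_mod_cast (by omega)
        have h3 : (0 : ℚ) < (n : ℚ) := by exact_mod_cast (by omega)
        rw [div_le_div_iff₀ h3 h2] at h1
        have h4 : u * (m + 1 - i) ≤ (f.coeff i).order.toNat * n := by exact_mod_cast h1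
        obtain ⟨b, hb⟩ := PowerSeries.X_pow_order_dvd (φ := f.coeff i)
        rw [hb, map_mul, map_pow, PowerSeries.expand_X, ← pow_mul]
        exact Dvd.dvd.mul_right (pow_dvd_pow _ (by rw [mul_comm n]; exact h4)) _
    · have : m + 1 - i = 0 := by omega
      simp [this]
  choose b hb using hdiv
  have hXne : ∀ j : ℕ, (PowerSeries.X : PowerSeries k) ^ j ≠ 0 := fun j =>
    pow_ne_zero _ PowerSeries.X_ne_zero
  set g : (PowerSeries k)[X] := ∑ i ∈ Finset.range (m + 2), monomial i (b i) with hg
  have hgc : ∀ i, g.coeff i = if i < m + 2 then b i else 0 := by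
    intro i
    simp [hg, coeff_monomial]
  have hb1 : b (m + 1) = 1 := by
    have := hb (m + 1)
    rw [← hd, hfm.coeff_natDegree, map_one, hd] at this
    simpa using this.symm
  have hgd : g.natDegree = m + 1 := by
    apply natDegree_eq_of_le_of_coeff_ne_zero
    · rw [natDegree_le_iff_coeff_eq_zero]
      intro i hi
      rw [hgc, if_neg (by omega)]
    · rw [hgc, if_pos (by omega), hb1]
      exact one_ne_zero
  have hgm : g.Monic := by
    rw [Monic, leadingCoeff, hgd, hgc, if_pos (by omega), hb1]
  have hbm : b m = 0 := by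
    have := hb m
    rw [hc, map_zero] at this
    exact (mul_eq_zero.1 this.symm).resolve_left (hXne _)
  have hbi : PowerSeries.constantCoeff (b i0) ≠ 0 := by
    intro h
    have h1 := hb i0
    have h2 := congr(PowerSeries.coeff (n * u) $h1)
    rw [PowerSeries.coeff_expand_mul, ← hn, mul_comm u n] at h2
    have h3 := PowerSeries.coeff_X_pow_mul (b i0) (n * u) 0
    rw [zero_add] at h3
    rw [h3, PowerSeries.coeff_zero_eq_constantCoeff, h] at h2
    exact PowerSeries.coeff_order hi0.2 h2
  refine HasRoot.of_scale (g := g) n hn0 (PowerSeries.X ^ u) ?_ ?_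
  · ext1 i
    rw [coeff_map, coeff_scaleRoots, hgd, hgc]
    split_ifs with hi
    · rw [← pow_mul, mul_comm]
      exact hb i
    · rw [coeff_eq_zero_of_natDegree_lt (by omega), map_zero, zero_mul]
  set gb : k[X] := g.map (PowerSeries.constantCoeff (R := k)) with hgb
  have hgbm : gb.Monic := hgm.map _
  have hgbd : gb.natDegree = m + 1 := by rw [hgb, hgm.natDegree_map, hgd]
  obtain ⟨c, hc0⟩ := IsAlgClosed.exists_root gb (by
    rw [degree_eq_natDegree hgbm.ne_zero, hgbd]
    exact_mod_cast Nat.succ_ne_zero m)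
  apply HasRoot.of_taylor (PowerSeries.C c)
  set g1 := taylor (PowerSeries.C c) g with hg1
  have hg1m : g1.Monic := by rw [Monic, hg1, leadingCoeff_taylor]; exact hgm
  have hg1d : g1.natDegree = m + 1 := by rw [hg1, natDegree_taylor, hgd]
  have hmap : ∀ i, PowerSeries.constantCoeff (g1.coeff i) = (taylor c gb).coeff i := by
    intro i
    rw [← coeff_map, hg1, map_taylor, PowerSeries.constantCoeff_C]
  obtain ⟨P, hPm, hPd, hP0, hP1⟩ := exists_factor g1 hg1m
    (by rw [hmap, taylor_coeff_zero]; exact hc0) (by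
      by_contra hcon
      push Not at hcon
      have h1 := hcon m (by omega)
      rw [hmap, coeff_taylor_pred gb c m hgbd, ← hgbd, hgbm.coeff_natDegree, hgb, coeff_map, hgc,
        if_pos (by omega), hbm, map_zero, zero_add, mul_one] at h1
      have h2 : c = 0 := (mul_eq_zero.1 h1).resolve_left hm
      have h3 := hcon i0 (by omega)
      rw [hmap, h2, taylor_zero, hgb, coeff_map, hgc, if_pos (by omega)] at h3
      exact hbi h3)
  exact HasRoot.of_dvd hPd (ih (P.natDegree - 1) (by omega) P hPm (by omega))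

end NP0

section NP1

variable {k : Type*} [Field k]

theorem expand_injective (n : ℕ) (hn : n ≠ 0) :
    Function.Injective (PowerSeries.expand n hn : PowerSeries k →ₐ[k] PowerSeries k) := by
  intro a b h
  ext m
  rw [← PowerSeries.coeff_expand_mul n hn a m, h, PowerSeries.coeff_expand_mul]

noncomputable def expandL (n : ℕ) (hn : n ≠ 0) : LaurentSeries k →+* LaurentSeries k :=
  IsFractionRing.lift (A := PowerSeries k)
    (g := (algebraMap (PowerSeries k) (LaurentSeries k)).comp
      (PowerSeries.expand n hn : PowerSeries k →ₐ[k] PowerSeries k).toRingHom)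
    ((IsFractionRing.injective (PowerSeries k) (LaurentSeries k)).comp (expand_injective n hn))

theorem expandL_algebraMap (n : ℕ) (hn : n ≠ 0) (a : PowerSeries k) :
    expandL n hn (algebraMap (PowerSeries k) (LaurentSeries k) a) =
      algebraMap (PowerSeries k) (LaurentSeries k) (PowerSeries.expand n hn a) :=
  IsFractionRing.lift_algebraMap _ a

theorem expandL_C (n : ℕ) (hn : n ≠ 0) (c : k) :
    expandL n hn (HahnSeries.C c) = HahnSeries.C c := by
  have h : (HahnSeries.C c : LaurentSeries k) =
      algebraMap (PowerSeries k) (LaurentSeries k) (PowerSeries.C c) := by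
    rw [LaurentSeries.coe_algebraMap, HahnSeries.ofPowerSeries_C]
  rw [h, expandL_algebraMap, PowerSeries.expand_C]

theorem expandL_X (n : ℕ) (hn : n ≠ 0) :
    expandL n hn (algebraMap (PowerSeries k) (LaurentSeries k) PowerSeries.X) =
      algebraMap (PowerSeries k) (LaurentSeries k) PowerSeries.X ^ n := by
  rw [expandL_algebraMap, PowerSeries.expand_X, map_pow]

theorem expandL_single_one (n : ℕ) (hn : n ≠ 0) :
    expandL n hn (HahnSeries.single 1 1 : LaurentSeries k) = HahnSeries.single (n : ℤ) 1 := by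
  have h := expandL_X (k := k) n hn
  rw [LaurentSeries.coe_algebraMap, HahnSeries.ofPowerSeries_X, HahnSeries.single_pow] at h
  simpa using h

theorem exists_root_laurent [IsAlgClosed k] [CharZero k] (f : (LaurentSeries k)[X])
    (hf : f.Monic) (hd : 0 < f.natDegree) :
    ∃ (n : ℕ) (hn : n ≠ 0) (y : LaurentSeries k), eval₂ (expandL n hn) y f = 0 := by
  classical
  obtain ⟨s, hs⟩ := IsLocalization.exist_integer_multiples_of_finset
    (nonZeroDivisors (PowerSeries k)) (S := LaurentSeries k) f.coeffs
  have hs0 : (s : PowerSeries k) ≠ 0 := nonZeroDivisors.coe_ne_zero s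
  set s' : LaurentSeries k := algebraMap (PowerSeries k) (LaurentSeries k) s with hs'
  have hl : f.scaleRoots s' ∈ lifts (algebraMap (PowerSeries k) (LaurentSeries k)) := by
    rw [lifts_iff_coeff_lifts]
    intro i
    rw [coeff_scaleRoots]
    rcases lt_trichotomy i f.natDegree with hi | hi | hi
    · by_cases hz : f.coeff i = 0
      · exact ⟨0, by simp [hz]⟩
      · obtain ⟨a, ha⟩ := hs (f.coeff i) (coeff_mem_coeffs hz)
        refine ⟨a * s ^ (f.natDegree - i - 1), ?_⟩
        have h1 : f.natDegree - i = (f.natDegree - i - 1) + 1 := by omega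
        rw [map_mul, map_pow, ha, Algebra.smul_def, ← hs']
        conv_rhs => rw [h1]
        ring
    · exact ⟨1, by simp [hi, hf.coeff_natDegree]⟩
    · exact ⟨0, by simp [coeff_eq_zero_of_natDegree_lt hi]⟩
  obtain ⟨g, hg, hgd, hgm⟩ := lifts_and_natDegree_eq_and_monic hl ((monic_scaleRoots_iff _).2 hf)
  rw [natDegree_scaleRoots] at hgd
  obtain ⟨n, hn, y, hy⟩ := hasRoot_of_monic (g.natDegree - 1) g hgm (by omega)
  have hs1 : expandL n hn s' ≠ 0 := by
    rw [_root_.map_ne_zero, hs']
    exact (map_ne_zero_iff _ (IsFractionRing.injective _ _)).2 hs0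
  refine ⟨n, hn, algebraMap (PowerSeries k) (LaurentSeries k) y / expandL n hn s', ?_⟩
  have h1 := scaleRoots_eval₂_mul (p := f) (expandL n hn)
    (algebraMap (PowerSeries k) (LaurentSeries k) y / expandL n hn s') s'
  rw [mul_div_cancel₀ _ hs1, ← hg, eval₂_map] at h1
  have h2 : (expandL n hn).comp (algebraMap (PowerSeries k) (LaurentSeries k)) =
      (algebraMap (PowerSeries k) (LaurentSeries k)).comp
        (PowerSeries.expand n hn : PowerSeries k →ₐ[k] PowerSeries k).toRingHom :=
    RingHom.ext fun a => expandL_algebraMap n hn a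
  rw [h2, ← hom_eval₂, hy, map_zero] at h1
  exact (mul_eq_zero.1 h1.symm).resolve_left (pow_ne_zero _ hs1)

theorem exists_extension [IsAlgClosed k] [CharZero k] {K0 L : Type*} [Field K0] [Field L]
    [Algebra K0 L] [FiniteDimensional K0 L] (ψ : K0 →+* LaurentSeries k) :
    ∃ (n : ℕ) (hn : n ≠ 0) (φ : L →+* LaurentSeries k),
      ∀ c : K0, φ (algebraMap K0 L c) = expandL n hn (ψ c) := by
  have : CharZero (LaurentSeries k) := algebraRat.charZero _
  have : CharZero K0 := ψ.charZero
  let pb := Field.powerBasisOfFiniteOfSeparable K0 L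
  have hi : IsIntegral K0 pb.gen := Algebra.IsIntegral.isIntegral _
  obtain ⟨n, hn, y, hy⟩ := exists_root_laurent ((minpoly K0 pb.gen).map ψ)
    ((minpoly.monic hi).map _) (by
      rw [(minpoly.monic hi).natDegree_map]
      exact minpoly.natDegree_pos hi)
  let _ : Algebra K0 (LaurentSeries k) := ((expandL n hn).comp ψ).toAlgebra
  rw [eval₂_map] at hy
  exact ⟨n, hn, (pb.lift y hy).toRingHom, fun c => (pb.lift y hy).commutes c⟩

end NP1

open IntermediateField

theorem der_extend {R S T M : Type*} [CommRing R] [CommRing S] [CommRing T] [Algebra R S]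
    [Algebra R T] [Algebra S T] [IsScalarTower R S T] [Algebra.FormallyEtale S T]
    [AddCommGroup M] [Module R M] [Module S M] [Module T M] [IsScalarTower R S M]
    [IsScalarTower R T M] [IsScalarTower S T M] (δ : Derivation R S M) :
    ∃ δ' : Derivation R T M, ∀ s, δ' (algebraMap S T s) = δ s := by
  have h := KaehlerDifferential.isBaseChange_of_formallyEtale R S T
  refine ⟨(h.lift δ.liftKaehlerDifferential).compDer (KaehlerDifferential.D R T), fun s => ?_⟩
  change h.lift δ.liftKaehlerDifferential (KaehlerDifferential.D R T (algebraMap S T s)) = _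
  rw [← KaehlerDifferential.map_D R R S T, h.lift_eq, Derivation.liftKaehlerDifferential_comp_D]

open scoped IntermediateField.algebraAdjoinAdjoin in
theorem derext {E L ι : Type*} [Field E] [Field L] [Algebra E L] [CharZero E] (v : ι → L)
    (hv : AlgebraicIndependent E v) (a : ι → L) :
    ∃ δ : Derivation E L L, ∀ i, δ (v i) = a i := by
  classical
  obtain ⟨t, hst, ht⟩ := exists_isTranscendenceBasis_superset (R := E) (s := Set.range v)
    hv.to_subtype_range
  let S := MvPolynomial t E
  let A := Algebra.adjoin E (Set.range ((↑) : t → L))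
  let K := IntermediateField.adjoin E (Set.range ((↑) : t → L))
  let _ : Algebra S A := ht.1.aevalEquiv.toRingEquiv.toRingHom.toAlgebra
  let _ : Algebra S L := (MvPolynomial.aeval ((↑) : t → L)).toRingHom.toAlgebra
  have : IsScalarTower S A L := IsScalarTower.of_algebraMap_eq fun _ => rfl
  have : IsScalarTower E S A := IsScalarTower.of_algebraMap_eq fun c =>
    (ht.1.aevalEquiv.commutes c).symm
  have : IsScalarTower E S L := IsScalarTower.of_algebraMap_eq fun c =>
    ((MvPolynomial.aeval ((↑) : t → L)).commutes c).symm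
  have : Algebra.FormallyEtale S A :=
    .of_equiv (AlgEquiv.ofBijective (Algebra.ofId S A) ht.1.aevalEquiv.bijective)
  have : Algebra.FormallyEtale A K := .of_isLocalization (nonZeroDivisors _)
  have := ht.isAlgebraic_field
  have : Algebra.FormallyEtale K L := .of_isSeparable _ _
  let b : t → L := fun x => if h : ∃ i, v i = x.1 then a h.choose else 0
  obtain ⟨δ1, h1⟩ := der_extend (T := A) (MvPolynomial.mkDerivation E b : Derivation E S L)
  obtain ⟨δ2, h2⟩ := der_extend (T := K) δ1
  obtain ⟨δ3, h3⟩ := der_extend (T := L) δ2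
  refine ⟨δ3, fun i => ?_⟩
  have h4 : v i = algebraMap K L (algebraMap A K (algebraMap S A
      (MvPolynomial.X ⟨v i, hst ⟨i, rfl⟩⟩))) := by
    change v i = MvPolynomial.aeval ((↑) : t → L) (MvPolynomial.X ⟨v i, hst ⟨i, rfl⟩⟩)
    simp
  rw [h4, h3, h2, h1, MvPolynomial.mkDerivation_X]
  have h5 : ∃ j, v j = v i := ⟨i, rfl⟩
  simp only [b]
  rw [dif_pos h5, hv.injective h5.choose_spec]

theorem derext_one {E L : Type*} [Field E] [Field L] [Algebra E L] [CharZero E] (x : L)
    (hx : Transcendental E x) (a : L) : ∃ δ : Derivation E L L, δ x = a := by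
  obtain ⟨δ, h⟩ := derext (E := E) (fun _ : Unit => x)
    (algebraicIndependent_unique_type_iff.2 hx) (fun _ => a)
  exact ⟨δ, h ()⟩

end Pool.Agent.MP_c4844d_an.Tr
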