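import Mathlib.Analysis.Complex.Basic
import Mathlib.Algebra.Module.LinearMap.End
import Mathlib.Data.Set.Finite.Lemmas

/-! Pseudo-reflections with a small angle in a finite group have equal or orthogonal axes. -/

noncomputable section

namespace Pool.Agent.MP_c4844d_an.Tr

open Complex ComplexConjugate

variable {E G : Type} [AddCommGroup E] [Module ℂ E] [Group G]

/-- an invariant Hermitian form that is positive on `V` -/
structure Inv (ρ : G →* Module.End ℂ E) (V : Submodule ℂ E) (H : E → E → ℂ) : Prop where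
  stab : ∀ g, ∀ v ∈ V, ρ g v ∈ V
  add : ∀ u v w, H (u + v) w = H u w + H v w
  smul : ∀ (c : ℂ) v w, H (c • v) w = c * H v w
  symm : ∀ v w, H w v = conj (H v w)
  inv : ∀ g v w, H (ρ g v) (ρ g w) = H v w
  pos : ∀ v ∈ V, v ≠ 0 → 0 < (H v v).re

theorem exists_inv [Fintype G] (ρ : G →* Module.End ℂ E) (V : Submodule ℂ E)
    (hV : ∀ g, ∀ v ∈ V, ρ g v ∈ V) {J : Type} [Fintype J] (f : J → E →ₗ[ℂ] ℂ)
    (hf : ∀ v ∈ V, (∀ j, f j v = 0) → v = 0) : ∃ H, Inv ρ V H := by
  refine ⟨fun v w => ∑ g, ∑ j, f j (ρ g v) * conj (f j (ρ g w)), hV, fun u v w => ?_,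
    fun c v w => ?_, fun v w => ?_, fun g v w => ?_, fun v hv h0 => ?_⟩
  · simp only [map_add, add_mul, Finset.sum_add_distrib]
  · simp only [map_smul, smul_eq_mul, Finset.mul_sum, mul_assoc]
  · simp only [map_sum, map_mul, conj_conj, mul_comm]
  · refine Fintype.sum_equiv (Equiv.mulRight g) _ _ fun a => ?_
    simp only [Equiv.coe_mulRight, map_mul, Module.End.mul_apply]
  · simp only [mul_conj, re_sum, ofReal_re]
    obtain ⟨j, hj⟩ := not_forall.1 fun h => h0 (hf v hv h)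
    refine Finset.sum_pos' (fun g _ => Finset.sum_nonneg fun j _ => normSq_nonneg _)
      ⟨1, Finset.mem_univ _, Finset.sum_pos' (fun j _ => normSq_nonneg _)
        ⟨j, Finset.mem_univ _, by simpa using hj⟩⟩

/-- `g` acts on `V` as a pseudo-reflection with axis `e` and eigenvalue `ω` -/
structure Ps (ρ : G →* Module.End ℂ E) (V : Submodule ℂ E) (ω : ℂ) (g : G) (e : E) : Prop where
  mem : e ∈ V
  ne : e ≠ 0
  move : ∀ v ∈ V, ∃ c : ℂ, ρ g v = v + c • e
  eig : ρ g e = ω • e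

variable {ρ : G →* Module.End ℂ E} {V : Submodule ℂ E} {H : E → E → ℂ} {ω : ℂ} {g g' : G}
  {e e' : E}

theorem Inv.addr (I : Inv ρ V H) (u v w : E) : H w (u + v) = H w u + H w v := by
  rw [I.symm, I.add, map_add, ← I.symm, ← I.symm]

theorem Inv.smulr (I : Inv ρ V H) (c : ℂ) (v w : E) : H w (c • v) = conj c * H w v := by
  rw [I.symm, I.smul, map_mul, ← I.symm]

theorem Inv.real (I : Inv ρ V H) (v : E) : H v v = (H v v).re :=
  (conj_eq_iff_re.1 (I.symm v v).symm).symm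

theorem Ps.pow (h : Ps ρ V ω g e) (hV : ∀ g, ∀ v ∈ V, ρ g v ∈ V) (j : ℕ) :
    Ps ρ V (ω ^ j) (g ^ j) e := by
  induction j with
  | zero => exact ⟨h.mem, h.ne, fun v _ => ⟨0, by simp⟩, by simp⟩
  | succ j ih =>
    refine ⟨h.mem, h.ne, fun v hv => ?_, ?_⟩
    · obtain ⟨c, hc⟩ := ih.move v hv
      obtain ⟨d, hd⟩ := h.move _ (hV (g ^ j) v hv)
      exact ⟨c + d, by rw [pow_succ', map_mul, Module.End.mul_apply, hd, hc, add_smul, add_assoc]⟩
    · rw [pow_succ', map_mul, Module.End.mul_apply, ih.eig, map_smul, h.eig, smul_smul, pow_succ]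

theorem Ps.conj (h : Ps ρ V ω g e) (hV : ∀ g, ∀ v ∈ V, ρ g v ∈ V) (a : G) :
    Ps ρ V ω (a * g * a⁻¹) (ρ a e) := by
  have e1 : ∀ v, ρ a⁻¹ (ρ a v) = v := fun v => by
    rw [← Module.End.mul_apply, ← map_mul, inv_mul_cancel, map_one, Module.End.one_apply]
  have e2 : ∀ v, ρ a (ρ a⁻¹ v) = v := fun v => by
    rw [← Module.End.mul_apply, ← map_mul, mul_inv_cancel, map_one, Module.End.one_apply]
  refine ⟨hV a e h.mem, fun q => h.ne (by rw [← e1 e, q, map_zero]), fun v hv => ?_, ?_⟩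
  · obtain ⟨c, hc⟩ := h.move _ (hV a⁻¹ v hv)
    exact ⟨c, by simp only [map_mul, Module.End.mul_apply, hc, map_add, map_smul, e2]⟩
  · simp only [map_mul, Module.End.mul_apply, e1, h.eig, map_smul]

theorem Inv.coef (I : Inv ρ V H) (h : Ps ρ V ω g e) {v : E} {c : ℂ} (hc : ρ g v = v + c • e) :
    c * H e e = (ω - 1) * H v e := by
  have h0 : H e e ≠ 0 := fun q => by simpa [q] using I.pos e h.mem h.ne
  have h1 := I.inv g e e
  have h2 := I.inv g v e
  rw [h.eig, I.smul, I.smulr] at h1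
  rw [hc, h.eig, I.smulr, I.add, I.smul] at h2
  have h3 : ω * conj ω = 1 := mul_right_cancel₀ h0 (by linear_combination h1)
  linear_combination ω * h2 - (H v e + c * H e e) * h3

/-- squared cosine of the angle -/
def cs (H : E → E → ℂ) (v w : E) : ℝ := normSq (H v w) / ((H v v).re * (H w w).re)

theorem Inv.cs_smul (I : Inv ρ V H) {c d : ℂ} (hc : c ≠ 0) (hd : d ≠ 0) (v w : E) :
    cs H (c • v) (d • w) = cs H v w := by
  have := normSq_pos.2 hc
  have := normSq_pos.2 hd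
  simp only [cs, I.smul, I.smulr, ← mul_assoc, mul_conj, re_ofReal_mul, map_mul, normSq_conj]
  rw [show normSq c * (H v v).re * normSq d * (H w w).re =
    normSq c * normSq d * ((H v v).re * (H w w).re) by ring, mul_div_mul_left _ _ (by positivity)]

theorem Inv.cs_lt (I : Inv ρ V H) {v w : E} (hv : v ∈ V) (hw : w ∈ V) (v0 : v ≠ 0) (w0 : w ≠ 0)
    (h : ¬ ∃ c : ℂ, w = c • v) : cs H v w < 1 := by
  have a := I.pos v hv v0
  have b := I.pos w hw w0
  have a' : H v v ≠ 0 := fun q => by simp [q] at a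
  have c := I.pos (H v v • w + (-H w v) • v) (V.add_mem (V.smul_mem _ hw) (V.smul_mem _ hv))
    fun q => h ⟨(H v v)⁻¹ * H w v, by
      rw [← smul_smul, ← neg_neg (H w v • v), ← neg_smul, ← eq_neg_of_add_eq_zero_left q, smul_smul,
        inv_mul_cancel₀ a', one_smul]⟩
  have e : H (H v v • w + (-H w v) • v) (H v v • w + (-H w v) • v) =
      (((H v v).re * ((H v v).re * (H w w).re - normSq (H v w)) : ℝ) : ℂ) := by
    simp only [I.add, I.addr, I.smul, I.smulr]
    rw [← I.symm v v, map_neg, ← I.symm w v]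
    push_cast
    rw [← mul_conj, ← I.symm v w, ← I.real v, ← I.real w]
    ring
  rw [e, ofReal_re] at c
  rw [cs, div_lt_one (by positivity)]
  exact sub_pos.1 (pos_of_mul_pos_right c a.le)

theorem Inv.step (I : Inv ρ V H) (h1 : ω ≠ 1) (h2 : 1 / 2 ≤ ω.re) (h3 : normSq ω = 1)
    (h : Ps ρ V ω g e) (h' : Ps ρ V ω g' e') (s0 : 0 < cs H e e') (s1 : cs H e e' < 1) :
    cs H e e' < cs H (ρ g e') e' ∧ cs H (ρ g e') e' < 1 := by
  have a := I.pos e h.mem h.ne
  have b := I.pos e' h'.mem h'.ne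
  obtain ⟨c, hc⟩ := h.move e' h'.mem
  have k := I.coef h hc
  have e1 : H (ρ g e') e' = (H e' e').re * (1 + (ω - 1) * cs H e e') := by
    have a' : ((H e e).re : ℂ) ≠ 0 := by exact_mod_cast a.ne'
    have b' : ((H e' e').re : ℂ) ≠ 0 := by exact_mod_cast b.ne'
    rw [hc, I.add, I.smul, cs]
    push_cast
    rw [← mul_conj, ← I.symm e e']
    field_simp
    rw [← I.real e, ← I.real e']
    linear_combination H e e' * k
  have e2 : cs H (ρ g e') e' =
      1 - 2 * (1 - ω.re) * (cs H e e' * (1 - cs H e e')) := by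
    rw [cs, I.inv, e1, map_mul, normSq_ofReal, mul_div_cancel_left₀ _ (by positivity)]
    rw [normSq_apply] at h3 ⊢
    simp only [add_re, one_re, mul_re, sub_re, ofReal_re, sub_im, one_im, ofReal_im, add_im, mul_im]
    linear_combination (cs H e e') ^ 2 * h3
  have r1 : ω.re < 1 := by
    rw [normSq_apply] at h3
    by_contra q
    exact h1 (Complex.ext (by simp only [one_re]; nlinarith [mul_self_nonneg ω.im])
      (by simp only [one_im]; nlinarith [mul_self_nonneg ω.im]))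
  rw [e2]
  have := mul_pos s0 (sub_pos.2 s1)
  constructor
  · nlinarith [mul_pos (sub_pos.2 s1) (sub_pos.2 s1)]
  · nlinarith

theorem Inv.orth [Finite G] (I : Inv ρ V H) (h1 : ω ≠ 1) (h2 : 1 / 2 ≤ ω.re) (h3 : normSq ω = 1)
    (h : Ps ρ V ω g e) (h' : Ps ρ V ω g' e') : H e e' = 0 ∨ ∃ c : ℂ, e' = c • e := by
  classical
  by_contra q
  rw [not_or] at q
  let A : Set ℝ := {s | (0 < s ∧ s < 1) ∧ ∃ g g' e e', Ps ρ V ω g e ∧ Ps ρ V ω g' e' ∧ s = cs H e e'}
  let ax : G → E := fun g => if h : ∃ e, Ps ρ V ω g e then h.choose else 0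
  have hax : ∀ g e, Ps ρ V ω g e → ∃ c : ℂ, c ≠ 0 ∧ e = c • ax g := fun g e h => by
    have hex : ∃ e, Ps ρ V ω g e := ⟨e, h⟩
    obtain ⟨c, hc⟩ := hex.choose_spec.move e h.mem
    have : e = (c / (ω - 1)) • ax g := by
      have w : ω - 1 ≠ 0 := sub_ne_zero.2 h1
      have : (ω - 1) • e = c • ax g := by
        rw [sub_smul, one_smul, ← h.eig, hc, add_sub_cancel_left]; simp only [ax, dif_pos hex]
      rw [div_eq_inv_mul, ← smul_smul, ← this, smul_smul, inv_mul_cancel₀ w, one_smul]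
    exact ⟨_, fun z => h.ne (by rw [this, z, zero_smul]), this⟩
  have fin : A.Finite := (Set.finite_range fun p : G × G => cs H (ax p.1) (ax p.2)).subset <| by
    rintro s ⟨-, g, g', e, e', h, h', rfl⟩
    obtain ⟨c, c0, hc⟩ := hax g e h
    obtain ⟨d, d0, hd⟩ := hax g' e' h'
    exact ⟨(g, g'), by rw [hc, hd, I.cs_smul c0 d0]⟩
  obtain ⟨s, ⟨⟨s0, s1⟩, a, a', v, v', p, p', rfl⟩, hm⟩ := Set.exists_max_image A id fin
    ⟨cs H e e', ⟨div_pos (normSq_pos.2 q.1) (mul_pos (I.pos e h.mem h.ne) (I.pos e' h'.mem h'.ne)),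
      I.cs_lt h.mem h'.mem h.ne h'.ne q.2⟩, g, g', e, e', h, h', rfl⟩
  obtain ⟨t1, t2⟩ := I.step h1 h2 h3 p p' s0 s1
  exact absurd (hm _ ⟨⟨s0.trans t1, t2⟩, _, _, _, _, p'.conj I.stab a, p', rfl⟩) (not_le.2 t1)

/-- the axis of one pseudo-reflection is an eigenvector of every other one -/
theorem Inv.pure [Finite G] (I : Inv ρ V H) {j : ℕ} (h1 : ω ^ j ≠ 1) (h2 : 1 / 2 ≤ (ω ^ j).re)
    (h3 : normSq (ω ^ j) = 1) (h : Ps ρ V ω g e) (h' : Ps ρ V ω g' e') :
    ρ g e' = e' ∨ ρ g e' = ω • e' := by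
  rcases I.orth h1 h2 h3 (h.pow I.stab j) (h'.pow I.stab j) with q | ⟨c, rfl⟩
  · obtain ⟨c, hc⟩ := h.move e' h'.mem
    have k := I.coef h hc
    have h0 : H e e ≠ 0 := fun q => by simpa [q] using I.pos e h.mem h.ne
    rw [I.symm e e', q, map_zero, mul_zero] at k
    rw [hc, (mul_eq_zero.1 k).resolve_right h0]
    exact Or.inl (by simp)
  · exact Or.inr (by rw [map_smul, h.eig, smul_comm])

end Pool.Agent.MP_c4844d_an.Tr

end
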