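import Mathlib.FieldTheory.Normal.Closure
import Mathlib.FieldTheory.IsAlgClosed.AlgebraicClosure
import Pool.Agent.MP_c4844d_an.tr.Emb
import Pool.Agent.MP_c4844d_an.tr.Refl

/-! The fourth-order equation has no algebraic solution if the exponent has a large denominator. -/

noncomputable section

namespace Pool.Agent.MP_c4844d_an.Tr

open Polynomial HahnSeries Complex

variable {K : Type} [Field K] [Algebra F0 K] {D : K →+ K} {a : ℂ} {M : ℤ} {ι : K →+* LS ℂ}

/-- unramified and without poles at all finite points -/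
def Hol (x : K) : Prop := ∀ (a : ℂ) (M : ℤ) (ι : K →+* LS ℂ), Emb a M ι → 0 < M →
  ∀ n, (ι x).coeff n ≠ 0 → 0 ≤ n ∧ M ∣ n

theorem exists_anti (p : ℂ[X]) : ∃ q, derivative q = p := by
  induction p using Polynomial.induction_on' with
  | add p q hp hq =>
    obtain ⟨a, rfl⟩ := hp
    obtain ⟨b, rfl⟩ := hq
    exact ⟨a + b, derivative_add⟩
  | monomial n a =>
    refine ⟨monomial (n + 1) (a / (n + 1)), ?_⟩
    have : (n + 1 : ℂ) ≠ 0 := by exact_mod_cast n.succ_ne_zero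
    rw [derivative_monomial]; simp [this]

theorem sum_mult {p : ℂ[X]} {T : Finset ℂ} (h : p.roots.toFinset ⊆ T) :
    ∑ a ∈ T, rootMultiplicity a p = p.natDegree := by
  rw [← IsAlgClosed.card_roots_eq_natDegree, ← Multiset.sum_count_eq_card
    fun a ha => h (Multiset.mem_toFinset.2 ha)]
  simp only [count_roots]

variable [FiniteDimensional F0 K]

theorem Hol.der (hD : Dt D) {x : K} (h : Hol x) : Hol (D x) := by
  intro a M ι e hM n hn
  rw [← add_sub_cancel_right n M, e.coeff_der hD] at hn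
  obtain ⟨h1, h2⟩ := h a M ι e hM _ (right_ne_zero_of_mul hn)
  have h3 : n + M ≠ 0 := fun q => left_ne_zero_of_mul hn (by simp [q])
  have := Int.le_of_dvd (by omega) h2
  exact ⟨by omega, (dvd_add_left (dvd_refl M)).1 h2⟩

theorem Dt.const (hD : Dt D) {x : K} (h : D x = 0) : ∃ c, x = tp K (Polynomial.C c) := by
  obtain ⟨n, ι, hn, e⟩ := exists_emb (K := K) 0 (Or.inl rfl)
  refine ⟨(ι x).coeff 0, ι.injective ?_⟩
  rw [e.pol, pe_C]
  ext m
  by_cases hm : m = 0
  · simp [hm]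
  · have := e.coeff_der hD x m
    rw [h, map_zero, HahnSeries.coeff_zero] at this
    rw [coeff_single_of_ne hm]
    exact (mul_eq_zero.1 this.symm).resolve_left (div_ne_zero (by exact_mod_cast hm) e.ne)

theorem Dt.pol_of_iter (hD : Dt D) (N : ℕ) {x : K} {p : ℂ[X]} (h : D^[N] x = tp K p) :
    ∃ q, x = tp K q := by
  induction N generalizing p with
  | zero => exact ⟨p, h⟩
  | succ N ih =>
    obtain ⟨q, rfl⟩ := exists_anti p
    rw [Function.iterate_succ_apply'] at h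
    obtain ⟨c, hc⟩ := hD.const (x := D^[N] x - tp K q) (by rw [map_sub, h, hD.pol, sub_self])
    exact ih (p := Polynomial.C c + q) (by rw [map_add, ← hc, sub_add_cancel])

theorem rat_zero {r : F0} (h : ∀ a M ι, Emb a M ι → 0 < M → ∃ c, Ld (ι (algebraMap F0 K r)) 0 c)
    (e : Emb 0 M ι) (hM : M < 0) {c : ℂ} (hc : Ld (ι (algebraMap F0 K r)) 1 c) : r = 0 := by
  have d0 : r.denom.natDegree = 0 := by
    by_contra q
    obtain ⟨a, ha⟩ := IsAlgClosed.exists_root r.denom fun z => q (natDegree_eq_zero_iff_degree_le_zero.2 z.le)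
    obtain ⟨n, ι, hn, e⟩ := exists_emb (K := K) a (Or.inl rfl)
    have hn' : (0 : ℤ) < n * 1 := by omega
    obtain ⟨c, hc⟩ := h _ _ _ e hn'
    have := hc.mul (ld_pe (a := a) hn' r.denom)
    rw [← e.pol, ← map_mul, tp_frac, e.pol, ha.eq_zero, mul_zero, add_zero] at this
    have z : r.num.eval a = 0 := (ld_pe hn' r.num).2.symm.trans this.2
    obtain ⟨u, v, huv⟩ := r.isCoprime_num_denom
    simpa [z, ha.eq_zero] using congrArg (eval a) huv
  have := tp_frac (K := K) r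
  rw [(r.monic_denom.natDegree_eq_zero).1 d0, map_one, mul_one] at this
  rw [this, e.pol] at hc
  by_contra q
  have h1 := (ld_pe_inf hM (le_refl r.num.natDegree)).le hc
    (leadingCoeff_ne_zero.2 (RatFunc.num_ne_zero q))
  nlinarith

theorem Hol.pol [IsGalois F0 K] (hD : Dt D) {x : K} (h : Hol x) : ∃ p, x = tp K p := by
  classical
  obtain ⟨n, ι, hn, e⟩ := exists_emb (K := K) 0 (Or.inr ⟨rfl, rfl⟩)
  have hM : (n : ℤ) * -1 < 0 := by omega
  obtain ⟨B, hB⟩ := (Set.finite_range fun g : K ≃ₐ[F0] K => (ι (g x)).order).bddBelow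
  have it : ∀ (g : K ≃ₐ[F0] K) (N : ℕ), ∃ c, Ld (ι (g (D^[N] x))) (B - 1 + N) c := fun g N => by
    induction N with
    | zero => exact ⟨0, (ld_order (ι (g x))).weak (by have := hB ⟨g, rfl⟩; simp only at this; omega)⟩
    | succ N ih =>
      obtain ⟨c, hc⟩ := ih
      rw [Function.iterate_succ_apply', hD.gal]
      exact ⟨_, fun m hm => (e.ld_der hD hc).1 m (by push_cast at hm; omega), rfl⟩
  have hol : ∀ N, Hol (D^[N] x) := fun N => by
    induction N with
    | zero => exact h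
    | succ N ih => rw [Function.iterate_succ_apply']; exact ih.der hD
  set N := (2 - B).toNat
  obtain ⟨r, hr⟩ := (IsGalois.mem_range_algebraMap_iff_fixed (F := F0)
    (∏ g : K ≃ₐ[F0] K, g (D^[N] x))).2 fun f => by
      rw [map_prod]
      exact Fintype.prod_equiv (Equiv.mulLeft f) _ _ fun g => rfl
  have r0 : r = 0 := by
    obtain ⟨c, hc⟩ := Ld.prod (n := 1) Finset.univ (f := fun g : K ≃ₐ[F0] K => ι (g (D^[N] x)))
      fun g => ⟨_, fun m hm => (it g N).choose_spec.1 m (by omega), rfl⟩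
    have : 0 < (Finset.univ : Finset (K ≃ₐ[F0] K)).card := Finset.card_pos.2 Finset.univ_nonempty
    refine rat_zero (K := K) (fun a M ι e hM => ?_) e hM
      ⟨fun m hm => by rw [hr, map_prod]; exact hc.1 m (by omega), rfl⟩
    obtain ⟨c, hc⟩ := Ld.prod (n := 0) Finset.univ (f := fun g : K ≃ₐ[F0] K => ι (g (D^[N] x)))
      fun g => ⟨_, fun m hm => by_contra fun q =>
        absurd (hol N a M _ (e.comp g) hM m q).1 (by omega), rfl⟩
    exact ⟨c, by rw [hr, map_prod]; exact hc.cast (mul_zero _) rfl⟩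
  rw [r0, map_zero, eq_comm, Finset.prod_eq_zero_iff] at hr
  obtain ⟨g, -, hg⟩ := hr
  exact hD.pol_of_iter N (p := 0) (by rw [map_zero]; simpa using hg)

/-! ### local monodromy -/

/-- the root of unity attached to a rational number -/
def om (q : ℚ) : ℂ := exp (2 * Real.pi * I * q)

theorem om_ne (q : ℚ) : om q ≠ 0 := exp_ne_zero _

theorem om_zpow (q : ℚ) (n : ℤ) : om q ^ n = om (n * q) := by
  rw [om, om, ← exp_int_mul]; congr 1; push_cast; ring

theorem om_dvd (hM : 0 < M) (n : ℤ) : om (M : ℚ)⁻¹ ^ n = 1 ↔ M ∣ n := by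
  have := (isPrimitiveRoot_exp_rat (M : ℚ)⁻¹).zpow_eq_one_iff_dvd n
  rwa [Rat.inv_intCast_den_of_pos hM] at this

theorem om_small {ρ : ℚ} (h : 7 ≤ ρ.den) :
    ∃ j : ℕ, om ρ ^ j ≠ 1 ∧ 1 / 2 ≤ (om ρ ^ j).re ∧ normSq (om ρ ^ j) = 1 := by
  have : NeZero ρ.den := ⟨ρ.den_nz⟩
  have p := isPrimitiveRoot_exp ρ.den ρ.den_nz
  obtain ⟨j, -, hj⟩ := (isPrimitiveRoot_exp_rat ρ).eq_pow_of_pow_eq_one p.pow_eq_one
  have e : (2 * Real.pi * I / ρ.den : ℂ) = (2 * Real.pi / ρ.den : ℝ) * I := by push_cast; ring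
  have h7 : (7 : ℝ) ≤ ρ.den := by exact_mod_cast h
  refine ⟨j, ?_, ?_, ?_⟩ <;> rw [om, hj]
  · exact p.ne_one (by omega)
  · rw [e, exp_ofReal_mul_I_re, ← Real.cos_pi_div_three]
    have := Real.pi_pos
    refine Real.cos_le_cos_of_nonneg_of_le_pi (by positivity) (by linarith) ?_
    rw [div_le_div_iff₀ (by positivity) (by norm_num)]
    nlinarith
  · rw [e, normSq_eq_norm_sq, norm_exp_ofReal_mul_I, one_pow]

variable [Algebra ℂ K] [IsScalarTower ℂ F0 K] {ρ : ℚ} {η : ℂ}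

omit [FiniteDimensional F0 K] in
theorem Dt.smul (hD : Dt D) (c : ℂ) (x : K) : D (c • x) = c • D x := by
  rw [Algebra.smul_def, Algebra.smul_def, hD.lb, algebraMap_tp, hD.pol]; simp

omit [FiniteDimensional F0 K] in
theorem Emb.smul (h : Emb a M ι) (c : ℂ) (x : K) (n : ℤ) :
    (ι (c • x)).coeff n = c * (ι x).coeff n := by
  rw [Algebra.smul_def, map_mul, algebraMap_tp, h.pol, pe_C, coeff_single_zero_mul]

/-- the solution space -/
def Sol (hD : Dt D) (ρ : ℚ) (η : ℂ) : Submodule ℂ K where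
  carrier := {x | ode D (3 / 2 - ρ) η x = 0}
  add_mem' {x y} hx hy := by
    simp only [Set.mem_ofPred_eq, ode, map_add] at *
    linear_combination hx + hy
  zero_mem' := by simp [ode]
  smul_mem' c x hx := by
    simp only [Set.mem_ofPred_eq, ode, hD.smul] at *
    simp only [Algebra.smul_def]
    linear_combination algebraMap ℂ K c * hx

/-- the Galois group acts linearly -/
def rep (K : Type) [Field K] [Algebra F0 K] [Algebra ℂ K] [IsScalarTower ℂ F0 K] :
    (K ≃ₐ[F0] K) →* Module.End ℂ K where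
  toFun g := (g.restrictScalars ℂ).toLinearMap
  map_one' := rfl
  map_mul' _ _ := rfl

theorem rep_stab (hD : Dt D) (g : K ≃ₐ[F0] K) (v : K) (hv : v ∈ Sol hD ρ η) :
    rep K g v ∈ Sol hD ρ η := by
  have e : ∀ p, g (tp K p) = tp K p := fun p => g.commutes _
  have := congrArg g (show ode D (3 / 2 - ρ) η v = 0 from hv)
  simp only [ode, map_add, map_mul, e, hD.gal, map_zero] at this
  exact this

theorem sol_inv (hD : Dt D) : ∃ H, Inv (rep K) (Sol hD ρ η) H := by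
  obtain ⟨n, ι, hn, e⟩ := exists_emb (K := K) 0 (Or.inl rfl)
  refine exists_inv _ _ (rep_stab hD) (J := Fin 4) (fun j =>
    { toFun := fun x => (ι x).coeff (j * (n * 1))
      map_add' := fun x y => by simp
      map_smul' := fun c x => e.smul c x _ }) fun v hv h => by_contra fun q => ?_
  obtain ⟨m, c, hc, hl⟩ := exists_ld ((_root_.map_ne_zero ι).2 q)
  rcases e.ind_fin hD (by omega) hv hl hc with ⟨j, hj, rfl⟩ | ⟨z, -⟩
  · exact hc (hl.2.symm.trans (h ⟨j, hj⟩))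
  · simp [pW] at z

theorem Emb.mono [IsGalois F0 K] (h : Emb a M ι) (hD : Dt D) (hM : 0 < M) :
    ∃ g : K ≃ₐ[F0] K, (∀ x n, (ι (g x)).coeff n = om (M : ℚ)⁻¹ ^ n * (ι x).coeff n) ∧
      ((∀ v ∈ Sol hD ρ η, g v = v) ∨ ∃ e, Ps (rep K) (Sol hD ρ η) (om ρ) g e) := by
  obtain ⟨g, hg⟩ := h.exists_tw (om_ne (M : ℚ)⁻¹) ((om_dvd hM M).2 dvd_rfl)
  have hg' : ∀ x n, (ι (g x)).coeff n = om (M : ℚ)⁻¹ ^ n * (ι x).coeff n := fun x n => by
    rw [hg, tw_coeff]
  refine ⟨g, hg', or_iff_not_imp_left.2 fun q => ?_⟩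
  push Not at q
  obtain ⟨v, hv, q⟩ := q
  have mem : ∀ v ∈ Sol hD ρ η, g v - v ∈ Sol hD ρ η := fun v hv =>
    Submodule.sub_mem _ (rep_stab hD g v hv) hv
  have key : ∀ v ∈ Sol hD ρ η, g v - v ≠ 0 → ∃ n : ℤ, (n : ℚ) = ρ * M ∧
      (ι (g v - v)).coeff n ≠ 0 := fun v hv q => by
    obtain ⟨m, c, hc, hl⟩ := exists_ld ((_root_.map_ne_zero ι).2 q)
    rcases h.ind_fin hD hM (mem v hv) hl hc with ⟨j, -, rfl⟩ | ⟨-, z⟩
    · refine absurd ?_ hc
      rw [← hl.2, map_sub, HahnSeries.coeff_sub, hg', (om_dvd hM _).2 (dvd_mul_left _ _)]; ring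
    · exact ⟨m, z, hl.2 ▸ hc⟩
  obtain ⟨n, hn, c0⟩ := key v hv (sub_ne_zero.2 q)
  have move : ∀ u ∈ Sol hD ρ η, ∃ c : ℂ, g u = u + c • (g v - v) := fun u hu => by
    refine ⟨(ι (g u - u)).coeff n / (ι (g v - v)).coeff n, ?_⟩
    set c := (ι (g u - u)).coeff n / (ι (g v - v)).coeff n with hc
    have e : g (u - c • v) - (u - c • v) = g u - u - c • (g v - v) := by
      rw [map_sub, show g (c • v) = c • g v from (rep K g).map_smul c v, smul_sub]; ring
    by_contra z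
    obtain ⟨m, hm, c1⟩ := key (u - c • v) (Submodule.sub_mem _ hu (Submodule.smul_mem _ c hv))
      fun y => z (by rw [e] at y; linear_combination y)
    obtain rfl : m = n := by exact_mod_cast hm.trans hn.symm
    rw [e, map_sub, HahnSeries.coeff_sub, h.smul, hc, div_mul_cancel₀ _ c0, sub_self] at c1
    exact c1 rfl
  refine ⟨g v - v, mem v hv, sub_ne_zero.2 q, move, ?_⟩
  obtain ⟨c, hc⟩ := move _ (mem v hv)
  have := hg' (g v - v) n
  have M0 : (M : ℚ) ≠ 0 := by exact_mod_cast hM.ne'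
  rw [hc, map_add, HahnSeries.coeff_add, h.smul, om_zpow, hn, mul_inv_cancel_right₀ M0] at this
  have w : om ρ = 1 + c := mul_right_cancel₀ c0 (by linear_combination -this)
  rw [w, add_smul, one_smul]
  exact hc

theorem exists_pure [IsGalois F0 K] (hD : Dt D) (hρ : 7 ≤ ρ.den) {φ : K} (h0 : φ ≠ 0)
    (hφ : φ ∈ Sol hD ρ η) : ∃ ψ ∈ Sol hD ρ η, ψ ≠ 0 ∧ ∀ a M ι, Emb a M ι → 0 < M →
      ∃ g : K ≃ₐ[F0] K, (∀ x n, (ι (g x)).coeff n = om (M : ℚ)⁻¹ ^ n * (ι x).coeff n) ∧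
        (g ψ = ψ ∨ g ψ = om ρ • ψ) := by
  by_cases q : ∃ g e, Ps (rep K) (Sol hD ρ η) (om ρ) g e
  · obtain ⟨g', e', h'⟩ := q
    obtain ⟨H, I⟩ := sol_inv (ρ := ρ) (η := η) hD
    obtain ⟨j, h1, h2, h3⟩ := om_small hρ
    refine ⟨e', h'.mem, h'.ne, fun a M ι e hM => ?_⟩
    obtain ⟨g, g1, g2 | ⟨v, g2⟩⟩ := e.mono (ρ := ρ) (η := η) hD hM
    · exact ⟨g, g1, Or.inl (g2 _ h'.mem)⟩
    · exact ⟨g, g1, I.pure h1 h2 h3 g2 h'⟩
  · refine ⟨φ, hφ, h0, fun a M ι e hM => ?_⟩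
    obtain ⟨g, g1, g2 | ⟨v, g2⟩⟩ := e.mono (ρ := ρ) (η := η) hD hM
    · exact ⟨g, g1, Or.inl (g2 _ hφ)⟩
    · exact absurd ⟨g, v, g2⟩ q

theorem no_sol [IsGalois F0 K] (hD : Dt D) (hρ : 7 ≤ ρ.den) {φ : K}
    (hφ : ode D (3 / 2 - ρ) η φ = 0) : φ = 0 := by
  classical
  by_contra h0
  obtain ⟨ψ, hψ, ψ0, hp⟩ := exists_pure hD hρ h0 hφ
  set N := ρ.den with hN
  set J := ρ.num.natAbs with hJ
  have nu : (N : ℚ) * ρ = ρ.num := Rat.den_mul_eq_num ρ
  have loc : ∀ a M ι, Emb a M ι → 0 < M → ∃ (j s : ℕ) (c : ℂ), s ≤ rootMultiplicity a pW ∧ c ≠ 0 ∧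
      Ld (ι (ψ ^ N * tp K pW ^ J)) ((N * j + J * rootMultiplicity a pW + s * ρ.num) * M) c := by
    intro a M ι e hM
    obtain ⟨n, c, hc, hl⟩ := exists_ld ((_root_.map_ne_zero ι).2 ψ0)
    obtain ⟨d, hd, hW⟩ := ld_pe_mult (a := a) hM pW_ne
    have := (hl.pow N).mul (hW.pow J)
    rw [← e.pol, ← map_pow, ← map_pow, ← map_mul] at this
    have c0 := mul_ne_zero (pow_ne_zero N hc) (pow_ne_zero J hd)
    rcases e.ind_fin hD hM hψ hl hc with ⟨j, -, rfl⟩ | ⟨z, hn⟩
    · exact ⟨j, 0, _, zero_le, c0, this.cast (by push_cast; ring) rfl⟩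
    · refine ⟨0, 1, _, (rootMultiplicity_pos pW_ne).2 z, c0, this.cast ?_ rfl⟩
      have : (N : ℤ) * n = ρ.num * M := by
        have : (N : ℚ) * n = ρ.num * M := by rw [hn, ← nu]; ring
        exact_mod_cast this
      rw [this]; push_cast; ring
  obtain ⟨P, hP⟩ := Hol.pol hD (x := ψ ^ N * tp K pW ^ J) fun a M ι e hM n hn => by
    obtain ⟨j, s, c, hs, -, hl⟩ := loc a M ι e hM
    obtain ⟨g, g1, g2⟩ := hp a M ι e hM
    refine ⟨le_trans (mul_nonneg ?_ hM.le) (not_lt.1 fun q => hn (hl.1 n q)), ?_⟩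
    · have a1 : (s : ℤ) ≤ rootMultiplicity a pW := by exact_mod_cast hs
      have a2 : -(J : ℤ) ≤ ρ.num := by omega
      have a3 : (0 : ℤ) ≤ J := by omega
      have a4 : (0 : ℤ) ≤ s := by omega
      have a5 : (0 : ℤ) ≤ N * j := by positivity
      nlinarith [mul_le_mul_of_nonneg_left a2 a4, mul_le_mul_of_nonneg_left a1 a3]
    · have e1 : g (ψ ^ N) = ψ ^ N := by
        rw [map_pow]
        rcases g2 with q | q <;> rw [q]
        rw [_root_.smul_pow, show om ρ ^ N = 1 from (isPrimitiveRoot_exp_rat ρ).pow_eq_one, one_smul]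
      have := g1 (ψ ^ N * tp K pW ^ J) n
      rw [map_mul, e1, map_pow g, show g (tp K pW) = tp K pW from g.commutes _] at this
      exact (om_dvd hM n).1 (mul_right_cancel₀ hn (by rw [← this, one_mul]))
  have P0 : P ≠ 0 := by
    rintro rfl
    exact mul_ne_zero (pow_ne_zero N ψ0) (pow_ne_zero J (tp_ne pW_ne)) (hP.trans (map_zero _))
  have mult : ∀ a, ∃ j s : ℕ, s ≤ rootMultiplicity a pW ∧
      (rootMultiplicity a P : ℤ) = N * j + J * rootMultiplicity a pW + s * ρ.num := fun a => by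
    obtain ⟨n, ι, hn, e⟩ := exists_emb (K := K) a (Or.inl rfl)
    have hM : (0 : ℤ) < n * 1 := by omega
    obtain ⟨j, s, c, hs, hc, hl⟩ := loc a _ ι e hM
    obtain ⟨d, hd, hW⟩ := ld_pe_mult (a := a) hM P0
    rw [hP, e.pol] at hl
    exact ⟨j, s, hs, mul_right_cancel₀ hM.ne' (hW.uniq hl hd hc)⟩
  choose j s hs hm using mult
  obtain ⟨i, hi⟩ : ∃ i : ℕ, (P.natDegree : ℤ) = 2 * ρ.num - N * (3 + i) + J * 8 := by
    obtain ⟨n, ι, hn, e⟩ := exists_emb (K := K) 0 (Or.inr ⟨rfl, rfl⟩)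
    have hM : (n : ℤ) * -1 < 0 := by omega
    obtain ⟨m, c, hc, hl⟩ := exists_ld ((_root_.map_ne_zero ι).2 ψ0)
    obtain ⟨i, hi⟩ := e.ind_inf hD hM hψ hl hc
    have := (hl.pow N).mul ((ld_pe_inf hM pW_deg.le).pow J)
    rw [← e.pol, ← map_pow, ← map_pow, ← map_mul, hP, e.pol] at this
    have u := (ld_pe_inf hM (le_refl P.natDegree)).uniq this (leadingCoeff_ne_zero.2 P0)
      (mul_ne_zero (pow_ne_zero N hc) (pow_ne_zero J (pW_deg ▸ leadingCoeff_ne_zero.2 pW_ne)))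
    refine ⟨i, mul_right_cancel₀ hM.ne ?_⟩
    have : (N : ℤ) * m = (2 * ρ.num - N * (3 + i)) * (n * -1) := by
      have : (N : ℚ) * m = (2 * ρ.num - N * (3 + i)) * (n * -1 : ℤ) := by rw [hi, ← nu]; ring
      exact_mod_cast this
    rw [u, this]; push_cast; ring
  set T := P.roots.toFinset ∪ pW.roots.toFinset
  have s1 := sum_mult (p := P) (T := T) Finset.subset_union_left
  have s2 := sum_mult (p := pW) (T := T) Finset.subset_union_right
  rw [pW_deg] at s2
  have s3 : ∑ a ∈ T, s a ≤ 8 := s2 ▸ Finset.sum_le_sum fun a _ => hs a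
  have s4 : (P.natDegree : ℤ) = N * (∑ a ∈ T, j a : ℕ) + J * 8 + (∑ a ∈ T, s a : ℕ) * ρ.num := by
    have s2' : ∑ a ∈ T, (rootMultiplicity a pW : ℤ) = 8 := by exact_mod_cast s2
    rw [← s1, ← s2']
    push_cast
    simp only [hm, Finset.sum_add_distrib, Finset.mul_sum, Finset.sum_mul]
  generalize ∑ a ∈ T, s a = S at *
  generalize ∑ a ∈ T, j a = Y at *
  have dv : (N : ℤ) ∣ (S - 2 : ℤ) := by
    refine IsCoprime.dvd_of_dvd_mul_right (Int.isCoprime_iff_nat_coprime.2 ρ.reduced).symm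
      ⟨-(3 + i + Y), by linear_combination hi - s4⟩
  obtain ⟨k, hk⟩ := dv
  have k0 : k = 0 := by
    have : (7 : ℤ) ≤ N := by exact_mod_cast hρ
    have : (S : ℤ) ≤ 8 := by exact_mod_cast s3
    have : (0 : ℤ) ≤ S := by omega
    by_contra q
    rcases lt_or_gt_of_ne q with q | q <;> nlinarith
  rw [k0, mul_zero] at hk
  have : (N : ℤ) * (3 + i + Y) = 0 := by linear_combination hi - s4 - ρ.num * hk
  have : (0 : ℤ) < N * (3 + i + Y) := by positivity
  omega

/-- algebraic functions of one variable -/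
abbrev K1 : Type := AlgebraicClosure F0

open IntermediateField in
theorem no_sol' {D : K1 →+ K1} (hD : Dt D) (hρ : 7 ≤ ρ.den) {φ : K1}
    (hφ : ode D (3 / 2 - ρ) η φ = 0) : φ = 0 := by
  have := adjoin.finiteDimensional (Algebra.IsAlgebraic.isAlgebraic (R := F0) φ).isIntegral
  let K := normalClosure F0 F0⟮φ⟯ K1
  have : IsGalois F0 K := {}
  obtain ⟨D', hD'⟩ := exists_Dt (K := K)
  have e : ∀ p, K.val (tp K p) = tp K1 p := fun p => K.val.commutes _
  have c : ∀ x, K.val (D' x) = D (K.val x) := fun x => by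
    refine sub_eq_zero.1 (der_rat (g := (K.val : K →+* K1))
      (δ := (K.val : K →+* K1).toAddMonoidHom.comp D' - D.comp (K.val : K →+* K1).toAddMonoidHom)
      (fun u v => ?_) (fun p => ?_) x)
    · simp only [AddMonoidHom.sub_apply, AddMonoidHom.comp_apply, RingHom.toAddMonoidHom_eq_coe,
        AddMonoidHom.coe_coe, hD'.lb u v, map_mul, map_add, hD.lb ((K.val : K →+* K1) u)]
      ring
    · change K.val (D' (tp K p)) - D (K.val (tp K p)) = 0
      rw [hD'.pol, e, e, hD.pol, sub_self]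
  let ψ : K := ⟨φ, le_normalClosure _ (mem_adjoin_simple_self F0 φ)⟩
  have : ode D' (3 / 2 - ρ) η ψ = 0 := K.val.injective (show K.val _ = K.val _ by
    simp only [ode, map_add, map_mul, e, c, map_zero]; exact hφ)
  exact congrArg K.val (no_sol hD' hρ this)

end Pool.Agent.MP_c4844d_an.Tr

end
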