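import Mathlib.Analysis.Complex.Basic
import Pool.Agent.MP_c4844d_an.tr.Lau

/-! The algebraic form of the transcendence statement. -/

noncomputable section

namespace Pool.Agent.MP_c4844d_an.Tr

open Polynomial

/-- evaluation of polynomials in three variables -/
def ev3 {R : Type} [CommRing R] [Algebra ℂ R] (z w u : R) : ℂ[X][X][X] →+* R :=
  eval₂RingHom (eval₂RingHom (eval₂RingHom (algebraMap ℂ R) z) w) u

/-- a nonzero common solution of the two equations is transcendental over the coordinates -/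
def AbsS : Prop := ∀ (R : Type) [CommRing R] [Algebra ℂ R] (L : Fin 3 → R →+ R) (z w u : R)
  (lam : ℝ) (eta : ℂ), 77 / 16 < lam → lam < 187 / 36 → (∀ i, Lb (L i)) →
  (∀ i c, L i (algebraMap ℂ R c) = 0) →
  (L 0 z = z ∧ L 1 z = 1 - z ^ 2 ∧ L 2 z = 1 + z ^ 2) →
  (L 0 w = w ∧ L 1 w = 1 - w ^ 2 ∧ L 2 w = 1 + w ^ 2) →
  (∀ r, r * (z - w) = 0 → r = 0) → u ≠ 0 →
  4 * L 0 (L 0 u) + L 1 (L 1 u) - L 2 (L 2 u) = algebraMap ℂ R (4 * lam) * u →
  16 * L 0 (L 0 (L 0 (L 0 u))) + L 1 (L 1 (L 1 (L 1 u))) + L 2 (L 2 (L 2 (L 2 u))) =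
    algebraMap ℂ R (16 * eta) * u →
  (∀ P Q, ev3 z w u P * ev3 z w u Q = 0 → ev3 z w u P = 0 ∨ ev3 z w u Q = 0) →
  Function.Injective (ev3 z w u)

end Pool.Agent.MP_c4844d_an.Tr

end
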