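import Pool.Agent.MP_c4844d_an.tr.Cone
import Pool.Agent.MP_c4844d_an.tr.Spec

/-! Transfer of the two equations to a Puiseux expansion of an algebraic solution. -/

noncomputable section

namespace Pool.Agent.MP_c4844d_an.Tr

open Polynomial HahnSeries

section Good

variable {B R S : Type} [CommRing B] [CommRing R] [CommRing S] {E : B →+* R} {Ψ : B →+* S}
  {f f' : R} {s s' : S}

/-- two elements that are given by the same fraction -/
def Good (E : B →+* R) (Ψ : B →+* S) (f : R) (s : S) : Prop :=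
  ∃ P Q, E Q ≠ 0 ∧ f * E Q = E P ∧ s * Ψ Q = Ψ P

theorem Good.mul (h : Good E Ψ f s) (b : B) : Good E Ψ (E b * f) (Ψ b * s) := by
  obtain ⟨P, Q, h0, h1, h2⟩ := h
  exact ⟨b * P, Q, h0, by rw [map_mul, ← h1, mul_assoc], by rw [map_mul, ← h2, mul_assoc]⟩

theorem Good.add (hp : ∀ P Q, E P * E Q = 0 → E P = 0 ∨ E Q = 0) (h : Good E Ψ f s)
    (h' : Good E Ψ f' s') : Good E Ψ (f + f') (s + s') := by
  obtain ⟨P, Q, h0, h1, h2⟩ := h
  obtain ⟨P', Q', h0', h1', h2'⟩ := h'
  refine ⟨P * Q' + P' * Q, Q * Q', fun q => (hp _ _ (by rwa [map_mul] at q)).elim h0 h0', ?_, ?_⟩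
  · simp only [map_add, map_mul, ← h1, ← h1']; ring
  · simp only [map_add, map_mul, ← h2, ← h2']; ring

theorem Good.sub (hp : ∀ P Q, E P * E Q = 0 → E P = 0 ∨ E Q = 0) (h : Good E Ψ f s)
    (h' : Good E Ψ f' s') : Good E Ψ (f - f') (s - s') := by
  simpa [sub_eq_add_neg] using h.add hp (h'.mul (-1))

theorem Good.der (hp : ∀ P Q, E P * E Q = 0 → E P = 0 ∨ E Q = 0) {δ : R →+ R} {δ' : S →+ S}
    (l : Lb δ) (l' : Lb δ') {π : B} (h0 : E π ≠ 0)
    (hπ : ∀ Q, ∃ Q', E π * δ (E Q) = E Q' ∧ Ψ π * δ' (Ψ Q) = Ψ Q') (h : Good E Ψ f s) :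
    Good E Ψ (δ f) (δ' s) := by
  obtain ⟨P, Q, q0, h1, h2⟩ := h
  obtain ⟨P', a1, a2⟩ := hπ P
  obtain ⟨Q', b1, b2⟩ := hπ Q
  refine ⟨Q * P' - P * Q', Q * Q * π, fun q => (hp _ _ (by rwa [map_mul] at q)).elim
    (fun q => (hp _ _ (by rwa [map_mul] at q)).elim q0 q0) h0, ?_, ?_⟩
  · simp only [map_sub, map_mul, ← a1, ← b1, ← h1, l f]; ring
  · simp only [map_sub, map_mul, ← a2, ← b2, ← h2, l' s]; ring

theorem Good.zero [IsDomain S] (hk : ∀ Q, Ψ Q = 0 ↔ E Q = 0) (h : Good E Ψ f s) (h0 : f = 0) :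
    s = 0 := by
  obtain ⟨P, Q, q0, h1, h2⟩ := h
  rw [h0, zero_mul] at h1
  rw [(hk P).2 h1.symm] at h2
  exact (mul_eq_zero.1 h2).resolve_right fun q => q0 ((hk Q).1 q)

end Good

/-- a vector field that acts on two points -/
def dA (l : ℂ[X]) : ℂ[X][X] →+ ℂ[X][X] :=
  cm ((AddMonoidHom.mulRight l).comp derivative.toAddMonoidHom) +
    (AddMonoidHom.mulRight (l.map Polynomial.C)).comp derivative.toAddMonoidHom

theorem dA_spec {R : Type} [CommRing R] {δ : R →+ R} (h : Lb δ) (e : ℂ →+* R)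
    (h0 : ∀ c, δ (e c) = 0) {z w : R} {l : ℂ[X]} (hz : δ z = eval₂ e z l) (hw : δ w = eval₂ e w l)
    (a : ℂ[X][X]) : δ (eval₂RingHom (eval₂RingHom e z) w a) =
      eval₂RingHom (eval₂RingHom e z) w (dA l a) := by
  rw [coe_eval₂RingHom, chain (g := RingHom.id R) h _
    ((AddMonoidHom.mulRight l).comp derivative.toAddMonoidHom) (fun r => by
      rw [coe_eval₂RingHom, chain0 (g := RingHom.id R) h e h0, hz]; simp [eval₂_mul]), hw]
  have : (eval₂RingHom e z).comp Polynomial.C = e := RingHom.ext fun c => eval₂_C _ _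
  simp [dA, eval₂_add, eval₂_mul, eval₂_map, this]

/-- expansion of polynomials in two variables along the diagonal -/
def dg (M : ℤ) : ℂ[X][X] →+* LS K1 :=
  eval₂RingHom (eval₂RingHom (HahnSeries.C.comp ((tp K1).comp Polynomial.C)) (single 0 (tp K1 X)))
    (single 0 (tp K1 X) + single M 1)

theorem dg_eq (M : ℤ) : dg M = (pe (tp K1 X) M).comp (mapRingHom (tp K1)) := by
  refine Polynomial.ringHom_ext' (Polynomial.ringHom_ext (fun c => ?_) ?_) ?_ <;>
    simp [dg, pe_C, pe_X]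

theorem dg_inj : Function.Injective (dg 1) := by
  rw [dg_eq]; exact (pe_inj (Or.inl one_pos)).comp (map_injective _ tp_inj)

theorem dg_expand (n : ℕ) (hn : n ≠ 0) : (expandL n hn).comp (dg 1) = dg n := by
  have e : ∀ c : K1, expandL n hn (single 0 c) = single 0 c := expandL_C n hn
  refine Polynomial.ringHom_ext' (Polynomial.ringHom_ext (fun c => ?_) ?_) ?_ <;>
    simp [dg, e, expandL_single_one]

theorem exists_psi {A R : Type} [CommRing A] [IsDomain A] [CommRing R] [Nontrivial R]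
    {E : A[X] →+* R} (hp : ∀ P Q, E P * E Q = 0 → E P = 0 ∨ E Q = 0)
    (hA : ∀ a, E (Polynomial.C a) = 0 → a = 0) {P : A[X]} (P0 : P ≠ 0) (hP : E P = 0)
    {g : A →+* LS K1} (i2 : Function.Injective g) : ∃ (n : ℕ) (hn : n ≠ 0) (y : LS K1),
      ∀ Q, eval₂RingHom ((expandL n hn).comp g) y Q = 0 ↔ E Q = 0 := by
  obtain ⟨Kq, _, q, hq⟩ : ∃ (Kq : Type) (_ : Field Kq) (q : A[X] →+* Kq),
      ∀ Q, q Q = 0 ↔ E Q = 0 := by
    have : (RingHom.ker E).IsPrime := ⟨RingHom.ker_ne_top E, fun {P Q} h => hp P Q (by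
      rwa [RingHom.mem_ker, map_mul] at h)⟩
    exact ⟨FractionRing (A[X] ⧸ RingHom.ker E), inferInstance,
      (algebraMap _ _).comp (Ideal.Quotient.mk (RingHom.ker E)), fun Q =>
      (map_eq_zero_iff _ (IsFractionRing.injective (A[X] ⧸ RingHom.ker E) _)).trans
        Ideal.Quotient.eq_zero_iff_mem⟩
  let F := FractionRing A
  have i1 : Function.Injective (q.comp Polynomial.C) :=
    (injective_iff_map_eq_zero _).2 fun a h => hA a ((hq _).1 h)
  let _ : Algebra F Kq := (IsFractionRing.lift (K := F) i1).toAlgebra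
  have e1 : (algebraMap F Kq).comp (algebraMap A F) = q.comp Polynomial.C :=
    RingHom.ext fun a => IsFractionRing.lift_algebraMap i1 a
  have e2 : ∀ Q, eval₂ (q.comp Polynomial.C) (q X) Q = q Q := fun Q => by
    rw [← hom_eval₂, eval₂_C_X]
  have alg : IsAlgebraic F (q X) := ⟨P.map (algebraMap _ F),
    (Polynomial.map_ne_zero_iff (IsFractionRing.injective _ F)).2 P0, by
      rw [aeval_def, eval₂_map, e1, e2, hq, hP]⟩
  have := IntermediateField.adjoin.finiteDimensional alg.isIntegral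
  obtain ⟨n, hn, φ, hφ⟩ := exists_extension (L := IntermediateField.adjoin F {q X})
    (IsFractionRing.lift (K := F) i2)
  have e3 : φ.comp ((algebraMap F _).comp (algebraMap A F)) = (expandL n hn).comp g :=
    RingHom.ext fun a => by
      rw [RingHom.comp_apply, RingHom.comp_apply, hφ, IsFractionRing.lift_algebraMap]; rfl
  refine ⟨n, hn, φ (IntermediateField.AdjoinSimple.gen F (q X)), fun Q => ?_⟩
  rw [coe_eval₂RingHom, ← e3, ← hom_eval₂, map_eq_zero, ← hq, ← e2 Q, ← e1,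
    ← map_eq_zero (algebraMap (IntermediateField.adjoin F {q X}) Kq), hom_eval₂]
  rfl

/-- evaluation at an expansion -/
def evS (M : ℤ) (y : LS K1) : ℂ[X][X][X] →+* LS K1 := eval₂RingHom (dg M) y

theorem absS : AbsS := by
  intro R _ _ L z w u lam η l1 l2 lb l0 hz hw hc u0 h2 h4 hp
  have : Nontrivial R := ⟨u, 0, u0⟩
  have two : ∀ r : R, r * 2 = 0 → r = 0 := fun r h => by
    have : (2 : R) * algebraMap ℂ R 2⁻¹ = 1 := by
      rw [← map_ofNat (algebraMap ℂ R), ← map_mul]; simp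
    rw [← mul_one r, ← this, ← mul_assoc, h, zero_mul]
  have i1 : Function.Injective (eval₂RingHom (algebraMap ℂ R) z) :=
    inj_of_der (δ := L 1 + L 2) (fun a b => by simp [lb 1 a b, lb 2 a b]; ring) _
      (algebraMap ℂ R).injective (by simp [l0]) z fun r h => two r (by
        rw [← h]; simp [hz]; ring)
  have lb' : Lb ((AddMonoidHom.mulLeft z).comp (L 1 + L 2) - L 0 - L 0) := fun a b => by
    simp [lb 1 a b, lb 2 a b, lb 0 a b]; ring
  have i2 : Function.Injective (eval₂RingHom (eval₂RingHom (algebraMap ℂ R) z) w) :=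
    inj_of_der lb' _ i1 (fun r => by
      rw [coe_eval₂RingHom, chain0 (g := RingHom.id R) lb' _ (by simp [l0])]; simp [hz]; ring) w
      fun r h => two r (hc _ (by rw [← h]; simp [hw]; ring))
  by_contra hi
  have ex : ∃ n, ∃ P : ℂ[X][X][X], P ≠ 0 ∧ ev3 z w u P = 0 ∧ P.natDegree = n := by
    rw [injective_iff_map_eq_zero] at hi
    push Not at hi
    obtain ⟨P, a, b⟩ := hi
    exact ⟨_, P, b, a, rfl⟩
  classical
  obtain ⟨P, P0, hP, hn⟩ := Nat.find_spec ex
  have hA : ∀ a, ev3 z w u (Polynomial.C a) = 0 → a = 0 := fun a h =>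
    (injective_iff_map_eq_zero _).1 i2 a ((eval₂_C _ _).symm.trans h)
  have d0 : P.natDegree ≠ 0 := fun h => by
    rw [eq_C_of_natDegree_eq_zero h] at P0 hP
    exact P0 (by rw [hA _ hP, map_zero])
  have π0 : ev3 z w u (derivative P) ≠ 0 := fun h =>
    Nat.find_min ex (hn ▸ natDegree_derivative_lt d0) ⟨_, fun q => d0 (derivative_eq_zero.1 q), h, rfl⟩
  obtain ⟨M, y, hM, hk⟩ : ∃ (M : ℤ) (y : LS K1), 0 < M ∧ ∀ Q, evS M y Q = 0 ↔ ev3 z w u Q = 0 := by
    obtain ⟨n, hn, y, h⟩ := exists_psi hp hA P0 hP dg_inj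
    exact ⟨n, y, by omega, by rwa [dg_expand] at h⟩
  obtain ⟨D, hD⟩ := exists_Dt (K := K1)
  have M0 : (M : K1) ≠ 0 := by exact_mod_cast hM.ne'
  have Dt : D (tp K1 X) = 1 := by rw [hD.pol]; simp
  have key : ∀ (i : Fin 3) (l : ℂ[X]) (a b c : K1), L i z = eval₂ (algebraMap ℂ R) z l →
      L i w = eval₂ (algebraMap ℂ R) w l →
      (single 0 a : LS K1) =
        eval₂ (HahnSeries.C.comp ((tp K1).comp Polynomial.C)) (single 0 (tp K1 X)) l →
      single 0 a + (single 0 b * single M 1 + single 0 c * single M 1 ^ 2) =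
        eval₂ (HahnSeries.C.comp ((tp K1).comp Polynomial.C)) (single 0 (tp K1 X) + single M 1) l →
      ∀ {f s}, Good (B := ℂ[X][X][X]) (ev3 z w u) (evS M y) f s →
        Good (B := ℂ[X][X][X]) (ev3 z w u) (evS M y) (L i f) (DD D M a b c s) := by
    intro i l a b c a1 a2 a3 a4 f s h
    have lD : Lb (DD D M a b c) := DD_lb hD.lb
    have c1 := chain (g := RingHom.id R) (lb i) _ _ (dA_spec (lb i) _ (l0 i) a1 a2) u
    have c2 := chain (g := RingHom.id _) lD (dg M) _ (dA_spec (l := l) lD _ (fun c => by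
      change DD D M a b _ (single 0 (tp K1 _)) = 0
      rw [DD_const, hD.pol]; simp) (by rw [DD_const, Dt, mul_one, a3])
      (by rw [map_add, DD_const, Dt, mul_one, DD_par hD.lb M0, a4])) y
    refine h.der hp (lb i) lD π0 fun Q =>
      ⟨derivative P * cm (dA l) Q - derivative Q * cm (dA l) P, ?_, ?_⟩
    · have := c1 P
      rw [show eval₂ _ u P = 0 from hP, map_zero] at this
      simp only [ev3, coe_eval₂RingHom, c1, eval₂_sub, eval₂_mul, RingHom.id_apply] at this ⊢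
      linear_combination -(eval₂ (eval₂RingHom (eval₂RingHom (algebraMap ℂ R) z) w) u
        (derivative Q)) * this
    · have := c2 P
      rw [show eval₂ _ y P = 0 from (hk P).2 hP, map_zero] at this
      simp only [evS, coe_eval₂RingHom, c2, eval₂_sub, eval₂_mul, RingHom.id_apply] at this ⊢
      linear_combination -(eval₂ (dg M) y (derivative Q)) * this
  have sc : ∀ c : K1, (single 0 c : LS K1) = HahnSeries.C c := fun _ => rfl
  have k0 := @key 0 X (tp K1 X) 1 0 (by simp [hz]) (by simp [hw]) (by simp) (by simp)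
  have k1 := @key 1 (1 - X ^ 2) (1 - tp K1 X ^ 2) (-2 * tp K1 X) (-1) (by simp [hz, eval₂_sub])
    (by simp [hw, eval₂_sub])
    (by simp only [sc, eval₂_sub, eval₂_one, eval₂_pow, eval₂_X, map_sub, map_one, map_pow])
    (by simp only [sc, eval₂_sub, eval₂_one, eval₂_pow, eval₂_X, map_sub, map_mul, map_neg, map_one,
      map_pow, map_ofNat]; ring)
  have k2 := @key 2 (1 + X ^ 2) (1 + tp K1 X ^ 2) (2 * tp K1 X) 1 (by simp [hz, eval₂_add])
    (by simp [hw, eval₂_add])
    (by simp only [sc, eval₂_add, eval₂_one, eval₂_pow, eval₂_X, map_add, map_one, map_pow])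
    (by simp only [sc, eval₂_add, eval₂_one, eval₂_pow, eval₂_X, map_add, map_mul, map_one,
      map_pow, map_ofNat]; ring)
  have b : Good (B := ℂ[X][X][X]) (ev3 z w u) (evS M y) u y :=
    ⟨X, 1, by simp, by simp [ev3], by simp [evS]⟩
  have bc : ∀ c, Good (B := ℂ[X][X][X]) (ev3 z w u) (evS M y) (algebraMap ℂ R c * u)
      (single 0 (tp K1 (Polynomial.C c)) * y) := fun c => by
    simpa [ev3, evS, dg] using b.mul (Polynomial.C (Polynomial.C (Polynomial.C c)))
  have g2 := ((((k0 (k0 b)).mul 4).add hp (k1 (k1 b))).sub hp (k2 (k2 b))).sub hp (bc (4 * lam))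
  have g4 := ((((k0 (k0 (k0 (k0 b)))).mul 16).add hp (k1 (k1 (k1 (k1 b))))).add hp
    (k2 (k2 (k2 (k2 b))))).sub hp (bc (16 * η))
  rw [map_ofNat, map_ofNat] at g2 g4
  have y0 := cone_zero hD hM l1 l2 _ rfl (sub_eq_zero.1 (g2.zero hk (sub_eq_zero.2 h2)))
    (sub_eq_zero.1 (g4.zero hk (sub_eq_zero.2 h4)))
  exact u0 (by simpa [ev3] using (hk X).1 (by simp [evS, y0]))

end Pool.Agent.MP_c4844d_an.Tr

end
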